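import Pool.Agent.Helper31.AO.Defs

/-!
# AO-10: codes and numbers

Proofs.
* `exists_code`: induction on `d`. `d = 0`: `ζ = 0`. `d + 1`: `ζ = ζ₀ + (2 q) ^ d * ((κ d).val + if b d then q else 0)`, `ζ₀ < (2 q) ^ d` from the induction; the last factor `t` is `< 2 q`. For `l < d`:
`ζ / (2 q) ^ l % (2 q) = ζ₀ / (2 q) ^ l % (2 q)` (as `(2 q) ^ d = (2 q) ^ l * ((2 q) * (2 q) ^ (d - l - 1))`: `Nat.add_mul_div_left`, `Nat.add_mul_mod_self_left`); for `l = d`: `ζ / (2 q) ^ d = t`, and
`((κ d).val : ZMod q) = κ d` (`ZMod.natCast_zmod_val`), `((κ d).val + q : ℕ) = κ d` in `ZMod q`, `(κ d).val < q`.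
* `idx_lt`: `(head ξ a d).val ≤ q - 1`, `str ≤ d q` (`sig_lt` gives `l < d`, so `1 + l q + k.val ≤ 1 + (d - 1) q + (q - 1) = d q`).
* `idx_inj`: uniqueness of the quotient and the remainder modulo `1 + d q`, then of the quotient and remainder modulo `q` in `str - 1 = l q + k.val`; `ZMod.val_injective`.
* `dig_inj`: digits to the base `q` determine the number (`Nat.eq_of_digits..` or induction on `d`: `i % q = i' % q` and the digits of `i / q`; `ZMod.val_natCast` or `ZMod.natCast_eq_natCast_iff'`).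
* `nod_self`: the factors are `(ζ : ℂ) - η ≠ 0`. `nod_other`: the factor `η = ζ'` is zero.
-/

namespace AOR

private theorem digit_low {B : ℕ} (hB : 0 < B) {d l t ζ : ℕ} (hl : l < d) :
    (ζ + B ^ d * t) / B ^ l % B = ζ / B ^ l % B := by
  obtain ⟨e, rfl⟩ := Nat.exists_eq_add_of_lt hl
  have h1 : B ^ (l + e + 1) * t = B ^ l * (B * (B ^ e * t)) := by ring
  rw [h1, Nat.add_mul_div_left _ _ (pow_pos hB l), Nat.add_mul_mod_self_left]

theorem exists_code {q : ℕ} [NeZero q] (d : ℕ) (κ : ℕ → ZMod q) (b : ℕ → Bool) :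
    ∃ ζ < (2 * q) ^ d, ∀ l < d, kap q ζ l = κ l ∧ bad q ζ l = b l := by
  have hq : 0 < q := NeZero.pos q
  have hB : 0 < 2 * q := by omega
  induction d with
  | zero => exact ⟨0, by simp, fun l hl => absurd hl (Nat.not_lt_zero l)⟩
  | succ d ih =>
    obtain ⟨ζ, hζ, h⟩ := ih
    obtain ⟨t, ht⟩ : ∃ t : ℕ, t = (κ d).val + if b d then q else 0 := ⟨_, rfl⟩
    have hv : (κ d).val < q := ZMod.val_lt _
    have ht2 : t < 2 * q := by rw [ht]; split_ifs <;> omega
    refine ⟨ζ + (2 * q) ^ d * t, ?_, ?_⟩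
    · calc ζ + (2 * q) ^ d * t < (2 * q) ^ d + (2 * q) ^ d * t := by omega
        _ = (2 * q) ^ d * (t + 1) := by ring
        _ ≤ (2 * q) ^ d * (2 * q) := Nat.mul_le_mul_left _ ht2
        _ = (2 * q) ^ (d + 1) := by ring
    · intro l hl
      rcases Nat.lt_succ_iff_lt_or_eq.mp hl with h1 | h1
      · have h2 := h l h1
        unfold kap bad at h2 ⊢
        rw [digit_low hB h1]
        exact h2
      · subst h1
        have hdig : (ζ + (2 * q) ^ l * t) / (2 * q) ^ l % (2 * q) = t := by
          rw [Nat.add_mul_div_left _ _ (pow_pos hB l), Nat.div_eq_of_lt hζ, zero_add,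
            Nat.mod_eq_of_lt ht2]
        unfold kap bad
        rw [hdig, ht]
        constructor
        · cases hb : b l
          · simp
          · simp
        · cases hb : b l
          · simp [hv]
          · simp

private theorem str_lt {q : ℕ} [NeZero q] {d : ℕ} {s : Option (ℕ × ZMod q)}
    (hs : ∀ l k, s = some (l, k) → l < d) : str q s < 1 + d * q := by
  cases s with
  | none => simp only [str]; omega
  | some lk =>
    obtain ⟨l, k⟩ := lk
    have h1 : l < d := hs l k rfl
    have h2 : k.val < q := ZMod.val_lt k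
    have h3 : (l + 1) * q ≤ d * q := Nat.mul_le_mul_right q h1
    have h4 : (l + 1) * q = l * q + q := by ring
    simp only [str]
    omega

private theorem str_inj {q : ℕ} [NeZero q] {s s' : Option (ℕ × ZMod q)}
    (h : str q s = str q s') : s = s' := by
  have hq : 0 < q := NeZero.pos q
  cases s with
  | none =>
    cases s' with
    | none => rfl
    | some lk =>
      exfalso
      simp only [str] at h
      omega
  | some lk =>
    obtain ⟨l, k⟩ := lk
    cases s' with
    | none =>
      exfalso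
      simp only [str] at h
      omega
    | some lk' =>
      obtain ⟨l', k'⟩ := lk'
      simp only [str] at h
      have h1 : k.val < q := ZMod.val_lt k
      have h2 : k'.val < q := ZMod.val_lt k'
      have h3 : k.val + q * l = k'.val + q * l' := by
        rw [mul_comm q l, mul_comm q l']
        omega
      have h4 : l = l' := by
        have h5 := congrArg (· / q) h3
        simp only [Nat.add_mul_div_left _ _ hq, Nat.div_eq_of_lt h1, Nat.div_eq_of_lt h2,
          zero_add] at h5
        exact h5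
      subst h4
      have h6 : k.val = k'.val := by omega
      rw [ZMod.val_injective q h6]

theorem idx_lt {q : ℕ} [NeZero q] (d : ℕ) (ξ a : ℕ → ZMod q) (ζ : ℕ) :
    idx q d ξ a ζ < q * (1 + d * q) := by
  have h1 : (head ξ a d).val < q := ZMod.val_lt _
  have h2 : str q (sig (head ξ a) (kap q ζ) (bad q ζ) d) < 1 + d * q :=
    str_lt fun l k h => sig_lt h
  unfold idx
  calc (head ξ a d).val * (1 + d * q) + str q (sig (head ξ a) (kap q ζ) (bad q ζ) d)
      < (head ξ a d).val * (1 + d * q) + (1 + d * q) := by omega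
    _ = ((head ξ a d).val + 1) * (1 + d * q) := by ring
    _ ≤ q * (1 + d * q) := Nat.mul_le_mul_right _ h1

theorem idx_inj {q : ℕ} [NeZero q] {d : ℕ} {ξ ξ' a : ℕ → ZMod q} {ζ ζ' : ℕ}
    (h : idx q d ξ a ζ = idx q d ξ' a ζ') : head ξ a d = head ξ' a d ∧
      sig (head ξ a) (kap q ζ) (bad q ζ) d = sig (head ξ' a) (kap q ζ') (bad q ζ') d := by
  have h1 : str q (sig (head ξ a) (kap q ζ) (bad q ζ) d) < 1 + d * q :=
    str_lt fun l k h => sig_lt h
  have h2 : str q (sig (head ξ' a) (kap q ζ') (bad q ζ') d) < 1 + d * q :=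
    str_lt fun l k h => sig_lt h
  have hM : 0 < 1 + d * q := by omega
  unfold idx at h
  have h3 : (head ξ a d).val = (head ξ' a d).val := by
    have h4 := congrArg (· / (1 + d * q)) h
    simp only [Nat.add_comm _ (str q _), Nat.add_mul_div_right _ _ hM, Nat.div_eq_of_lt h1,
      Nat.div_eq_of_lt h2, zero_add] at h4
    exact h4
  refine ⟨ZMod.val_injective q h3, str_inj ?_⟩
  rw [h3] at h
  omega

theorem dig_inj {q d i i' : ℕ} [NeZero q] (hq : 1 < q) (hi : i < q ^ (d + 1)) (hi' : i' < q ^ (d + 1))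
    (h : ∀ l ≤ d, dig q i l = dig q i' l) : i = i' := by
  have hcast : ∀ u v : ℕ, ((u % q : ℕ) : ZMod q) = ((v % q : ℕ) : ZMod q) → u % q = v % q := by
    intro u v huv
    have h1 := (ZMod.natCast_eq_natCast_iff' _ _ _).mp huv
    rwa [Nat.mod_mod, Nat.mod_mod] at h1
  have h0 : i % q = i' % q := by
    have h1 := h 0 (Nat.zero_le d)
    unfold dig at h1
    have h2 := hcast _ _ h1
    simpa using h2
  induction d generalizing i i' with
  | zero =>
    rw [zero_add, pow_one] at hi hi'
    rwa [Nat.mod_eq_of_lt hi, Nat.mod_eq_of_lt hi'] at h0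
  | succ d ih =>
    have hq0 : 0 < q := NeZero.pos q
    have hdiv : ∀ u, u < q ^ (d + 1 + 1) → u / q < q ^ (d + 1) := by
      intro u hu
      rw [Nat.div_lt_iff_lt_mul hq0, ← pow_succ]
      exact hu
    have hdig : ∀ u l, dig q (u / q) l = dig q u (l + 1) := by
      intro u l
      unfold dig
      rw [Nat.div_div_eq_div_mul, ← pow_succ']
    have h1 : i / q = i' / q := by
      refine ih (hdiv i hi) (hdiv i' hi') (fun l hl => ?_) ?_
      · rw [hdig, hdig]
        exact h (l + 1) (by omega)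
      · have h2 := h 1 (by omega)
        rw [← hdig, ← hdig] at h2
        unfold dig at h2
        have h3 := hcast _ _ h2
        simpa using h3
    rw [← Nat.div_add_mod i q, ← Nat.div_add_mod i' q, h1, h0]

theorem nod_self {q d ζ : ℕ} : nod q d ζ (ζ : ℂ) ≠ 0 := by
  unfold nod
  rw [Finset.prod_ne_zero_iff]
  intro η hη
  rw [Finset.mem_erase] at hη
  rw [sub_ne_zero]
  exact fun h => hη.1 (Nat.cast_injective h).symm

theorem nod_other {q d ζ ζ' : ℕ} (hζ' : ζ' < (2 * q) ^ d) (hne : ζ' ≠ ζ) :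
    nod q d ζ (ζ' : ℂ) = 0 := by
  unfold nod
  refine Finset.prod_eq_zero (i := ζ') ?_ (sub_self _)
  rw [Finset.mem_erase, Finset.mem_range]
  exact ⟨hne, hζ'⟩

end AOR
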