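import Pool.Agent.Helper31.AO.Defs

/-!
# AO-11: natural values of the parameter, degrees and sizes

Proofs.
* `nat_pt`: `P = aeval q f : Polynomial ℂ` (`MvPolynomial.aeval`), `P.eval z = eval (fun i => (q i).eval z) f`, `P.natDegree ≤ D K` (write `f` as a sum of monomials: `natDegree` of `∏ (q i) ^ (m i)` is `≤ ∑ m i * K ≤ D K`;
compare the private lemmas in `Pool/Agent/Helper7/PD/NatPoint.lean`, which is proved); `P ≠ 0`, so it has at most `D K` roots and one of the `D K + 1` numbers `0, …, D K` is not a root.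
* `cur_natDegree`: induction on `T` (for all `i`): `natDegree (lev D h p e v i) ≤ D * max`; with `D j ≥ 1`. `Polynomial.natDegree_pow_le`, `natDegree_add_le`. `T = 0`: `X` has degree `1`.
* `nod_natDegree`: product of `(2 q) ^ d - 1` (at most `(2q)^d`) factors of degree `≤ K`.
* `cur_le`: induction on `T`: if all `v k ≤ x` with `2 ≤ x` then `lev .. v i ≤ x ^ D + x ≤ x ^ (D + 1)` (`D ≥ 1`); and `2 ≤ B ≤ x`.
-/

namespace AOR

open MvPolynomial

theorem nat_pt {n D K : ℕ} {f : MvPolynomial (Fin n) ℂ} (hf : f.totalDegree ≤ D)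
    (q : Fin n → Polynomial ℂ) (hq : ∀ i, (q i).natDegree ≤ K)
    (hne : ∃ z : ℂ, eval (fun i => (q i).eval z) f ≠ 0) :
    ∃ u ≤ D * K, eval (fun i => (q i).eval (u : ℂ)) f ≠ 0 := by
  set g : Polynomial ℂ := aeval q f with hg
  have hev : ∀ z : ℂ, g.eval z = eval (fun i => (q i).eval z) f := by
    intro z
    have h1 : (fun i => Polynomial.aeval z (q i)) = fun i => (q i).eval z := by
      funext i
      rw [Polynomial.coe_aeval_eq_eval]
    have h2 : (Polynomial.aeval z) (aeval q f) = aeval (fun i => Polynomial.aeval z (q i)) f := by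
      rw [← AlgHom.comp_apply, comp_aeval]
    rw [h1, Polynomial.coe_aeval_eq_eval, aeval_eq_eval] at h2
    exact h2
  have hdeg : g.natDegree ≤ D * K := aeval_natDegree_le f hf q hq
  have hg0 : g ≠ 0 := by
    obtain ⟨z, hz⟩ := hne
    intro h0
    apply hz
    rw [← hev z, h0, Polynomial.eval_zero]
  by_contra hcon
  push Not at hcon
  apply hg0
  refine Polynomial.eq_zero_of_natDegree_lt_card_of_eval_eq_zero' g
    ((Finset.range (D * K + 1)).image (fun u : ℕ => (u : ℂ))) ?_ ?_
  · intro x hx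
    rw [Finset.mem_image] at hx
    obtain ⟨u, hu, rfl⟩ := hx
    rw [Finset.mem_range] at hu
    rw [hev]
    exact hcon u (by omega)
  · rw [Finset.card_image_of_injective _ Nat.cast_injective, Finset.card_range]
    omega

private theorem lev_natDegree {D h p : ℕ} (hD : 1 ≤ D) (e : ℕ → ℕ) {K : ℕ} {v : ℕ → Polynomial ℂ}
    (hv : ∀ k, (v k).natDegree ≤ K) (i : ℕ) : (lev D h p e v i).natDegree ≤ K * D := by
  have hK : K ≤ K * D := Nat.le_mul_of_pos_right _ hD
  have h1 : ∀ k, (v k ^ D).natDegree ≤ K * D := by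
    intro k
    refine Polynomial.natDegree_pow_le.trans ?_
    rw [mul_comm]
    exact Nat.mul_le_mul_right _ (hv k)
  unfold lev
  cases slot p e (i / 2) with
  | none =>
    simp only []
    split_ifs
    · exact h1 _
    · exact (Polynomial.natDegree_add_le _ _).trans (max_le (h1 _) ((hv _).trans hK))
  | some l =>
    simp only []
    split_ifs
    · exact (hv _).trans hK
    · exact (hv _).trans hK

theorem cur_natDegree {D h p : ℕ → ℕ} (hD : ∀ j, 1 ≤ D j) (c : ℕ → ℕ → ℕ) (T i : ℕ) :
    (cur D h p c T (Polynomial.X : Polynomial ℂ) i).natDegree ≤ ∏ j ∈ Finset.range T, D j := by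
  induction T generalizing i with
  | zero =>
    rw [Finset.prod_range_zero]
    exact Polynomial.natDegree_X_le
  | succ T ih =>
    rw [Finset.prod_range_succ]
    exact lev_natDegree (hD T) (c T) ih i

theorem cur_eval {D h p : ℕ → ℕ} (c : ℕ → ℕ → ℕ) (T i : ℕ) (z : ℂ) :
    (cur D h p c T (Polynomial.X : Polynomial ℂ) i).eval z = cur D h p c T z i := by
  have h1 := cur_map (Polynomial.evalRingHom z) D h p c T (Polynomial.X : Polynomial ℂ) i
  rwa [Polynomial.coe_evalRingHom, Polynomial.eval_X] at h1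

theorem nod_natDegree {q d ζ K : ℕ} {P : Polynomial ℂ} (hP : P.natDegree ≤ K) :
    (nod q d ζ P).natDegree ≤ (2 * q) ^ d * K := by
  unfold nod
  refine (Polynomial.natDegree_prod_le _ _).trans ?_
  have h1 : ∀ η ∈ (Finset.range ((2 * q) ^ d)).erase ζ, (P - (η : Polynomial ℂ)).natDegree ≤ K := by
    intro η _
    refine (Polynomial.natDegree_sub_le _ _).trans (max_le hP ?_)
    rw [Polynomial.natDegree_natCast]
    exact Nat.zero_le _
  refine (Finset.sum_le_card_nsmul _ _ K h1).trans ?_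
  rw [smul_eq_mul]
  refine Nat.mul_le_mul_right _ ?_
  refine (Finset.card_le_card (Finset.erase_subset _ _)).trans ?_
  rw [Finset.card_range]

private theorem lev_le {D h p : ℕ} (hD : 1 ≤ D) (e : ℕ → ℕ) {x : ℕ} (hx : 2 ≤ x) {v : ℕ → ℕ}
    (hv : ∀ k, v k ≤ x) (i : ℕ) : lev D h p e v i ≤ x ^ (D + 1) := by
  have h0 : x ≤ x ^ D := Nat.le_self_pow (by omega) x
  have h1 : x ^ D ≤ x ^ (D + 1) := Nat.pow_le_pow_right (by omega) (Nat.le_succ D)
  have h2 : ∀ k, v k ^ D ≤ x ^ D := fun k => Nat.pow_le_pow_left (hv k) D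
  have h3 : 2 * x ^ D ≤ x ^ (D + 1) := by
    rw [pow_succ, mul_comm]
    exact Nat.mul_le_mul_left _ hx
  unfold lev
  cases slot p e (i / 2) with
  | none =>
    simp only []
    split_ifs
    · exact (h2 _).trans h1
    · have h4 := h2 (i / 2)
      have h5 := hv (i / 2)
      omega
  | some l =>
    simp only []
    split_ifs
    · exact (hv _).trans (h0.trans h1)
    · exact (hv _).trans (h0.trans h1)

theorem cur_le {D h p : ℕ → ℕ} (hD : ∀ j, 1 ≤ D j) (c : ℕ → ℕ → ℕ) {z B : ℕ} (hB : 2 ≤ B) (hz : z ≤ B)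
    (T i : ℕ) : cur D h p c T z i ≤ B ^ ∏ j ∈ Finset.range T, (D j + 1) := by
  induction T generalizing i with
  | zero =>
    rw [Finset.prod_range_zero, pow_one]
    exact hz
  | succ T ih =>
    rw [Finset.prod_range_succ, pow_mul]
    have h1 : 2 ≤ B ^ ∏ j ∈ Finset.range T, (D j + 1) := by
      refine hB.trans (Nat.le_self_pow ?_ B)
      exact (Finset.prod_pos fun _ _ => Nat.succ_pos _).ne'
    exact lev_le (hD T) (c T) h1 ih i

end AOR
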