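import Pool.Agent.Helper31.AO.TreeStep

/-!
# AO-9: the tree

Proof. By induction on `j ≤ d`: there are `a, κ, b` with `Good f d j ξ a κ b` and `(taint b j).card ≤ j * Nat.log 2 r`.
`j = 0`: `a = 0`, `κ = 0`, `b = false`; `node d (ξ i) a 0 = fun l => ξ i l` (`head ξ a 0 = ξ 0`), `sig _ _ _ 0 = none`; let `x` be a point with `eval x f ≠ 0`
(`f ≠ 0`, `MvPolynomial.funext`); by `hξ` the map `i ↦ (node d (ξ i) a 0, none)` is injective, so there is `y` with `y (node .., none) = x i`. `taint b 0 = ∅`.
Step: `tree_step`. At `j = d`: `node d (ξ i) a d = fun l => if (l : ℕ) < d then 0 else head (ξ i) a d` depends on `c = head (ξ i) a d` only; let `ν c : Fin (d+1) → F` be this vector; put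
`κ' c = κ (ν c)`, `b' c = b (ν c)`, `y' (c, o) = y (ν c, o)`.
-/

namespace AOR

open MvPolynomial

theorem tree {F : Type} [Field F] [Fintype F] [DecidableEq F] {n r d : ℕ}
    {f : MvPolynomial (Fin n) ℂ} (hf : AO r f) (h0 : f ≠ 0)
    (hq : (d * Nat.log 2 r) ^ 2 < Fintype.card F) (ξ : Fin n → ℕ → F)
    (hξ : ∀ i i', (∀ l ≤ d, ξ i l = ξ i' l) → i = i') :
    ∃ (a : ℕ → F) (κ : F → ℕ → F) (b : F → ℕ → Bool) (y : F × Option (ℕ × F) → ℂ),
      eval (fun i => y (head (ξ i) a d,
        sig (head (ξ i) a) (κ (head (ξ i) a d)) (b (head (ξ i) a d)) d)) f ≠ 0 := by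
  classical
  have key : ∀ j ≤ d, ∃ (a : ℕ → F) (κ : (Fin (d + 1) → F) → ℕ → F)
      (b : (Fin (d + 1) → F) → ℕ → Bool),
      Good f d j ξ a κ b ∧ (taint b j).card ≤ j * Nat.log 2 r := by
    intro j
    induction j with
    | zero =>
      intro _
      refine ⟨fun _ => 0, fun _ _ => 0, fun _ _ => false, ?_, ?_⟩
      · obtain ⟨x, hx⟩ : ∃ x, eval x f ≠ 0 := by
          by_contra hcon
          push Not at hcon
          exact h0 (MvPolynomial.funext fun x => by rw [hcon x, map_zero])
        let g : Fin n → (Fin (d + 1) → F) × Option (ℕ × F) :=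
          fun i => (node d (ξ i) (fun _ => 0) 0, none)
        have hinj : Function.Injective g := by
          intro i i' h
          refine hξ i i' fun l hl => ?_
          have h1 : node d (ξ i) (fun _ => 0) 0 ⟨l, Nat.lt_succ_of_le hl⟩ =
              node d (ξ i') (fun _ => 0) 0 ⟨l, Nat.lt_succ_of_le hl⟩ :=
            congrFun (congrArg Prod.fst h) _
          have h2 : ∀ i'' : Fin n, node d (ξ i'') (fun _ => 0) 0 ⟨l, Nat.lt_succ_of_le hl⟩ =
              ξ i'' l := by
            intro i''
            unfold node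
            by_cases hl0 : l = 0
            · subst hl0
              simp [head]
            · simp [hl0]
          rw [h2, h2] at h1
          exact h1
        refine ⟨Function.extend g x 0, ?_⟩
        have h3 : (fun i => Function.extend g x 0 (node d (ξ i) (fun _ => 0) 0,
            sig (head (ξ i) (fun _ => 0)) (fun _ => 0) (fun _ => false) 0)) = x := by
          funext i
          exact hinj.extend_apply x 0 i
        rw [h3]
        exact hx
      · have h4 : taint (F := F) (d := d) (fun _ _ => false) 0 = ∅ := by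
          unfold taint
          refine Finset.filter_eq_empty_iff.2 fun ν _ h => ?_
          obtain ⟨l, hl, _⟩ := h.2
          exact absurd hl (Nat.not_lt_zero l)
        rw [h4, Finset.card_empty]
        exact Nat.zero_le _
    | succ j ih =>
      intro hj
      obtain ⟨a, κ, b, hg, ht⟩ := ih (Nat.le_of_succ_le hj)
      exact tree_step hf hj hq hg ht
  obtain ⟨a, κ, b, ⟨y, hy⟩, _⟩ := key d le_rfl
  let ν : F → Fin (d + 1) → F := fun c l => if (l : ℕ) < d then 0 else c
  have hν : ∀ i, node d (ξ i) a d = ν (head (ξ i) a d) := by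
    intro i
    funext l
    have h1 := l.2
    change (if (l : ℕ) < d then 0 else if (l : ℕ) = d then head (ξ i) a d else ξ i l) =
      if (l : ℕ) < d then 0 else head (ξ i) a d
    split_ifs with h2 h3
    · rfl
    · rfl
    · omega
  refine ⟨a, fun c => κ (ν c), fun c => b (ν c), fun t => y (ν t.1, t.2), ?_⟩
  have h5 : (fun i => y (node d (ξ i) a d,
      sig (head (ξ i) a) (κ (node d (ξ i) a d)) (b (node d (ξ i) a d)) d)) =
      fun i => y (ν (head (ξ i) a d),
        sig (head (ξ i) a) (κ (ν (head (ξ i) a d))) (b (ν (head (ξ i) a d))) d) := by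
    funext i
    rw [hν]
  rw [h5] at hy
  exact hy

end AOR
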