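import Pool.Agent.Helper31.AO.Few
import Pool.Agent.Helper31.AO.Tree
import Pool.Agent.Helper31.AO.Enc
import Pool.Agent.Helper31.AO.NatPt

/-!
# AO-12: a point of the hitting set

Proof. Write `ξ i = dig q i`, `c i = head (ξ i) a d` (the bucket), `h j = β j - p j`, `Π = ∏ j ∈ range T, D j`, `Z = range ((2 q) ^ d)`.
(1) `tree` (`F = ZMod q`, card `q`; `dig_inj`, `i < n ≤ q ^ (d + 1)`) gives `a, κ, b, y`. For every `t : ZMod q` let `ζ t ∈ Z` be the code of `κ t, b t` (`exists_code`), so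
`sig (head (ξ i) a) (kap q (ζ (c i))) (bad q (ζ (c i))) d = sig (head (ξ i) a) (κ (c i)) (b (c i)) d` (`sig_congr`).
(2) `few` with `g i = Polynomial.C (nod q d (ζ (c i)) (ζ (c i) : ℂ)) * Polynomial.X` and `ρ i = idx q d (ξ i) a (ζ (c i)) < q (1 + d q) ≤ β T`: the value is not identically zero: by `idx_inj` there is
`v : ℕ → ℂ` with `nod .. * v (ρ i) = y (c i, sig ..)` for all `i` (`nod_self`; equal `ρ` implies equal `c i` and equal strands). So there are `cc` and `z`, and by `nat_pt` with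
`q i = C (nod ..) * cur D h p cc T X (ρ i)` (degree `≤ Π`) a natural `v ≤ Dg Π` with `eval (fun i => nod q d (ζ (c i)) (ζ (c i)) * cur D h p cc T (v : ℂ) (idx q d (ξ i) a (ζ (c i)))) f ≠ 0`. (*)
(3) `few` with `g i = ∑ ζ ∈ Z, nod q d ζ (X : Polynomial ℂ) * C (cur D h p cc T (v : ℂ) (idx q d (ξ i) a ζ))`, `ρ i = (c i).val < q ≤ β T`: its value at the selectors `k ↦ (ζ (k : ZMod q) : ℂ)` is (*):
`(g i).eval (ζ (c i)) = ∑ ζ ∈ Z, nod q d ζ (ζ (c i)) * .. `, only the term `ζ = ζ (c i)` survives (`nod_other`; `nod_map` for `Polynomial.evalRingHom`; `((c i).val : ZMod q) = c i`). So there are `c'`, `z'`, and by `nat_pt` with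
`(g i).comp (cur D h p c' T X (ρ i))` (degree `≤ (2 q) ^ d * Π`: `natDegree_sum_le_of_forall_le`, `nod_natDegree` with `P = cur .. X ..` after `nod_map`) a natural `w ≤ Dg ((2 q) ^ d Π)` with nonzero value.
(4) The value is the one in the conclusion: `pt_map` with `Int.castRingHom ℂ`, `cur_map`.
-/

namespace AOR

open MvPolynomial

theorem exists_point {n r Dg q d T H : ℕ} [Fact q.Prime] {f : MvPolynomial (Fin n) ℂ} (hf : AO r f)
    (h0 : f ≠ 0) (hdeg : f.totalDegree ≤ Dg) {D p β : ℕ → ℕ} (hD : ∀ j, 2 ≤ D j)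
    (hp : ∀ j, r < (D j + 1) ^ (p j + 1)) (hβ0 : β 0 = 1) (hβ : ∀ j, β (j + 1) = 2 * (β j - p j))
    (hpβ : ∀ j, p j ≤ β j) (hH0 : 0 < H) (hH : ∀ j < T, β j ≤ H)
    (hq : (d * Nat.log 2 r) ^ 2 < q) (hn : n ≤ q ^ (d + 1)) (hT : q * (1 + d * q) ≤ β T) :
    ∃ (a : ℕ → ZMod q) (c c' : ℕ → ℕ → ℕ) (v w : ℕ), (∀ j l, c j l < H) ∧ (∀ j l, c' j l < H) ∧
      v ≤ Dg * ∏ j ∈ Finset.range T, D j ∧
      w ≤ Dg * ((2 * q) ^ d * ∏ j ∈ Finset.range T, D j) ∧
      eval (fun i : Fin n => ((pt q d a (cur D (fun j => β j - p j) p c T (v : ℤ))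
        (cur D (fun j => β j - p j) p c' T (w : ℤ)) (dig q i) : ℤ) : ℂ)) f ≠ 0 := by
  classical
  have hqp : q.Prime := Fact.out
  have : NeZero q := ⟨hqp.ne_zero⟩
  obtain ⟨a, κ, b, y, hy⟩ := tree (F := ZMod q) (d := d) hf h0 (by rw [ZMod.card]; exact hq)
    (fun i => dig q i) (fun i i' h => Fin.ext (dig_inj hqp.one_lt (i.2.trans_le hn)
      (i'.2.trans_le hn) h))
  choose ζ hζ1 hζ2 using fun t => exists_code d (κ t) (b t)
  obtain ⟨cc, hcc⟩ : ∃ cc : Fin n → ZMod q, ∀ i : Fin n, cc i = head (dig q i) a d := ⟨_, fun _ => rfl⟩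
  simp only [← hcc] at hy
  obtain ⟨h, hh⟩ : ∃ h : ℕ → ℕ, h = fun j => β j - p j := ⟨_, rfl⟩
  rw [← hh]
  have hsig : ∀ i : Fin n, sig (head (dig q i) a) (kap q (ζ (cc i))) (bad q (ζ (cc i))) d =
      sig (head (dig q i) a) (κ (cc i)) (b (cc i)) d := fun i =>
    sig_congr d (fun _ _ => rfl) (fun l hl => (hζ2 _ l hl).1) (fun l hl => (hζ2 _ l hl).2)
  have hD1 : ∀ j, 1 ≤ D j := fun j => (by norm_num : 1 ≤ 2).trans (hD j)
  -- the values of the strands
  obtain ⟨N, hN⟩ : ∃ N : Fin n → ℂ, ∀ i, N i = nod q d (ζ (cc i)) (ζ (cc i) : ℂ) :=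
    ⟨_, fun _ => rfl⟩
  have hN0 : ∀ i, N i ≠ 0 := fun i => by rw [hN]; exact nod_self
  obtain ⟨ρ, hρ⟩ : ∃ ρ : Fin n → ℕ, ∀ i, ρ i = idx q d (dig q i) a (ζ (cc i)) :=
    ⟨_, fun _ => rfl⟩
  have hρlt : ∀ i, ρ i < β T := fun i => by
    rw [hρ]
    exact (idx_lt d _ _ _).trans_le hT
  have hne1 : ∃ v : ℕ → ℂ, eval (fun i => (Polynomial.C (N i) * Polynomial.X).eval (v (ρ i))) f
      ≠ 0 := by
    obtain ⟨Y, hY⟩ : ∃ Y : Fin n → ℂ, ∀ i, Y i =
        y (cc i, sig (head (dig q i) a) (κ (cc i)) (b (cc i)) d) / N i := ⟨_, fun _ => rfl⟩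
    have hfac : Function.FactorsThrough Y ρ := by
      intro i i' hii
      rw [hρ, hρ] at hii
      obtain ⟨h1, h2⟩ := idx_inj hii
      rw [← hcc, ← hcc] at h1
      rw [hsig, hsig] at h2
      rw [hY, hY, hN, hN, h2, h1]
    refine ⟨Function.extend ρ Y 0, ?_⟩
    have h1 : (fun i => (Polynomial.C (N i) * Polynomial.X).eval (Function.extend ρ Y 0 (ρ i))) =
        fun i => y (cc i, sig (head (dig q i) a) (κ (cc i)) (b (cc i)) d) := by
      funext i
      rw [hfac.extend_apply, Polynomial.eval_mul, Polynomial.eval_C, Polynomial.eval_X, hY,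
        mul_div_cancel₀ _ (hN0 i)]
    rw [h1]
    exact hy
  obtain ⟨c, hc, z, hz⟩ := few hf hD hp hβ0 hβ hpβ hH0 T hH _ ρ hρlt hne1
  rw [← hh] at hz
  obtain ⟨v, hv, hv0⟩ := nat_pt hdeg
    (fun i => Polynomial.C (N i) * cur D h p c T (Polynomial.X : Polynomial ℂ) (ρ i))
    (K := ∏ j ∈ Finset.range T, D j)
    (fun i => (Polynomial.natDegree_C_mul_le _ _).trans (cur_natDegree hD1 c T _))
    ⟨z, by
      have h1 : (fun i => (Polynomial.C (N i) *
          cur D h p c T (Polynomial.X : Polynomial ℂ) (ρ i)).eval z) =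
          fun i => (Polynomial.C (N i) * Polynomial.X).eval (cur D h p c T z (ρ i)) := by
        funext i
        rw [Polynomial.eval_mul, Polynomial.eval_mul, Polynomial.eval_C, Polynomial.eval_C,
          Polynomial.eval_X, cur_eval]
      rw [h1]
      exact hz⟩
  have hv1 : (fun i => (Polynomial.C (N i) *
      cur D h p c T (Polynomial.X : Polynomial ℂ) (ρ i)).eval (v : ℂ)) =
      fun i => N i * cur D h p c T (v : ℂ) (ρ i) := by
    funext i
    rw [Polynomial.eval_mul, Polynomial.eval_C, cur_eval]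
  rw [hv1] at hv0
  -- the values of the selectors
  obtain ⟨g, hg⟩ : ∃ g : Fin n → Polynomial ℂ, ∀ i, g i = ∑ ζ' ∈ Finset.range ((2 * q) ^ d),
      nod q d ζ' (Polynomial.X : Polynomial ℂ) *
        Polynomial.C (cur D h p c T (v : ℂ) (idx q d (dig q i) a ζ')) := ⟨_, fun _ => rfl⟩
  have hgev : ∀ i x, (g i).eval x = ∑ ζ' ∈ Finset.range ((2 * q) ^ d),
      nod q d ζ' x * cur D h p c T (v : ℂ) (idx q d (dig q i) a ζ') := by
    intro i x
    rw [hg, Polynomial.eval_finsetSum]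
    refine Finset.sum_congr rfl fun ζ' _ => ?_
    rw [Polynomial.eval_mul, Polynomial.eval_C]
    have h1 := nod_map (Polynomial.evalRingHom x) q d ζ' (Polynomial.X : Polynomial ℂ)
    rw [Polynomial.coe_evalRingHom, Polynomial.eval_X] at h1
    rw [h1]
  have hqT : q ≤ β T := by
    refine le_trans ?_ hT
    exact Nat.le_mul_of_pos_right q (by omega)
  have hne2 : ∃ u : ℕ → ℂ, eval (fun i => (g i).eval (u ((cc i).val))) f ≠ 0 := by
    refine ⟨fun k => (ζ ((k : ℕ) : ZMod q) : ℂ), ?_⟩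
    have h1 : (fun i => (g i).eval ((ζ (((cc i).val : ℕ) : ZMod q) : ℕ) : ℂ)) =
        fun i => N i * cur D h p c T (v : ℂ) (ρ i) := by
      funext i
      rw [ZMod.natCast_zmod_val, hgev, Finset.sum_eq_single (ζ (cc i))]
      · rw [← hN, ← hρ]
      · intro ζ' _ hne
        rw [nod_other (hζ1 _) (Ne.symm hne), zero_mul]
      · intro h2
        exact absurd (Finset.mem_range.2 (hζ1 _)) h2
    rw [h1]
    exact hv0
  obtain ⟨c', hc', z', hz'⟩ := few hf hD hp hβ0 hβ hpβ hH0 T hH g (fun i => (cc i).val)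
    (fun i => (ZMod.val_lt _).trans_le hqT) hne2
  rw [← hh] at hz'
  have hgdeg : ∀ i, (g i).natDegree ≤ (2 * q) ^ d := by
    intro i
    rw [hg]
    refine Polynomial.natDegree_sum_le_of_forall_le _ _ fun ζ' _ => ?_
    refine (Polynomial.natDegree_mul_C_le _ _).trans ?_
    refine (nod_natDegree Polynomial.natDegree_X_le).trans ?_
    rw [mul_one]
  obtain ⟨w, hw, hw0⟩ := nat_pt hdeg
    (fun i => (g i).comp (cur D h p c' T (Polynomial.X : Polynomial ℂ) ((cc i).val)))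
    (K := (2 * q) ^ d * ∏ j ∈ Finset.range T, D j)
    (fun i => Polynomial.natDegree_comp_le.trans
      (Nat.mul_le_mul (hgdeg i) (cur_natDegree hD1 c' T _)))
    ⟨z', by
      have h1 : (fun i => ((g i).comp
          (cur D h p c' T (Polynomial.X : Polynomial ℂ) ((cc i).val))).eval z') =
          fun i => (g i).eval (cur D h p c' T z' ((cc i).val)) := by
        funext i
        rw [Polynomial.eval_comp, cur_eval]
      rw [h1]
      exact hz'⟩
  refine ⟨a, c, c', v, w, hc, hc', hv, hw, ?_⟩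
  have hfin : (fun i : Fin n => ((pt q d a (cur D h p c T (v : ℤ))
      (cur D h p c' T (w : ℤ)) (dig q i) : ℤ) : ℂ)) =
      fun i => ((g i).comp
        (cur D h p c' T (Polynomial.X : Polynomial ℂ) ((cc i).val))).eval (w : ℂ) := by
    funext i
    rw [Polynomial.eval_comp, cur_eval, hgev]
    have h1 := pt_map (Int.castRingHom ℂ) q d a (cur D h p c T (v : ℤ)) (cur D h p c' T (w : ℤ))
      (dig q i)
    have h2 : ∀ k, (Int.castRingHom ℂ) (cur D h p c T (v : ℤ) k) = cur D h p c T (v : ℂ) k := by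
      intro k
      rw [cur_map]
      simp
    have h3 : ∀ k, (Int.castRingHom ℂ) (cur D h p c' T (w : ℤ) k) = cur D h p c' T (w : ℂ) k := by
      intro k
      rw [cur_map]
      simp
    simp only [h2, h3] at h1
    rw [eq_intCast] at h1
    rw [h1, pt, hcc]
  rw [hfin]
  exact hw0

end AOR
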