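import Pool.Agent.Helper31.AO.Defs

/-!
# AO-19: rank by minors; limits

`Minors r f`: all `(r + 1) × (r + 1)` minors of the matrices `f (x on S, y off S)` (rows `x`, columns `y`) are zero.

Proofs.
* `AO.minors`: the matrix `(i, j) ↦ ∑ k : Fin r, A k (x i) * B k (y j)` is a product of an `(r+1) × r` and an `r × (r+1)` matrix, so its determinant is zero
(`Matrix.det_mul_of_card_lt`? otherwise: rank `≤ r < r + 1`: `Matrix.rank_mul_le`, `Matrix.rank_of_isUnit`; compare the private lemmas of `Plain.lean`, `Core.lean`).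
* `Minors.ao`: fix `S`, let `s` be the largest number `≤ r` for which there are points with nonzero `s × s` minor `N = (f (x_i | y_j))` (`s = 0` always works: empty determinant `1`). For all
`x, y` the bordered `(s+1) × (s+1)` minor (rows `x_0, …, x_(s-1), x`, columns `y_0, …, y_(s-1), y`) is zero (maximality of `s` if `s < r`, the hypothesis if `s = r`); Schur complement
(`Matrix.det_fromBlocks₁₁`): `f (x | y) = row (x) * N⁻¹ * col (y)` with `row (x)_j = f (x | y_j)`, `col (y)_i = f (x_i | y)`. So `A k (x) = f (x | y_k)`, `B k (y) = ∑ l, N⁻¹ k l * f (x_l | y)`,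
which are polynomials: `x ↦ f (S.piecewise x y_k)` is `eval` of `bind₁ (fun i => if i ∈ S then X i else C (y_k i)) f`. Pad from `s` to `r` by zeros.
* `ao_limit`: `eval z (f m) → eval z f` for every `z` (coefficientwise limit with bounded degree: `f m - f` is a combination of finitely many monomials; here: all supports in one finite set by the degree
bound, `MvPolynomial.eval_eq'` rewritten over that set), and `det` is continuous, so all minors of `f` are zero.
-/

namespace AOR

open MvPolynomial

/-- All `(r + 1) × (r + 1)` minors of the matrices `f (x on S, y off S)` are zero. -/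
def Minors {n : ℕ} (r : ℕ) (f : MvPolynomial (Fin n) ℂ) : Prop :=
  ∀ (S : Finset (Fin n)) (x y : Fin (r + 1) → Fin n → ℂ),
    (Matrix.of fun i j => eval (S.piecewise (x i) (y j)) f).det = 0

theorem AO.minors {n r : ℕ} {f : MvPolynomial (Fin n) ℂ} (h : AO r f) : Minors r f := by
  intro S x y
  obtain ⟨A, B, hAB⟩ := h S
  have h1 : (Matrix.of fun i j => eval (S.piecewise (x i) (y j)) f)
      = (Matrix.of fun (i : Fin (r + 1)) (k : Fin r) => eval (x i) (A k)) *
        (Matrix.of fun (k : Fin r) (j : Fin (r + 1)) => eval (y j) (B k)) := by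
    ext i j
    rw [Matrix.mul_apply, Matrix.of_apply, hAB]
    rfl
  by_contra hne
  have h2 : IsUnit (Matrix.of fun i j => eval (S.piecewise (x i) (y j)) f) := by
    rw [Matrix.isUnit_iff_isUnit_det]
    exact isUnit_iff_ne_zero.mpr hne
  have h3 := Matrix.rank_of_isUnit _ h2
  rw [h1] at h3
  have h4 := Matrix.rank_mul_le_left
    (Matrix.of fun (i : Fin (r + 1)) (k : Fin r) => eval (x i) (A k))
    (Matrix.of fun (k : Fin r) (j : Fin (r + 1)) => eval (y j) (B k))
  have h5 := Matrix.rank_le_card_width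
    (Matrix.of fun (i : Fin (r + 1)) (k : Fin r) => eval (x i) (A k))
  rw [h3] at h4
  have h6 := h4.trans h5
  simp only [Fintype.card_fin] at h6
  omega

private theorem exists_core {α β K : Type*} [Field K] (φ : α → β → K) (r : ℕ)
    (h : ∀ (x : Fin (r + 1) → α) (y : Fin (r + 1) → β), (Matrix.of fun i j => φ (x i) (y j)).det = 0) :
    ∃ s ≤ r, ∃ (x0 : Fin s → α) (y0 : Fin s → β) (W : Matrix (Fin s) (Fin s) K), ∀ x y,
      φ x y = ∑ k, φ x (y0 k) * ∑ l, W k l * φ (x0 l) y := by
  classical
  let P : ℕ → Prop := fun s => ∃ (x : Fin s → α) (y : Fin s → β),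
    (Matrix.of fun i j => φ (x i) (y j)).det ≠ 0
  have hP0 : P 0 := ⟨fun i => i.elim0, fun i => i.elim0, by simp⟩
  let s := Nat.findGreatest P r
  have hsr : s ≤ r := Nat.findGreatest_le r
  have hPs : P s := Nat.findGreatest_spec (Nat.zero_le r) hP0
  have hnext : ¬ P (s + 1) := by
    rcases Nat.lt_or_ge s r with hlt | hge
    · exact Nat.findGreatest_is_greatest (Nat.lt_succ_self s) hlt
    · have hs : s = r := le_antisymm hsr hge
      rw [hs]
      rintro ⟨x, y, hxy⟩
      exact hxy (h x y)
  obtain ⟨x0, y0, hdet⟩ := hPs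
  refine ⟨s, hsr, x0, y0, (Matrix.of fun i j => φ (x0 i) (y0 j))⁻¹, ?_⟩
  intro x y
  set N : Matrix (Fin s) (Fin s) K := Matrix.of fun i j => φ (x0 i) (y0 j) with hN
  have hNu : IsUnit N.det := isUnit_iff_ne_zero.mpr hdet
  have : Invertible N := Matrix.invertibleOfIsUnitDet N hNu
  let M : Matrix (Fin s ⊕ Fin 1) (Fin s ⊕ Fin 1) K :=
    Matrix.fromBlocks N (Matrix.of fun i _ => φ (x0 i) y) (Matrix.of fun _ j => φ x (y0 j))
      (Matrix.of fun _ _ => φ x y)
  have hM0 : M.det = 0 := by
    by_contra hne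
    apply hnext
    refine ⟨fun i => Sum.elim x0 (fun _ => x) (finSumFinEquiv.symm i),
      fun j => Sum.elim y0 (fun _ => y) (finSumFinEquiv.symm j), ?_⟩
    have h1 : (Matrix.of fun i j : Fin (s + 1) =>
        φ (Sum.elim x0 (fun _ => x) (finSumFinEquiv.symm i))
          (Sum.elim y0 (fun _ => y) (finSumFinEquiv.symm j)))
        = M.submatrix finSumFinEquiv.symm finSumFinEquiv.symm := by
      ext i j
      simp only [Matrix.of_apply, Matrix.submatrix_apply]
      generalize (finSumFinEquiv.symm i : Fin s ⊕ Fin 1) = a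
      generalize (finSumFinEquiv.symm j : Fin s ⊕ Fin 1) = b
      rcases a with a | a <;> rcases b with b | b <;> rfl
    rw [h1, Matrix.det_submatrix_equiv_self]
    exact hne
  have hM1 : M.det = N.det * (Matrix.of (fun _ _ => φ x y) - (Matrix.of fun _ j => φ x (y0 j)) * ⅟N *
      (Matrix.of fun i _ => φ (x0 i) y) : Matrix (Fin 1) (Fin 1) K).det :=
    Matrix.det_fromBlocks₁₁ _ _ _ _
  rw [hM0] at hM1
  have h2 : (Matrix.of (fun _ _ => φ x y) - (Matrix.of fun _ j => φ x (y0 j)) * ⅟N *
      (Matrix.of fun i _ => φ (x0 i) y) : Matrix (Fin 1) (Fin 1) K).det = 0 := by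
    rcases mul_eq_zero.mp hM1.symm with h3 | h3
    · exact absurd h3 hdet
    · exact h3
  rw [Matrix.det_unique, Matrix.sub_apply, sub_eq_zero, Matrix.of_apply, Matrix.mul_assoc,
    Matrix.mul_apply] at h2
  rw [h2]
  refine Finset.sum_congr rfl fun k _ => ?_
  rw [Matrix.of_apply, Matrix.mul_apply, Matrix.invOf_eq_nonsing_inv]
  rfl

theorem Minors.ao {n r : ℕ} {f : MvPolynomial (Fin n) ℂ} (h : Minors r f) : AO r f := by
  classical
  intro S
  obtain ⟨s, hs, x0, y0, W, hW⟩ := exists_core
    (fun x y : Fin n → ℂ => eval (S.piecewise x y) f) r (h S)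
  obtain ⟨t, rfl⟩ := Nat.exists_eq_add_of_le hs
  let A : Fin s → MvPolynomial (Fin n) ℂ := fun k =>
    bind₁ (fun i => if i ∈ S then X i else C (y0 k i)) f
  let B : Fin s → MvPolynomial (Fin n) ℂ := fun k =>
    ∑ l, C (W k l) * bind₁ (fun i => if i ∈ S then C (x0 l i) else X i) f
  have hA : ∀ k x, eval x (A k) = eval (S.piecewise x (y0 k)) f := by
    intro k x
    have h1 : (fun i => eval x (if i ∈ S then X i else C (y0 k i) : MvPolynomial (Fin n) ℂ))
        = S.piecewise x (y0 k) := by
      funext i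
      by_cases hi : i ∈ S
      · simp [hi]
      · simp [hi]
    rw [← h1]
    change eval₂Hom (RingHom.id ℂ) x (bind₁ _ f) = _
    rw [eval₂Hom_bind₁]
    rfl
  have hB : ∀ k y, eval y (B k) = ∑ l, W k l * eval (S.piecewise (x0 l) y) f := by
    intro k y
    simp only [B, map_sum, map_mul, eval_C]
    refine Finset.sum_congr rfl fun l _ => ?_
    congr 1
    have h1 : (fun i => eval y (if i ∈ S then C (x0 l i) else X i : MvPolynomial (Fin n) ℂ))
        = S.piecewise (x0 l) y := by
      funext i
      by_cases hi : i ∈ S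
      · simp [hi]
      · simp [hi]
    rw [← h1]
    change eval₂Hom (RingHom.id ℂ) y (bind₁ _ f) = _
    rw [eval₂Hom_bind₁]
    rfl
  refine ⟨Fin.append A (fun _ => 0), Fin.append B (fun _ => 0), fun x y => ?_⟩
  rw [Fin.sum_univ_add]
  simp only [Fin.append_left, Fin.append_right, map_zero, mul_zero, Finset.sum_const_zero,
    add_zero]
  rw [hW x y]
  refine Finset.sum_congr rfl fun k _ => ?_
  rw [hA, hB]

private theorem eval_eq_sum {n D : ℕ} {p : MvPolynomial (Fin n) ℂ} (hp : p.totalDegree ≤ D)
    (z : Fin n → ℂ) :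
    eval z p = ∑ d ∈ (Finsupp.finite_of_degree_le (σ := Fin n) D).toFinset,
      coeff d p * ∏ i, z i ^ d i := by
  classical
  rw [eval_eq']
  refine Finset.sum_subset ?_ ?_
  · intro d hd
    rw [Set.Finite.mem_toFinset, Set.mem_ofPred_eq]
    have h1 := (le_totalDegree hd).trans hp
    exact h1
  · intro d _ hd
    rw [notMem_support_iff.mp hd, zero_mul]

/-- A coefficientwise limit of polynomials of bounded degree in `AO r` is in `AO r`. -/
theorem ao_limit {n r D : ℕ} {f : MvPolynomial (Fin n) ℂ} {F : ℕ → MvPolynomial (Fin n) ℂ}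
    (hF : ∀ m, AO r (F m)) (hD : ∀ m, (F m).totalDegree ≤ D) (hfD : f.totalDegree ≤ D)
    (hlim : ∀ s, Filter.Tendsto (fun m => coeff s (F m)) Filter.atTop (nhds (coeff s f))) :
    AO r f := by
  classical
  refine Minors.ao ?_
  intro S x y
  have h1 : ∀ z : Fin n → ℂ, Filter.Tendsto (fun m => eval z (F m)) Filter.atTop
      (nhds (eval z f)) := by
    intro z
    rw [eval_eq_sum hfD z]
    have h2 : (fun m => eval z (F m)) = fun m =>
        ∑ d ∈ (Finsupp.finite_of_degree_le (σ := Fin n) D).toFinset,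
          coeff d (F m) * ∏ i, z i ^ d i := by
      funext m
      exact eval_eq_sum (hD m) z
    rw [h2]
    exact tendsto_finsetSum _ fun d _ => (hlim d).mul_const _
  have h3 : Filter.Tendsto (fun m => (Matrix.of fun i j : Fin (r + 1) =>
      eval (S.piecewise (x i) (y j)) (F m))) Filter.atTop
      (nhds (Matrix.of fun i j : Fin (r + 1) => eval (S.piecewise (x i) (y j)) f)) := by
    exact tendsto_pi_nhds.mpr fun i => tendsto_pi_nhds.mpr fun j => h1 _
  have h4 : Continuous fun M : Matrix (Fin (r + 1)) (Fin (r + 1)) ℂ => M.det :=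
    Continuous.matrix_det continuous_id
  have h5 := (h4.tendsto _).comp h3
  have h6 : (fun m => (Matrix.of fun i j : Fin (r + 1) =>
      eval (S.piecewise (x i) (y j)) (F m)).det) = fun _ => (0 : ℂ) := by
    funext m
    exact (hF m).minors S x y
  have h7 : Filter.Tendsto (fun m => (Matrix.of fun i j : Fin (r + 1) =>
      eval (S.piecewise (x i) (y j)) (F m)).det) Filter.atTop
      (nhds (Matrix.of fun i j : Fin (r + 1) => eval (S.piecewise (x i) (y j)) f).det) := h5
  rw [h6] at h7
  exact (tendsto_nhds_unique h7 tendsto_const_nhds)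

end AOR
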