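import Pool.Agent.Helper31.AO.Defs
import Pool.Agent.Helper31.AO.Core

/-!
# AO-3: the rank lemma for curves

The variable `i` of `f` is put equal to `(g i).eval (v (ρ i))`; `a l`, `a' l` (`l < p`) are `2 p` different indices of variables `v`. If the
result is not identically zero, but vanishes whenever `(v (a l), v (a' l)) = (w ^ D, w ^ D + w)` for one `l`, then `(D + 1) ^ p ≤ r`.

Proof. Let `v₀` be a point where the result is not zero. For `s, t : Fin p → ℂ` let `V s t : ℕ → ℂ` be the function with value `s l` at `a l`,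
`t l` at `a' l`, and `v₀ m` at all other `m` (classical; well defined by `hinj`). `S = {i | ∃ l, ρ i = a l}`, `A, B` from `hf S`.
`x s i = (g i).eval (if ρ i = a l for some l then s l else v₀ (ρ i))`, `y t i = (g i).eval (if ρ i = a' l for some l then t l else v₀ (ρ i))`. Then
`fun i => (g i).eval (V s t (ρ i)) = S.piecewise (x s) (y t)`, so the value of `f` there is `∑ k, eval (x s) (A k) * eval (y t) (B k)`
`= ∑ k, eval s (a₁ k) * eval t (b₁ k)` with `a₁ k = aeval (fun i => if ρ i = a l then Polynomial.aeval (X l) (g i) else C ((g i).eval (v₀ (ρ i)))) (A k)`,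
`b₁ k` in the same way with `a'` and `B k` (compare `Pool/Agent/Helper7/PD/RankTie.lean`: private lemmas `aeval_eval`, `eval_ai`, `eval_comp` can be copied).
Apply `rank_core`: `h0` at `s l = v₀ (a l)`, `t l = v₀ (a' l)` (`V s t = v₀`), `h1` from `hkill` at `V s t`.
-/

namespace AOR

open MvPolynomial

private theorem cv_aeval_eval {p : ℕ} (s : Fin p → ℂ) (q : MvPolynomial (Fin p) ℂ) :
    (MvPolynomial.aeval s : MvPolynomial (Fin p) ℂ →ₐ[ℂ] ℂ) q = eval s q := by
  rw [← MvPolynomial.coe_aeval_eq_eval]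
  rfl

private theorem cv_eval_ai {p : ℕ} (q : Polynomial ℂ) (m : MvPolynomial (Fin p) ℂ) (s : Fin p → ℂ) :
    eval s (Polynomial.aeval m q) = q.eval (eval s m) := by
  have h := Polynomial.aeval_algHom_apply (MvPolynomial.aeval s : MvPolynomial (Fin p) ℂ →ₐ[ℂ] ℂ)
    m q
  rw [cv_aeval_eval, cv_aeval_eval, Polynomial.coe_aeval_eq_eval] at h
  exact h.symm

private theorem cv_eval_comp {n p : ℕ} (g : Fin n → MvPolynomial (Fin p) ℂ)
    (q : MvPolynomial (Fin n) ℂ) (s : Fin p → ℂ) :
    eval s (aeval g q) = eval (fun i => eval s (g i)) q := by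
  have h := DFunLike.congr_fun
    (comp_aeval g (MvPolynomial.aeval s : MvPolynomial (Fin p) ℂ →ₐ[ℂ] ℂ)) q
  rw [AlgHom.comp_apply, cv_aeval_eval] at h
  rw [h]
  simp only [cv_aeval_eval]

private theorem cv_extend {p : ℕ} (a : Fin p → ℕ) (ha : Function.Injective a) (v : ℕ → ℂ)
    (s : Fin p → ℂ) (m : ℕ) :
    eval s (Function.extend a (fun l => (X l : MvPolynomial (Fin p) ℂ)) (fun m => C (v m)) m) =
      Function.extend a s v m := by
  by_cases h : ∃ l, a l = m
  · obtain ⟨l, rfl⟩ := h
    rw [ha.extend_apply, ha.extend_apply, eval_X]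
  · rw [Function.extend_apply' _ _ _ h, Function.extend_apply' _ _ _ h, eval_C]

theorem rank_curve {n r p D : ℕ} {f : MvPolynomial (Fin n) ℂ} (hf : AO r f) (hD : 2 ≤ D)
    (g : Fin n → Polynomial ℂ) (ρ : Fin n → ℕ) (a a' : Fin p → ℕ)
    (hinj : Function.Injective (Sum.elim a a'))
    (hne : ∃ v : ℕ → ℂ, eval (fun i => (g i).eval (v (ρ i))) f ≠ 0)
    (hkill : ∀ (l : Fin p) (v : ℕ → ℂ) (w : ℂ), v (a l) = w ^ D → v (a' l) = w ^ D + w →
      eval (fun i => (g i).eval (v (ρ i))) f = 0) :
    (D + 1) ^ p ≤ r := by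
  classical
  obtain ⟨v₀, hv₀⟩ := hne
  have ha : Function.Injective a := fun l m h =>
    Sum.inl_injective (hinj (show Sum.elim a a' (Sum.inl l) = Sum.elim a a' (Sum.inl m) from h))
  have ha' : Function.Injective a' := fun l m h =>
    Sum.inr_injective (hinj (show Sum.elim a a' (Sum.inr l) = Sum.elim a a' (Sum.inr m) from h))
  have haa : ∀ l m, a l ≠ a' m := fun l m h =>
    Sum.inl_ne_inr (hinj (show Sum.elim a a' (Sum.inl l) = Sum.elim a a' (Sum.inr m) from h))
  obtain ⟨S, hS⟩ : ∃ S : Finset (Fin n), S = Finset.univ.filter (fun i => ∃ l, a l = ρ i) :=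
    ⟨_, rfl⟩
  obtain ⟨A, B, hAB⟩ := hf S
  have hV : ∀ s t : Fin p → ℂ,
      (fun i => (g i).eval (Function.extend a s (Function.extend a' t v₀) (ρ i))) =
      S.piecewise (fun i => (g i).eval (Function.extend a s v₀ (ρ i)))
        (fun i => (g i).eval (Function.extend a' t v₀ (ρ i))) := by
    intro s t
    funext i
    by_cases hi : ∃ l, a l = ρ i
    · have hiS : i ∈ S := by
        rw [hS, Finset.mem_filter]
        exact ⟨Finset.mem_univ i, hi⟩
      rw [Finset.piecewise_eq_of_mem _ _ _ hiS]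
      obtain ⟨l, hl⟩ := hi
      rw [← hl, ha.extend_apply, ha.extend_apply]
    · have hiS : i ∉ S := by
        rw [hS, Finset.mem_filter]
        exact fun h => hi h.2
      rw [Finset.piecewise_eq_of_notMem _ _ _ hiS, Function.extend_apply' _ _ _ hi]
  obtain ⟨ai, hai⟩ : ∃ ai : Fin n → MvPolynomial (Fin p) ℂ, ∀ s i, eval s (ai i) =
      (g i).eval (Function.extend a s v₀ (ρ i)) := by
    refine ⟨fun i => Polynomial.aeval (Function.extend a
      (fun l => (X l : MvPolynomial (Fin p) ℂ)) (fun m => C (v₀ m)) (ρ i)) (g i), ?_⟩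
    intro s i
    rw [cv_eval_ai, cv_extend a ha]
  obtain ⟨bi, hbi⟩ : ∃ bi : Fin n → MvPolynomial (Fin p) ℂ, ∀ t i, eval t (bi i) =
      (g i).eval (Function.extend a' t v₀ (ρ i)) := by
    refine ⟨fun i => Polynomial.aeval (Function.extend a'
      (fun l => (X l : MvPolynomial (Fin p) ℂ)) (fun m => C (v₀ m)) (ρ i)) (g i), ?_⟩
    intro s i
    rw [cv_eval_ai, cv_extend a' ha']
  have hval : ∀ s t : Fin p → ℂ,
      eval (fun i => (g i).eval (Function.extend a s (Function.extend a' t v₀) (ρ i))) f =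
      ∑ k, eval s (aeval ai (A k)) * eval t (aeval bi (B k)) := by
    intro s t
    rw [hV, hAB]
    refine Finset.sum_congr rfl fun k _ => ?_
    rw [cv_eval_comp, cv_eval_comp]
    simp only [hai, hbi]
  refine rank_core hD (fun k => aeval ai (A k)) (fun k => aeval bi (B k)) ?_ ?_
  · refine ⟨fun l => v₀ (a l), fun l => v₀ (a' l), ?_⟩
    rw [← hval]
    have h1 : Function.extend a (fun l => v₀ (a l))
        (Function.extend a' (fun l => v₀ (a' l)) v₀) = v₀ := by
      funext m
      by_cases h : ∃ l, a l = m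
      · obtain ⟨l, rfl⟩ := h
        rw [ha.extend_apply]
      · rw [Function.extend_apply' _ _ _ h]
        by_cases h' : ∃ l, a' l = m
        · obtain ⟨l, rfl⟩ := h'
          rw [ha'.extend_apply]
        · rw [Function.extend_apply' _ _ _ h']
    rw [h1]
    exact hv₀
  · intro l s t v hs ht
    rw [← hval]
    refine hkill l _ v ?_ ?_
    · rw [ha.extend_apply, hs]
    · rw [Function.extend_apply' _ _ _ (fun h => by
        obtain ⟨m, hm⟩ := h
        exact haa m l hm), ha'.extend_apply, ht]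

end AOR
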