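import Mathlib

/-!
# AO: hitting sets for polynomials with small rank across all partitions of the variables: definitions

`AO r f`: for EVERY set `S` of variables, `f` is a sum of `r` products of a polynomial in the variables in
`S` and a polynomial in the other variables (any-order read-once oblivious branching programs of width `r`).
-/

namespace AOR

open MvPolynomial

/-- For every set `S` of variables: `f (x on S, y off S) = ∑ k < r, A k (x) * B k (y)`. -/
def AO {n : ℕ} (r : ℕ) (f : MvPolynomial (Fin n) ℂ) : Prop :=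
  ∀ S : Finset (Fin n), ∃ A B : Fin r → MvPolynomial (Fin n) ℂ, ∀ x y : Fin n → ℂ,
    eval (S.piecewise x y) f = ∑ k, eval x (A k) * eval y (B k)

/-! ### Curves in few variables -/

/-- The smallest `l < p` with `e l = k`, if there is one. -/
def slot (p : ℕ) (e : ℕ → ℕ) (k : ℕ) : Option ℕ := (List.range p).find? fun l => e l == k

/-- One level: the pair of variables number `k` (the variables `2 k`, `2 k + 1`) is put equal to
`(v k ^ D, v k ^ D + v k)`, except for the pairs `k = e l`, `l < p`, which are put equal to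
`(v k, v (h + l))`. -/
def lev {R : Type*} [CommSemiring R] (D h p : ℕ) (e : ℕ → ℕ) (v : ℕ → R) (i : ℕ) : R :=
  match slot p e (i / 2) with
  | none => if i % 2 = 0 then v (i / 2) ^ D else v (i / 2) ^ D + v (i / 2)
  | some l => if i % 2 = 0 then v (i / 2) else v (h + l)

/-- The curve with parameter `z` obtained from `j` levels; `c i l`, `l < p i`, are the exceptional pairs of
the level with number `i < j` (level `0` is the last one). -/
def cur {R : Type*} [CommSemiring R] (D h p : ℕ → ℕ) (c : ℕ → ℕ → ℕ) : ℕ → R → ℕ → R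
  | 0, z => fun _ => z
  | j + 1, z => lev (D j) (h j) (p j) (c j) (cur D h p c j z)

/-! ### The tree -/

/-- The first coordinate of the node of level `j` above the point with coordinates `ξ`. -/
def head {F : Type*} [Ring F] (ξ a : ℕ → F) : ℕ → F
  | 0 => ξ 0
  | j + 1 => ξ (j + 1) - a j * head ξ a j

/-- The strand of the point with address `c` below level `d`, for the path `κ` and the set `b` of bad
levels: `some (l, c l)` if `l < d` is the largest level where `c` leaves `κ` and `l` is bad, otherwise the main
strand `none`. -/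
def sig {F : Type*} [DecidableEq F] (c κ : ℕ → F) (b : ℕ → Bool) : ℕ → Option (ℕ × F)
  | 0 => none
  | d + 1 => if c d = κ d then sig c κ b d else if b d then some (d, c d) else none

/-- The path encoded by the number `ζ`: digits to the base `2 q`, modulo `q`. -/
def kap (q ζ l : ℕ) : ZMod q := ((ζ / (2 * q) ^ l % (2 * q) : ℕ) : ZMod q)

/-- The bad levels encoded by the number `ζ`: those where the digit to the base `2 q` is at least `q`. -/
def bad (q ζ l : ℕ) : Bool := decide (q ≤ ζ / (2 * q) ^ l % (2 * q))

/-- The number of a strand in its bucket. -/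
def str (q : ℕ) : Option (ℕ × ZMod q) → ℕ
  | none => 0
  | some (l, k) => 1 + l * q + k.val

/-- The number of the strand, for the code `ζ`, of the point with coordinates `ξ`. -/
def idx (q d : ℕ) (ξ a : ℕ → ZMod q) (ζ : ℕ) : ℕ :=
  (head ξ a d).val * (1 + d * q) + str q (sig (head ξ a) (kap q ζ) (bad q ζ) d)

/-- The interpolation factor: nonzero at `ζ`, zero at all other codes. -/
def nod {R : Type*} [CommRing R] (q d ζ : ℕ) (z : R) : R :=
  ∏ η ∈ (Finset.range ((2 * q) ^ d)).erase ζ, (z - (η : R))

/-- A coordinate of a point of the hitting set: `γ` are the values of the strands, `γ'` the values of the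
selectors of the buckets. -/
def pt {R : Type*} [CommRing R] (q d : ℕ) (a : ℕ → ZMod q) (γ γ' : ℕ → R) (ξ : ℕ → ZMod q) : R :=
  ∑ ζ ∈ Finset.range ((2 * q) ^ d), nod q d ζ (γ' (head ξ a d).val) * γ (idx q d ξ a ζ)

/-- The coordinates of the variable number `i`: its digits to the base `q`. -/
def dig (q i l : ℕ) : ZMod q := ((i / q ^ l % q : ℕ) : ZMod q)

/-! ### Naturality -/

section

variable {R S : Type*}

theorem lev_map [CommSemiring R] [CommSemiring S] (φ : R →+* S) (D h p : ℕ) (e : ℕ → ℕ) (v : ℕ → R)
    (i : ℕ) : φ (lev D h p e v i) = lev D h p e (fun k => φ (v k)) i := by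
  unfold lev
  cases slot p e (i / 2) with
  | none =>
    simp only []
    split_ifs
    · rw [map_pow]
    · rw [map_add, map_pow]
  | some l =>
    simp only []
    split_ifs <;> rfl

theorem cur_map [CommSemiring R] [CommSemiring S] (φ : R →+* S) (D h p : ℕ → ℕ) (c : ℕ → ℕ → ℕ)
    (j : ℕ) : ∀ (z : R) (i : ℕ), φ (cur D h p c j z i) = cur D h p c j (φ z) i := by
  induction j with
  | zero => intro z i; rfl
  | succ j ih =>
    intro z i
    change φ (lev _ _ _ _ _ i) = lev _ _ _ _ _ i
    rw [lev_map]
    congr 1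
    funext k
    exact ih z k

theorem nod_map [CommRing R] [CommRing S] (φ : R →+* S) (q d ζ : ℕ) (z : R) :
    φ (nod q d ζ z) = nod q d ζ (φ z) := by
  rw [nod, nod, map_prod]
  refine Finset.prod_congr rfl fun η _ => ?_
  rw [map_sub, map_natCast]

theorem pt_map [CommRing R] [CommRing S] (φ : R →+* S) (q d : ℕ) (a : ℕ → ZMod q) (γ γ' : ℕ → R)
    (ξ : ℕ → ZMod q) :
    φ (pt q d a γ γ' ξ) = pt q d a (fun k => φ (γ k)) (fun k => φ (γ' k)) ξ := by
  rw [pt, pt, map_sum]
  refine Finset.sum_congr rfl fun ζ _ => ?_
  rw [map_mul, nod_map]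

end

theorem sig_congr {F : Type*} [DecidableEq F] {c c' κ κ' : ℕ → F} {b b' : ℕ → Bool} (d : ℕ)
    (hc : ∀ l < d, c l = c' l) (hκ : ∀ l < d, κ l = κ' l) (hb : ∀ l < d, b l = b' l) :
    sig c κ b d = sig c' κ' b' d := by
  induction d with
  | zero => rfl
  | succ d ih =>
    rw [sig, sig, hc d (Nat.lt_succ_self d), hκ d (Nat.lt_succ_self d), hb d (Nat.lt_succ_self d),
      ih (fun l hl => hc l (Nat.lt_succ_of_lt hl)) (fun l hl => hκ l (Nat.lt_succ_of_lt hl))
        (fun l hl => hb l (Nat.lt_succ_of_lt hl))]

theorem sig_lt {F : Type*} [DecidableEq F] {c κ : ℕ → F} {b : ℕ → Bool} {d l : ℕ} {k : F}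
    (h : sig c κ b d = some (l, k)) : l < d := by
  induction d with
  | zero => simp [sig] at h
  | succ d ih =>
    rw [sig] at h
    split_ifs at h with h1 h2
    · exact (ih h).trans (Nat.lt_succ_self d)
    · simp only [Option.some.injEq, Prod.mk.injEq] at h
      rw [← h.1]
      exact Nat.lt_succ_self d

theorem head_congr {F : Type*} [Ring F] {ξ ξ' a a' : ℕ → F} (j : ℕ) (hξ : ∀ l ≤ j, ξ l = ξ' l)
    (ha : ∀ l < j, a l = a' l) : head ξ a j = head ξ' a' j := by
  induction j with
  | zero => exact hξ 0 le_rfl
  | succ j ih =>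
    rw [head, head, hξ (j + 1) le_rfl, ha j (Nat.lt_succ_self j),
      ih (fun l hl => hξ l (Nat.le_succ_of_le hl)) (fun l hl => ha l (Nat.lt_succ_of_lt hl))]

end AOR
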