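import Pool.Agent.Helper31.AO.Param

/-!
# AO-21: the factor `2 ^ (6 T ^ 3)` is smaller than every power

Proof. Let `N = n + r + 2`, `m = Nat.log 2 N ≥ 1`, `k = Nat.log 2 m`; `2 ^ m ≤ N`, `2 ^ k ≤ m`, `TT n r ≤ 15 (k + 1)` (`TT_le`), so `6 T ^ 3 ≤ 20250 (k + 1) ^ 3`.
`20250 (k + 1) ^ 3 / 2 ^ k → 0` (`tendsto_pow_const_div_const_pow_of_one_lt 3` for the sequence shifted by one), so there is `k₀` with `20250 (k + 1) ^ 3 ≤ ε * 2 ^ k` for `k ≥ k₀`; let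
`E = 20250 (k₀ + 1) ^ 3`, then `6 T ^ 3 ≤ E + ε * m` in all cases, and `2 ^ (6 T ^ 3) ≤ 2 ^ E * (2 ^ m) ^ ε ≤ 2 ^ E * N ^ ε` (`Real.rpow_natCast`, `Real.rpow_le_rpow_of_exponent_le`, `Real.rpow_add`,
`Real.rpow_mul`, `Real.rpow_le_rpow`).
-/

namespace AOR

private theorem exists_k0 {ε : ℝ} (hε : 0 < ε) :
    ∃ k₀ : ℕ, ∀ k : ℕ, k₀ ≤ k → 20250 * ((k : ℝ) + 1) ^ 3 ≤ ε * 2 ^ k := by
  have h1 : Filter.Tendsto (fun n : ℕ => (n : ℝ) ^ 3 / 2 ^ n) Filter.atTop (nhds 0) :=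
    tendsto_pow_const_div_const_pow_of_one_lt 3 (by norm_num)
  have h2 := (Filter.tendsto_add_atTop_iff_nat 1).2 h1
  have h3 : ∀ᶠ n : ℕ in Filter.atTop, ((n + 1 : ℕ) : ℝ) ^ 3 / 2 ^ (n + 1) < ε / 40500 :=
    h2.eventually_lt_const (by positivity)
  obtain ⟨k₀, hk⟩ := Filter.eventually_atTop.1 h3
  refine ⟨k₀, fun k hkk => ?_⟩
  have h4 := hk k hkk
  rw [div_lt_iff₀ (by positivity), pow_succ (2 : ℝ) k] at h4
  push_cast at h4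
  linarith

theorem two_pow_cube_eps {ε : ℝ} (hε : 0 < ε) :
    ∃ C : ℝ, ∀ n r : ℕ, (2 : ℝ) ^ (6 * TT n r ^ 3) ≤ C * ((n + r + 2 : ℕ) : ℝ) ^ ε := by
  obtain ⟨k₀, hk₀⟩ := exists_k0 hε
  refine ⟨(2 : ℝ) ^ (((20250 * (k₀ + 1) ^ 3 : ℕ) : ℝ)), fun n r => ?_⟩
  have hT := TT_le n r
  have hN : 2 ^ Nat.log 2 (n + r + 2) ≤ n + r + 2 := Nat.pow_log_le_self 2 (by omega)
  have hm1 : 1 ≤ Nat.log 2 (n + r + 2) := Nat.log_pos (by norm_num) (by omega)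
  have hm : 2 ^ Nat.log 2 (Nat.log 2 (n + r + 2)) ≤ Nat.log 2 (n + r + 2) :=
    Nat.pow_log_le_self 2 (by omega)
  generalize n + r + 2 = N at hT hN hm1 hm ⊢
  generalize Nat.log 2 N = m at hT hN hm1 hm ⊢
  generalize Nat.log 2 m = k at hT hm
  have h5 : TT n r ^ 3 ≤ (15 * (k + 1)) ^ 3 := Nat.pow_le_pow_left hT 3
  have h6 : 6 * TT n r ^ 3 ≤ 20250 * (k + 1) ^ 3 := by
    have h7 : (15 * (k + 1)) ^ 3 = 3375 * (k + 1) ^ 3 := by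
      rw [mul_pow]
      norm_num
    omega
  have h8 : ((6 * TT n r ^ 3 : ℕ) : ℝ) ≤ ((20250 * (k₀ + 1) ^ 3 : ℕ) : ℝ) + ε * m := by
    rcases le_total k₀ k with hk | hk
    · have h9 := hk₀ k hk
      have h10 : ((6 * TT n r ^ 3 : ℕ) : ℝ) ≤ ((20250 * (k + 1) ^ 3 : ℕ) : ℝ) :=
        Nat.cast_le.2 h6
      have h11 : (2 : ℝ) ^ k ≤ (m : ℝ) := by exact_mod_cast hm
      have h12 : ε * 2 ^ k ≤ ε * m := mul_le_mul_of_nonneg_left h11 hε.le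
      have h13 : ((20250 * (k + 1) ^ 3 : ℕ) : ℝ) = 20250 * ((k : ℝ) + 1) ^ 3 := by push_cast; ring
      rw [h13] at h10
      have h14 : (0 : ℝ) ≤ ((20250 * (k₀ + 1) ^ 3 : ℕ) : ℝ) := Nat.cast_nonneg _
      linarith
    · have h9 : (k + 1) ^ 3 ≤ (k₀ + 1) ^ 3 := Nat.pow_le_pow_left (by omega) 3
      have h10 : ((6 * TT n r ^ 3 : ℕ) : ℝ) ≤ ((20250 * (k₀ + 1) ^ 3 : ℕ) : ℝ) :=
        Nat.cast_le.2 (by omega)
      have h11 : 0 ≤ ε * (m : ℝ) := by positivity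
      linarith
  have h15 : ((2 : ℝ) ^ m) ^ ε ≤ (N : ℝ) ^ ε := by
    refine Real.rpow_le_rpow (by positivity) ?_ hε.le
    exact_mod_cast hN
  calc (2 : ℝ) ^ (6 * TT n r ^ 3) = (2 : ℝ) ^ ((6 * TT n r ^ 3 : ℕ) : ℝ) :=
        (Real.rpow_natCast _ _).symm
    _ ≤ (2 : ℝ) ^ (((20250 * (k₀ + 1) ^ 3 : ℕ) : ℝ) + ε * m) :=
        Real.rpow_le_rpow_of_exponent_le (by norm_num) h8
    _ = (2 : ℝ) ^ (((20250 * (k₀ + 1) ^ 3 : ℕ) : ℝ)) * ((2 : ℝ) ^ m) ^ ε := by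
        rw [Real.rpow_add (by norm_num), mul_comm ε (m : ℝ), Real.rpow_mul (by norm_num),
          Real.rpow_natCast _ m]
    _ ≤ _ := mul_le_mul_of_nonneg_left h15 (by positivity)

end AOR
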