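import Pool.Agent.Helper31.AO.StageC

/-!
# AO-6: curves for few variables

Proof. Induction on `T`, for all `g`, `ρ`. `T = 0`: all `ρ i < β 0 = 1`, so `ρ i = 0`; `cur _ _ _ _ 0 z k = z`, take `z = v 0`.
`T + 1`: `β (T + 1) = 2 * (β T - p T)`, `stage_curve` with `h = β T - p T` gives `e` (this will be `c T`) and `v` with a nonzero value. For this
`e` write `(g i).eval (lev D h p e v (ρ i)) = (g' i).eval (v (ρ' i))`: `ρ' i = ρ i / 2` if `slot p e (ρ i / 2) = none`, with `g' i = (g i).comp (X ^ D)` or
`(g i).comp (X ^ D + X)` according to the parity of `ρ i`; if the slot is `some l`: `ρ' i = ρ i / 2` or `h + l`, `g' i = g i`. `ρ' i < h + p = β T` (`hpβ`).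
Induction gives `c'` and `z`; put `c = Function.update c' T e`; `cur` at level `T + 1` is `lev (D T) (h T) (p T) (c T) (cur D h p c T z)` and
`cur D h p c T = cur D h p c' T` (`cur_congr`: the curve depends on `c j`, `j < T`, only).
-/

namespace AOR

open MvPolynomial

theorem slot_congr {p : ℕ} {e e' : ℕ → ℕ} (he : ∀ l < p, e l = e' l) (k : ℕ) :
    slot p e k = slot p e' k := by
  unfold slot
  have h : ∀ L : List ℕ, (∀ l ∈ L, l < p) →
      (L.find? fun l => e l == k) = (L.find? fun l => e' l == k) := by
    intro L
    induction L with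
    | nil => intro _; rfl
    | cons a L ih =>
      intro hL
      have ha : e a = e' a := he a (hL a (by simp))
      have hL' : ∀ l ∈ L, l < p := fun l hl => hL l (by simp [hl])
      rw [List.find?_cons, List.find?_cons, ha, ih hL']
  exact h _ (fun l hl => List.mem_range.mp hl)

theorem lev_congr {R : Type*} [CommSemiring R] {D h p : ℕ} {e e' : ℕ → ℕ} (he : ∀ l < p, e l = e' l)
    (v : ℕ → R) (i : ℕ) : lev D h p e v i = lev D h p e' v i := by
  unfold lev
  rw [slot_congr he]

theorem cur_congr {R : Type*} [CommSemiring R] {D h p : ℕ → ℕ} {c c' : ℕ → ℕ → ℕ} (T : ℕ)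
    (hc : ∀ j < T, ∀ l < p j, c j l = c' j l) (z : R) (i : ℕ) :
    cur D h p c T z i = cur D h p c' T z i := by
  induction T generalizing i with
  | zero => rfl
  | succ T ih =>
    have h1 : (cur D h p c T z) = (cur D h p c' T z) := by
      funext k
      exact ih (fun j hj => hc j (Nat.lt_succ_of_lt hj)) k
    change lev (D T) (h T) (p T) (c T) (cur D h p c T z) i
      = lev (D T) (h T) (p T) (c' T) (cur D h p c' T z) i
    rw [h1]
    exact lev_congr (hc T (Nat.lt_succ_self T)) _ i

theorem few {n r H : ℕ} {f : MvPolynomial (Fin n) ℂ} (hf : AO r f) {D p β : ℕ → ℕ}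
    (hD : ∀ j, 2 ≤ D j) (hp : ∀ j, r < (D j + 1) ^ (p j + 1)) (hβ0 : β 0 = 1)
    (hβ : ∀ j, β (j + 1) = 2 * (β j - p j)) (hpβ : ∀ j, p j ≤ β j) (hH0 : 0 < H) (T : ℕ)
    (hH : ∀ j < T, β j ≤ H) (g : Fin n → Polynomial ℂ) (ρ : Fin n → ℕ) (hρ : ∀ i, ρ i < β T)
    (hne : ∃ v : ℕ → ℂ, eval (fun i => (g i).eval (v (ρ i))) f ≠ 0) :
    ∃ c : ℕ → ℕ → ℕ, (∀ j l, c j l < H) ∧ ∃ z : ℂ,
      eval (fun i => (g i).eval (cur D (fun j => β j - p j) p c T z (ρ i))) f ≠ 0 := by
  induction T generalizing g ρ with
  | zero =>
    obtain ⟨v, hv⟩ := hne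
    refine ⟨fun _ _ => 0, fun _ _ => hH0, v 0, ?_⟩
    have h0 : ∀ i, ρ i = 0 := by
      intro i
      have := hρ i
      rw [hβ0] at this
      omega
    have h1 : (fun i => (g i).eval (v (ρ i))) = (fun i => (g i).eval (cur D (fun j => β j - p j) p
        (fun _ _ => 0) 0 (v 0) (ρ i))) := by
      funext i
      rw [h0 i]
      rfl
    rw [← h1]
    exact hv
  | succ T ih =>
    have hh : ∀ i, ρ i < 2 * (β T - p T) := by
      intro i
      rw [← hβ T]
      exact hρ i
    have hhH : β T - p T ≤ H := (Nat.sub_le _ _).trans (hH T (Nat.lt_succ_self T))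
    obtain ⟨e, heH, v, hv⟩ := stage_curve hf (hD T) (hp T) hhH hH0 g ρ hh hne
    -- reorganise
    let g' : Fin n → Polynomial ℂ := fun i =>
      match slot (p T) e (ρ i / 2) with
      | none => if ρ i % 2 = 0 then (g i).comp (Polynomial.X ^ D T)
          else (g i).comp (Polynomial.X ^ D T + Polynomial.X)
      | some _ => g i
    let ρ' : Fin n → ℕ := fun i =>
      match slot (p T) e (ρ i / 2) with
      | none => ρ i / 2
      | some l => if ρ i % 2 = 0 then ρ i / 2 else (β T - p T) + l
    have key : ∀ (w : ℕ → ℂ) (i : Fin n),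
        (g i).eval (lev (D T) (β T - p T) (p T) e w (ρ i)) = (g' i).eval (w (ρ' i)) := by
      intro w i
      simp only [g', ρ', lev]
      cases hs : slot (p T) e (ρ i / 2) with
      | none =>
        simp only []
        by_cases h2 : ρ i % 2 = 0
        · simp [h2, Polynomial.eval_comp]
        · simp [h2, Polynomial.eval_comp]
      | some l =>
        simp only []
        by_cases h2 : ρ i % 2 = 0
        · simp [h2]
        · simp [h2]
    have hρ' : ∀ i, ρ' i < β T := by
      intro i
      have h1 := hh i
      have h3 := hpβ T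
      simp only [ρ']
      cases hs : slot (p T) e (ρ i / 2) with
      | none =>
        simp only []
        omega
      | some l =>
        have hl := (slot_eq_some hs).1
        simp only []
        split_ifs <;> omega
    have hne' : ∃ v : ℕ → ℂ, eval (fun i => (g' i).eval (v (ρ' i))) f ≠ 0 := by
      refine ⟨v, ?_⟩
      have h1 : (fun i => (g' i).eval (v (ρ' i)))
          = (fun i => (g i).eval (lev (D T) (β T - p T) (p T) e v (ρ i))) := by
        funext i
        exact (key v i).symm
      rw [h1]
      exact hv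
    obtain ⟨c', hc'H, z, hz⟩ := ih (fun j hj => hH j (Nat.lt_succ_of_lt hj)) g' ρ' hρ' hne'
    refine ⟨Function.update c' T e, ?_, z, ?_⟩
    · intro j l
      by_cases hj : j = T
      · subst hj
        simp only [Function.update_self]
        exact heH l
      · simp only [Function.update_of_ne hj]
        exact hc'H j l
    · have h1 : (fun i => (g i).eval (cur D (fun j => β j - p j) p (Function.update c' T e) (T + 1)
          z (ρ i))) = (fun i => (g' i).eval (cur D (fun j => β j - p j) p c' T z (ρ' i))) := by
        funext i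
        rw [← key]
        congr 1
        change lev (D T) (β T - p T) (p T) (Function.update c' T e T)
          (cur D (fun j => β j - p j) p (Function.update c' T e) T z) (ρ i) = _
        rw [Function.update_self]
        congr 1
        funext k
        refine cur_congr T ?_ z k
        intro j hj l _
        rw [Function.update_of_ne (Nat.ne_of_lt hj)]
      rw [h1]
      exact hz

end AOR
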