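import Pool.Agent.Helper31.AO.NatPt

/-!
# AO-15: the hitting set as a finite set of integer points
-/

namespace AOR

open MvPolynomial

/-- The parameters of the tree, extended by zero. -/
def extF {q d : ℕ} (a : Fin d → Fin q) (j : ℕ) : ZMod q :=
  if h : j < d then ((a ⟨j, h⟩ : ℕ) : ZMod q) else 0

/-- The exceptional pairs, extended by zero. -/
def extC {T P H : ℕ} (c : Fin T → Fin P → Fin H) (j l : ℕ) : ℕ :=
  if h : j < T ∧ l < P then (c ⟨j, h.1⟩ ⟨l, h.2⟩ : ℕ) else 0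

/-- The points: the coordinates are `pt` at the digits of the variable, for all parameters `a` of the tree,
all exceptional pairs `c, c'` and all `v ≤ V`, `w ≤ W`. -/
def hset (n q d T P H V W : ℕ) (D h p : ℕ → ℕ) : Finset (Fin n → ℤ) :=
  (Finset.univ : Finset ((Fin d → Fin q) × (Fin T → Fin P → Fin H) × (Fin T → Fin P → Fin H) ×
    Fin (V + 1) × Fin (W + 1))).image
    fun x i => pt q d (extF x.1) (cur D h p (extC x.2.1) T ((x.2.2.2.1 : ℕ) : ℤ))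
      (cur D h p (extC x.2.2.1) T ((x.2.2.2.2 : ℕ) : ℤ)) (dig q i)

theorem card_hset (n q d T P H V W : ℕ) (D h p : ℕ → ℕ) :
    (hset n q d T P H V W D h p).card ≤
      q ^ d * ((H ^ P) ^ T * ((H ^ P) ^ T * ((V + 1) * (W + 1)))) := by
  refine Finset.card_image_le.trans ?_
  rw [Finset.card_univ]
  simp only [Fintype.card_prod, Fintype.card_fun, Fintype.card_fin, le_refl]

private theorem slot_congr {p : ℕ} {e e' : ℕ → ℕ} (k : ℕ) (h : ∀ l < p, e l = e' l) :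
    slot p e k = slot p e' k := by
  unfold slot
  induction p with
  | zero => rfl
  | succ p ih =>
    rw [List.range_succ, List.find?_append, List.find?_append,
      ih fun l hl => h l (Nat.lt_succ_of_lt hl)]
    simp [h p (Nat.lt_succ_self p)]

private theorem cur_congr {R : Type*} [CommSemiring R] {D h p : ℕ → ℕ} {c c' : ℕ → ℕ → ℕ} {T : ℕ}
    (hc : ∀ j < T, ∀ l < p j, c j l = c' j l) (z : R) : cur D h p c T z = cur D h p c' T z := by
  induction T with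
  | zero => rfl
  | succ T ih =>
    rw [cur, cur, ih fun j hj => hc j (Nat.lt_succ_of_lt hj)]
    funext i
    unfold lev
    rw [slot_congr (i / 2) (hc T (Nat.lt_succ_self T))]

private theorem pt_congr {R : Type*} [CommRing R] {q d : ℕ} {a a' : ℕ → ZMod q} {γ γ' : ℕ → R}
    {ξ : ℕ → ZMod q} (h : ∀ l < d, a l = a' l) : pt q d a γ γ' ξ = pt q d a' γ γ' ξ := by
  have h1 : ∀ j ≤ d, head ξ a j = head ξ a' j := fun j hj =>
    head_congr j (fun _ _ => rfl) fun l hl => h l (hl.trans_le hj)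
  unfold pt
  refine Finset.sum_congr rfl fun ζ _ => ?_
  rw [h1 d le_rfl]
  congr 2
  unfold idx
  rw [h1 d le_rfl, sig_congr d (fun l hl => h1 l hl.le) (fun _ _ => rfl) fun _ _ => rfl]

theorem mem_hset {n q d T P H V W : ℕ} [NeZero q] {D h p : ℕ → ℕ} (hP : ∀ j, p j ≤ P)
    (a : ℕ → ZMod q) {c c' : ℕ → ℕ → ℕ} (hc : ∀ j l, c j l < H) (hc' : ∀ j l, c' j l < H) {v w : ℕ}
    (hv : v ≤ V) (hw : w ≤ W) :
    (fun i : Fin n => pt q d a (cur D h p c T (v : ℤ)) (cur D h p c' T (w : ℤ)) (dig q i)) ∈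
      hset n q d T P H V W D h p := by
  rw [hset, Finset.mem_image]
  refine ⟨(fun j => ⟨(a j).val, ZMod.val_lt (a j)⟩, fun j l => ⟨c j l, hc j l⟩,
    fun j l => ⟨c' j l, hc' j l⟩, ⟨v, Nat.lt_succ_of_le hv⟩, ⟨w, Nat.lt_succ_of_le hw⟩),
    Finset.mem_univ _, ?_⟩
  funext i
  have h1 : ∀ l < d, extF (q := q) (d := d) (fun j => ⟨(a j).val, ZMod.val_lt (a j)⟩) l = a l := by
    intro l hl
    rw [extF, dif_pos hl]
    exact ZMod.natCast_zmod_val (a l)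
  have h2 : ∀ (c : ℕ → ℕ → ℕ) (hc : ∀ j l, c j l < H), ∀ j < T, ∀ l < p j,
      extC (T := T) (P := P) (H := H) (fun j l => ⟨c j l, hc j l⟩) j l = c j l := by
    intro c hc j hj l hl
    rw [extC, dif_pos ⟨hj, hl.trans_le (hP j)⟩]
  rw [pt_congr h1, cur_congr (h2 c hc), cur_congr (h2 c' hc')]

private theorem abs_nod_le {q d ζ : ℕ} {z : ℤ} {G : ℕ} (hz : |z| ≤ G) (hG : 1 ≤ G) :
    |nod q d ζ z| ≤ ((G : ℤ) + ((2 * q) ^ d : ℕ)) ^ (2 * q) ^ d := by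
  rw [nod, Finset.abs_prod]
  have hG1 : (1 : ℤ) ≤ (G : ℤ) + ((2 * q) ^ d : ℕ) := by
    have : (0 : ℤ) ≤ (((2 * q) ^ d : ℕ) : ℤ) := Int.natCast_nonneg _
    have : (1 : ℤ) ≤ G := by exact_mod_cast hG
    omega
  calc ∏ η ∈ (Finset.range ((2 * q) ^ d)).erase ζ, |z - (η : ℤ)|
      ≤ ∏ _η ∈ (Finset.range ((2 * q) ^ d)).erase ζ, ((G : ℤ) + ((2 * q) ^ d : ℕ)) := by
        refine Finset.prod_le_prod (fun _ _ => abs_nonneg _) fun η hη => ?_
        have h1 : η < (2 * q) ^ d := Finset.mem_range.1 (Finset.mem_of_mem_erase hη)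
        have h2 : |z - (η : ℤ)| ≤ |z| + |(η : ℤ)| := abs_sub _ _
        have h3 : |(η : ℤ)| = η := abs_of_nonneg (Int.natCast_nonneg _)
        have h4 : (η : ℤ) ≤ ((2 * q) ^ d : ℕ) := by exact_mod_cast h1.le
        rw [h3] at h2
        linarith
    _ ≤ ((G : ℤ) + ((2 * q) ^ d : ℕ)) ^ (2 * q) ^ d := by
        rw [Finset.prod_const]
        refine pow_le_pow_right₀ hG1 ?_
        refine (Finset.card_erase_le).trans ?_
        rw [Finset.card_range]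

theorem abs_pt_le {q d : ℕ} {a : ℕ → ZMod q} {γ γ' : ℕ → ℤ} {G : ℕ} (hG : 1 ≤ G)
    (hγ : ∀ k, |γ k| ≤ G) (hγ' : ∀ k, |γ' k| ≤ G) (ξ : ℕ → ZMod q) :
    |pt q d a γ γ' ξ| ≤ (((G + (2 * q) ^ d) ^ ((2 * q) ^ d + 2) : ℕ) : ℤ) := by
  have hG0 : (0 : ℤ) ≤ G := Int.natCast_nonneg _
  have hZ0 : (0 : ℤ) ≤ (((2 * q) ^ d : ℕ) : ℤ) := Int.natCast_nonneg _
  calc |pt q d a γ γ' ξ|
      ≤ ∑ ζ ∈ Finset.range ((2 * q) ^ d), |nod q d ζ (γ' (head ξ a d).val) * γ (idx q d ξ a ζ)| :=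
        Finset.abs_sum_le_sum_abs _ _
    _ ≤ ∑ _ζ ∈ Finset.range ((2 * q) ^ d), ((G : ℤ) + ((2 * q) ^ d : ℕ)) ^ (2 * q) ^ d * G := by
        refine Finset.sum_le_sum fun ζ _ => ?_
        rw [abs_mul]
        exact mul_le_mul (abs_nod_le (hγ' _) hG) (hγ _) (abs_nonneg _) (by positivity)
    _ = (((2 * q) ^ d : ℕ) : ℤ) * (((G : ℤ) + ((2 * q) ^ d : ℕ)) ^ (2 * q) ^ d * G) := by
        rw [Finset.sum_const, Finset.card_range, nsmul_eq_mul]
    _ ≤ ((G : ℤ) + ((2 * q) ^ d : ℕ)) * (((G : ℤ) + ((2 * q) ^ d : ℕ)) ^ (2 * q) ^ d *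
          ((G : ℤ) + ((2 * q) ^ d : ℕ))) := by
        refine mul_le_mul (by linarith) ?_ (by positivity) (by positivity)
        refine mul_le_mul le_rfl (by linarith) hG0 (by positivity)
    _ = (((G + (2 * q) ^ d) ^ ((2 * q) ^ d + 2) : ℕ) : ℤ) := by
        push_cast
        ring

theorem abs_hset {n q d T P H V W : ℕ} {D h p : ℕ → ℕ} (hD : ∀ j, 1 ≤ D j) {B : ℕ} (hB : 2 ≤ B)
    (hV : V ≤ B) (hW : W ≤ B) {x : Fin n → ℤ} (hx : x ∈ hset n q d T P H V W D h p) (i : Fin n) :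
    |x i| ≤ (((B ^ ∏ j ∈ Finset.range T, (D j + 1)) + (2 * q) ^ d) ^ ((2 * q) ^ d + 2) : ℕ) := by
  rw [hset, Finset.mem_image] at hx
  obtain ⟨y, -, rfl⟩ := hx
  have h1 : ∀ (c : ℕ → ℕ → ℕ) (z : ℕ), z ≤ B → ∀ k,
      |cur D h p c T (z : ℤ) k| ≤ ((B ^ ∏ j ∈ Finset.range T, (D j + 1) : ℕ) : ℤ) := by
    intro c z hz k
    have h2 := cur_map (Nat.castRingHom ℤ) D h p c T z k
    simp only [eq_natCast] at h2
    rw [← h2, abs_of_nonneg (Int.natCast_nonneg _)]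
    exact_mod_cast cur_le hD c hB hz T k
  refine abs_pt_le (Nat.one_le_pow _ _ (by omega)) (h1 _ _ ?_) (h1 _ _ ?_) _
  · exact (Nat.lt_succ_iff.1 y.2.2.2.1.2).trans hV
  · exact (Nat.lt_succ_iff.1 y.2.2.2.2.2).trans hW

end AOR
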