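import Mathlib

/-!
# AO-14: the parameters

Proofs.
* `qq_prime`, `qq_gt`: `Nat.find_spec`. `qq_le`: Bertrand (`Nat.exists_prime_lt_and_le_two_mul`) and `Nat.find_le`/`Nat.find_min'`.
* `qq_cond`: `dd n r ≤ Nat.log 2 n` (`Nat.log_anti_left`, base `qq ≥ 2`), so `(dd * log r) ^ 2 ≤ (log n * log r) ^ 2 < qq`.
* `n_le`: `Nat.lt_pow_succ_log_self`. `qd_le`: `Nat.pow_log_le_self` for `n ≠ 0`, for `n = 0` `Nat.log q 0 = 0`.
* `q2d_le`: `(2 q) ^ d = 2 ^ d * q ^ d ≤ (q ^ d) ^ 2`.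
* `TT_ge`: `Nat.le_pow_clog`: `2 * (q (1 + d q)) ≤ 2 ^ TT`. `TT_pos`: `2 * (..) ≥ 2`.
* `TT_le`: let `m = Nat.log 2 (n + r + 2) ≥ 1`, `k = Nat.log 2 m + 1`. `log n, log r ≤ m`, `qq ≤ 2 (m^4 + 1) ≤ 4 m^4`, `dd ≤ m`, `1 + dd qq ≤ 5 m^5`, `2 * (qq (1 + dd qq)) ≤ 64 m^9 ≤ 2 ^ 6 * (2 ^ k) ^ 9` (`m < 2 ^ k`), so
`TT ≤ 6 + 9 k ≤ 15 k` (`Nat.clog_le_of_le_pow`).
* `TT_cube`: `(k' + 1) ^ 3 ≤ 8 * 2 ^ k'` for all `k'` (induction; check `k' ≤ 4` by hand, then `(k'+2)^3 ≤ 2 (k'+1)^3`), with `k' = Nat.log 2 m`, `2 ^ k' ≤ m`: `TT ^ 3 ≤ 3375 * 8 * m = 27000 m`.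
* `two_pow_cube`: `2 ^ (6 TT^3) ≤ 2 ^ (162000 m) = (2 ^ m) ^ 162000 ≤ (n + r + 2) ^ 162000`.
* `lam`: `Nat.le_pow_clog`; `2 ^ clog 2 T ≤ 2 T` for `T ≥ 1` (`Nat.pow_pred_clog_lt_self`).
-/

namespace AOR

/-- The prime: the smallest prime `≥ (log n * log r) ^ 2 + 1`. -/
def qq (n r : ℕ) : ℕ :=
  Nat.find (Nat.exists_infinite_primes ((Nat.log 2 n * Nat.log 2 r) ^ 2 + 1))

/-- The depth of the tree. -/
def dd (n r : ℕ) : ℕ := Nat.log (qq n r) n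

/-- The number of levels of the curves. -/
def TT (n r : ℕ) : ℕ := Nat.clog 2 (2 * (qq n r * (1 + dd n r * qq n r)))

theorem qq_prime (n r : ℕ) : (qq n r).Prime :=
  (Nat.find_spec (Nat.exists_infinite_primes ((Nat.log 2 n * Nat.log 2 r) ^ 2 + 1))).2

theorem qq_gt (n r : ℕ) : (Nat.log 2 n * Nat.log 2 r) ^ 2 < qq n r :=
  Nat.lt_of_succ_le
    (Nat.find_spec (Nat.exists_infinite_primes ((Nat.log 2 n * Nat.log 2 r) ^ 2 + 1))).1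

theorem qq_le (n r : ℕ) : qq n r ≤ 2 * ((Nat.log 2 n * Nat.log 2 r) ^ 2 + 1) := by
  obtain ⟨p, hp, h1, h2⟩ := Nat.exists_prime_lt_and_le_two_mul
    ((Nat.log 2 n * Nat.log 2 r) ^ 2 + 1) (Nat.succ_ne_zero _)
  exact (Nat.find_min' (Nat.exists_infinite_primes ((Nat.log 2 n * Nat.log 2 r) ^ 2 + 1))
    ⟨h1.le, hp⟩).trans h2

private theorem dd_le (n r : ℕ) : dd n r ≤ Nat.log 2 n :=
  Nat.log_anti_left (by norm_num) (qq_prime n r).two_le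

theorem qq_cond (n r : ℕ) : (dd n r * Nat.log 2 r) ^ 2 < qq n r :=
  (Nat.pow_le_pow_left (Nat.mul_le_mul_right _ (dd_le n r)) 2).trans_lt (qq_gt n r)

theorem n_le (n r : ℕ) : n ≤ qq n r ^ (dd n r + 1) :=
  (Nat.lt_pow_succ_log_self (qq_prime n r).one_lt n).le

theorem qd_le (n r : ℕ) : qq n r ^ dd n r ≤ n + 1 := by
  rcases Nat.eq_zero_or_pos n with h | h
  · subst h
    unfold dd
    rw [Nat.log_zero_right, pow_zero, Nat.zero_add]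
  · exact (Nat.pow_log_le_self _ h.ne').trans (Nat.le_succ n)

theorem q2d_le (n r : ℕ) : (2 * qq n r) ^ dd n r ≤ (n + 1) ^ 2 := by
  have h1 : 2 ^ dd n r ≤ qq n r ^ dd n r := Nat.pow_le_pow_left (qq_prime n r).two_le _
  calc (2 * qq n r) ^ dd n r = 2 ^ dd n r * qq n r ^ dd n r := mul_pow _ _ _
    _ ≤ (n + 1) * (n + 1) := Nat.mul_le_mul (h1.trans (qd_le n r)) (qd_le n r)
    _ = (n + 1) ^ 2 := (sq _).symm

theorem TT_ge (n r : ℕ) : 2 * (qq n r * (1 + dd n r * qq n r)) ≤ 2 ^ TT n r :=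
  Nat.le_pow_clog (by norm_num) _

theorem TT_pos (n r : ℕ) : 1 ≤ TT n r := by
  have h1 : 1 ≤ qq n r := (qq_prime n r).one_le
  have h2 : 1 ≤ qq n r * (1 + dd n r * qq n r) := Nat.mul_pos h1 (by omega)
  exact Nat.clog_pos (by norm_num) (by omega)

private theorem log_big (n r : ℕ) : 1 ≤ Nat.log 2 (n + r + 2) :=
  Nat.log_pos (by norm_num) (by omega)

theorem TT_le (n r : ℕ) : TT n r ≤ 15 * (Nat.log 2 (Nat.log 2 (n + r + 2)) + 1) := by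
  have hm := log_big n r
  have ha : Nat.log 2 n ≤ Nat.log 2 (n + r + 2) := Nat.log_mono_right (by omega)
  have hb : Nat.log 2 r ≤ Nat.log 2 (n + r + 2) := Nat.log_mono_right (by omega)
  have hd := (dd_le n r).trans ha
  have hq := qq_le n r
  have hk : Nat.log 2 (n + r + 2) < 2 ^ (Nat.log 2 (Nat.log 2 (n + r + 2)) + 1) :=
    Nat.lt_pow_succ_log_self (by norm_num) _
  generalize Nat.log 2 (n + r + 2) = m at hm ha hb hd hk ⊢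
  generalize Nat.log 2 m = k' at hk ⊢
  have h1 : (Nat.log 2 n * Nat.log 2 r) ^ 2 ≤ (m * m) ^ 2 :=
    Nat.pow_le_pow_left (Nat.mul_le_mul ha hb) 2
  have hm4 : 1 ≤ m ^ 4 := Nat.one_le_pow _ _ hm
  have hm5 : 1 ≤ m ^ 5 := Nat.one_le_pow _ _ hm
  have h2 : qq n r ≤ 4 * m ^ 4 := by
    have h3 : (m * m) ^ 2 = m ^ 4 := by ring
    omega
  have h4 : 1 + dd n r * qq n r ≤ 5 * m ^ 5 := by
    have h5 : dd n r * qq n r ≤ m * (4 * m ^ 4) := Nat.mul_le_mul hd h2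
    have h6 : m * (4 * m ^ 4) = 4 * m ^ 5 := by ring
    omega
  have h7 : qq n r * (1 + dd n r * qq n r) ≤ 20 * m ^ 9 := by
    calc qq n r * (1 + dd n r * qq n r) ≤ (4 * m ^ 4) * (5 * m ^ 5) := Nat.mul_le_mul h2 h4
      _ = 20 * m ^ 9 := by ring
  have h8 : m ^ 9 ≤ (2 ^ (k' + 1)) ^ 9 := Nat.pow_le_pow_left hk.le 9
  have h9 : 2 * (qq n r * (1 + dd n r * qq n r)) ≤ 2 ^ (6 + (k' + 1) * 9) := by
    rw [pow_add, pow_mul]
    have h10 : (2 : ℕ) ^ 6 = 64 := by norm_num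
    rw [h10]
    omega
  have h11 : TT n r ≤ 6 + (k' + 1) * 9 := Nat.clog_le_of_le_pow h9
  omega

private theorem cube_le (k : ℕ) : (k + 1) ^ 3 ≤ 8 * 2 ^ k := by
  have key : ∀ j, (j + 3 + 1) ^ 3 ≤ 8 * 2 ^ (j + 3) := by
    intro j
    induction j with
    | zero => norm_num
    | succ j ih =>
      have h1 : (j + 1 + 3 + 1) ^ 3 ≤ 2 * (j + 3 + 1) ^ 3 := by
        ring_nf
        nlinarith [Nat.zero_le (j ^ 3), Nat.zero_le (j ^ 2), Nat.zero_le j]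
      have h2 : 2 ^ (j + 1 + 3) = 2 * 2 ^ (j + 3) := by ring
      rw [h2]
      omega
  rcases Nat.lt_or_ge k 3 with h | h
  · interval_cases k <;> norm_num
  · obtain ⟨j, rfl⟩ := Nat.exists_eq_add_of_le h
    rw [show 3 + j = j + 3 from Nat.add_comm _ _]
    exact key j

private theorem TT_cube (n r : ℕ) : 6 * TT n r ^ 3 ≤ Nat.log 2 (n + r + 2) * 162000 := by
  have h1 := TT_le n r
  have h2 := log_big n r
  have h3 : 2 ^ Nat.log 2 (Nat.log 2 (n + r + 2)) ≤ Nat.log 2 (n + r + 2) :=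
    Nat.pow_log_le_self 2 (by omega)
  have h4 := cube_le (Nat.log 2 (Nat.log 2 (n + r + 2)))
  have h5 : TT n r ^ 3 ≤ (15 * (Nat.log 2 (Nat.log 2 (n + r + 2)) + 1)) ^ 3 :=
    Nat.pow_le_pow_left h1 3
  have h6 : (15 * (Nat.log 2 (Nat.log 2 (n + r + 2)) + 1)) ^ 3 =
      3375 * (Nat.log 2 (Nat.log 2 (n + r + 2)) + 1) ^ 3 := by
    rw [mul_pow]
    norm_num
  omega

theorem two_pow_cube (n r : ℕ) : 2 ^ (6 * TT n r ^ 3) ≤ (n + r + 2) ^ 162000 := by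
  have h1 : 2 ^ Nat.log 2 (n + r + 2) ≤ n + r + 2 := Nat.pow_log_le_self 2 (by omega)
  have h2 := TT_cube n r
  generalize 162000 = e at h2 ⊢
  calc 2 ^ (6 * TT n r ^ 3) ≤ 2 ^ (Nat.log 2 (n + r + 2) * e) :=
        Nat.pow_le_pow_right (by norm_num) h2
    _ = (2 ^ Nat.log 2 (n + r + 2)) ^ e := pow_mul _ _ _
    _ ≤ (n + r + 2) ^ e := Nat.pow_le_pow_left h1 e

theorem le_two_pow_clog (T : ℕ) : T ≤ 2 ^ Nat.clog 2 T :=
  Nat.le_pow_clog (by norm_num) T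

theorem two_pow_clog_le {T : ℕ} (hT : 1 ≤ T) : 2 ^ Nat.clog 2 T ≤ 2 * T := by
  rcases Nat.eq_or_lt_of_le hT with h | h
  · rw [← h]
    simp
  · have h1 := Nat.pow_pred_clog_lt_self (b := 2) (by norm_num) h
    have h2 : 0 < Nat.clog 2 T := Nat.clog_pos (by norm_num) h
    obtain ⟨c, hc⟩ := Nat.exists_eq_succ_of_ne_zero h2.ne'
    rw [hc] at h1 ⊢
    rw [Nat.pred_succ] at h1
    rw [pow_succ]
    omega

end AOR
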