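import Mathlib

/-!
# AO-13: the schedule

Proofs. Write `e = see lam j`.
* `sD_pow`: `(L + 2 ^ e - 1) / 2 ^ e * 2 ^ e ≥ L` (rounding up), so `(sD + 1) ^ (sp + 1) ≥ (2 ^ ⌈L / 2^e⌉) ^ (2 ^ e) ≥ 2 ^ L > r`; in fact `sD + 1 > sD` and `2 ^ e ≥ 1`.
* `sb_lower`: real numbers (or multiply by a power of 2): `β_j = 2^j (1 - ∑_{i<j} p_i 2^-i)` and `p_i ≤ 2^(i/2-1) - 1` for `i ≥ 2`, `p_0 = .. = p_3 = 0`, and `∑_{i≥4} (2^(i/2-1) - 1) 2^-i = 1/4`. A clean induction: prove the stronger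
`4 * sb lam j ≥ 3 * 2 ^ j + c j` with `c j = 6 * 2 ^ ((j + 1) / 2) - 8` or similar: for `j = 2 m`: `4 β_(2m) ≥ 3 * 4^m + 6 * 2^m - 8`, for `j = 2 m + 1`: `4 β_(2m+1) ≥ 3 * 2 * 4^m + 8 * 2^m - 8` (`m ≥ 1`):
from `2m` to `2m+1`: `p_(2m) = 2^(m-1) - 1`: `4 β_(2m+1) = 2 (4 β_(2m) - 4 p_(2m)) ≥ 6 * 4^m + 12 * 2^m - 16 - 4 * 2^m + 8 = 6 * 4^m + 8 * 2^m - 8`; from `2m+1` to `2m+2`: `p_(2m+1) = 2^(m-1) - 1`: `4 β ≥ 2 (6 * 4^m + 8 * 2^m - 8) - 4 * 2^m + 8 = 12 * 4^m + 12 * 2^m - 8`. Exact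
equalities for `lam = ∞`; start at `m = 1`: `β_2 = 4`: `16 = 12 + 12 - 8`. With `lam` finite the `p_j` are smaller. `β_0 = 1, β_1 = 2, β_2 = 4` directly.
* `sb_upper`: induction. `sp_le`: `sp ≤ 2 ^ (j / 2 - 1) ≤ ..` from `sb_lower` (`4 (2^(j/2-1) - 1) ≤ 3 * 2^j`). `sp_bound`: `see ≤ lam`.
* `prod_sD`: `∑ j ∈ range T, (L + 2 ^ e_j - 1) / 2 ^ e_j ≤ 7 L + T`: `(L + 2^e - 1)/2^e ≤ L / 2^e + 1` (real numbers); `1 / 2 ^ e_j ≤ 1 / 2 ^ (j/2 - 1) + 1 / 2 ^ lam`; `∑_j 1 / 2^(j/2-1) ≤ 1+1+1+1+1/2+1/2+1/4+1/4+.. = 6` (induction, in steps of two, or by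
`∑_{j<2m} = 8 - 4/2^m.. ≤ 6`), `T * L / 2 ^ lam ≤ L`. Compare `Pool/Agent/Helper7/PD/Schedule.lean` (proved, similar numerics).
* `prod_sD_succ`: `sD + 1 ≤ 2 sD`.
-/

namespace AOR

/-- the exponent of `p + 1` -/
def see (lam j : ℕ) : ℕ := min (j / 2 - 1) lam

/-- the number of exceptional pairs -/
def sp (lam j : ℕ) : ℕ := 2 ^ see lam j - 1

/-- the exponent of the curve -/
def sD (L lam j : ℕ) : ℕ := 2 ^ ((L + 2 ^ see lam j - 1) / 2 ^ see lam j)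

/-- the number of variables -/
def sb (lam : ℕ) : ℕ → ℕ
  | 0 => 1
  | j + 1 => 2 * (sb lam j - sp lam j)

theorem two_le_sD {L : ℕ} (hL : 1 ≤ L) (lam j : ℕ) : 2 ≤ sD L lam j := by
  rw [sD]
  have h1 : 0 < 2 ^ see lam j := by positivity
  have h2 : 1 ≤ (L + 2 ^ see lam j - 1) / 2 ^ see lam j := by
    rw [Nat.le_div_iff_mul_le h1]
    omega
  calc 2 = 2 ^ 1 := rfl
    _ ≤ 2 ^ ((L + 2 ^ see lam j - 1) / 2 ^ see lam j) := Nat.pow_le_pow_right (by norm_num) h2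

theorem sD_pow {r L : ℕ} (hr : r < 2 ^ L) (lam j : ℕ) : r < (sD L lam j + 1) ^ (sp lam j + 1) := by
  have h1 : 0 < 2 ^ see lam j := by positivity
  have h2 : sp lam j + 1 = 2 ^ see lam j := by
    rw [sp]
    omega
  rw [h2]
  have h3 : L ≤ (L + 2 ^ see lam j - 1) / 2 ^ see lam j * 2 ^ see lam j := by
    have h4 := Nat.div_add_mod (L + 2 ^ see lam j - 1) (2 ^ see lam j)
    have h5 := Nat.mod_lt (L + 2 ^ see lam j - 1) h1
    have h6 : 2 ^ see lam j * ((L + 2 ^ see lam j - 1) / 2 ^ see lam j) =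
      (L + 2 ^ see lam j - 1) / 2 ^ see lam j * 2 ^ see lam j := mul_comm _ _
    omega
  calc r < 2 ^ L := hr
    _ ≤ 2 ^ ((L + 2 ^ see lam j - 1) / 2 ^ see lam j * 2 ^ see lam j) :=
      Nat.pow_le_pow_right (by norm_num) h3
    _ = sD L lam j ^ 2 ^ see lam j := by rw [sD, pow_mul]
    _ ≤ (sD L lam j + 1) ^ 2 ^ see lam j := Nat.pow_le_pow_left (Nat.le_succ _) _

private theorem sch_sp (lam k : ℕ) : sp lam (2 * (k + 1)) + 1 ≤ 2 ^ k ∧
    sp lam (2 * (k + 1) + 1) + 1 ≤ 2 ^ k := by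
  have h1 : 2 ^ see lam (2 * (k + 1)) ≤ 2 ^ k := by
    refine Nat.pow_le_pow_right (by norm_num) ?_
    rw [see]
    refine (min_le_left _ _).trans ?_
    omega
  have h2 : 2 ^ see lam (2 * (k + 1) + 1) ≤ 2 ^ k := by
    refine Nat.pow_le_pow_right (by norm_num) ?_
    rw [see]
    refine (min_le_left _ _).trans ?_
    omega
  have h3 : 0 < 2 ^ see lam (2 * (k + 1)) := by positivity
  have h4 : 0 < 2 ^ see lam (2 * (k + 1) + 1) := by positivity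
  rw [sp, sp]
  omega

private theorem sch_aux (lam k : ℕ) :
    3 * 4 ^ (k + 1) + 6 * 2 ^ (k + 1) ≤ 4 * sb lam (2 * (k + 1)) + 8 ∧
    6 * 4 ^ (k + 1) + 8 * 2 ^ (k + 1) ≤ 4 * sb lam (2 * (k + 1) + 1) + 8 := by
  induction k with
  | zero =>
    have h1 : sb lam 2 = 4 := by simp [sb, sp, see]
    have h2 : sb lam 3 = 8 := by
      rw [sb, h1]
      simp [sp, see]
    constructor
    · show 3 * 4 ^ 1 + 6 * 2 ^ 1 ≤ 4 * sb lam 2 + 8
      rw [h1]
      norm_num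
    · show 6 * 4 ^ 1 + 8 * 2 ^ 1 ≤ 4 * sb lam 3 + 8
      rw [h2]
      norm_num
  | succ k ih =>
    obtain ⟨_, ih2⟩ := ih
    have h1 : sb lam (2 * (k + 1 + 1)) =
        2 * (sb lam (2 * (k + 1) + 1) - sp lam (2 * (k + 1) + 1)) := rfl
    have h2 : sb lam (2 * (k + 1 + 1) + 1) =
        2 * (sb lam (2 * (k + 1 + 1)) - sp lam (2 * (k + 1 + 1))) := rfl
    have h3 := (sch_sp lam k).2
    have h4 := (sch_sp lam (k + 1)).1
    have h5 : 4 ^ (k + 1 + 1) = 4 * 4 ^ (k + 1) := by rw [pow_succ]; ring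
    have h6 : 2 ^ (k + 1 + 1) = 2 * 2 ^ (k + 1) := by rw [pow_succ]; ring
    have h7 : 2 ^ (k + 1) = 2 * 2 ^ k := by rw [pow_succ]; ring
    have h8 : 3 * 4 ^ (k + 1 + 1) + 6 * 2 ^ (k + 1 + 1) ≤ 4 * sb lam (2 * (k + 1 + 1)) + 8 := by
      rw [h1, h5, h6]
      omega
    refine ⟨h8, ?_⟩
    rw [h2]
    rw [h5, h6] at h8 ⊢
    omega

theorem sb_lower (lam j : ℕ) : 3 * 2 ^ j ≤ 4 * sb lam j := by
  rcases Nat.even_or_odd' j with ⟨m, rfl | rfl⟩
  · rcases m with _ | k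
    · simp [sb]
    · have h1 := (sch_aux lam k).1
      have h2 : 2 ^ (2 * (k + 1)) = 4 ^ (k + 1) := by rw [pow_mul]; norm_num
      have h3 : 2 ≤ 2 ^ (k + 1) := by
        rw [pow_succ]
        have := Nat.one_le_two_pow (n := k)
        omega
      rw [h2]
      omega
  · rcases m with _ | k
    · simp [sb, sp, see]
    · have h1 := (sch_aux lam k).2
      have h2 : 2 ^ (2 * (k + 1) + 1) = 2 * 4 ^ (k + 1) := by
        rw [pow_succ, pow_mul, mul_comm]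
        norm_num
      have h3 : 2 ≤ 2 ^ (k + 1) := by
        rw [pow_succ]
        have := Nat.one_le_two_pow (n := k)
        omega
      rw [h2]
      omega

theorem sb_upper (lam j : ℕ) : sb lam j ≤ 2 ^ j := by
  induction j with
  | zero => simp [sb]
  | succ j ih =>
    rw [sb, pow_succ]
    omega

theorem sp_le (lam j : ℕ) : sp lam j ≤ sb lam j := by
  have h1 := sb_lower lam j
  rcases j with _ | j
  · simp [sp, see]
  · have h2 : 2 ^ see lam (j + 1) ≤ 2 ^ j := by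
      refine Nat.pow_le_pow_right (by norm_num) ?_
      rw [see]
      refine (min_le_left _ _).trans ?_
      omega
    rw [sp]
    rw [pow_succ] at h1
    omega

theorem sp_bound (lam j : ℕ) : sp lam j ≤ 2 ^ lam := by
  rw [sp, see]
  have h1 : 2 ^ min (j / 2 - 1) lam ≤ 2 ^ lam := Nat.pow_le_pow_right (by norm_num) (min_le_right _ _)
  exact (Nat.sub_le _ _).trans h1

private theorem sch_geom (m : ℕ) :
    ∑ j ∈ Finset.range (2 * m), (1 / 2 : ℝ) ^ (j / 2 - 1) + 4 * (1 / 2 : ℝ) ^ (m - 1) ≤ 6 := by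
  induction m with
  | zero => norm_num
  | succ m ih =>
    have h1 : 2 * (m + 1) = 2 * m + 1 + 1 := by ring
    rw [h1, Finset.sum_range_succ, Finset.sum_range_succ]
    have h2 : (2 * m + 1) / 2 - 1 = m - 1 := by omega
    have h3 : (2 * m) / 2 - 1 = m - 1 := by omega
    rw [h2, h3]
    rcases m with _ | m
    · norm_num
    · have h4 : (m + 1 + 1 - 1) = (m + 1 - 1) + 1 := by omega
      rw [h4, pow_succ]
      linarith

theorem prod_sD {L lam T : ℕ} (hT : T ≤ 2 ^ lam) :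
    ∏ j ∈ Finset.range T, sD L lam j ≤ 2 ^ (7 * L + T) := by
  simp only [sD]
  rw [Finset.prod_pow_eq_pow_sum]
  refine Nat.pow_le_pow_right (by norm_num) ?_
  have h1 : ∀ j ∈ Finset.range T, (((L + 2 ^ see lam j - 1) / 2 ^ see lam j : ℕ) : ℝ) ≤
      L * ((1 / 2 : ℝ) ^ (j / 2 - 1) + 1 / 2 ^ lam) + 1 := by
    intro j _
    have h2 : (L + 2 ^ see lam j - 1) / 2 ^ see lam j ≤ L / 2 ^ see lam j + 1 := by
      have h3 : 0 < 2 ^ see lam j := by positivity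
      rw [← Nat.add_div_right L h3]
      exact Nat.div_le_div_right (by omega)
    have h4 : (((L + 2 ^ see lam j - 1) / 2 ^ see lam j : ℕ) : ℝ) ≤
        ((L / 2 ^ see lam j : ℕ) : ℝ) + 1 := by exact_mod_cast h2
    have h5 : ((L / 2 ^ see lam j : ℕ) : ℝ) ≤ (L : ℝ) / ((2 ^ see lam j : ℕ) : ℝ) := Nat.cast_div_le
    have h6 : (L : ℝ) / ((2 ^ see lam j : ℕ) : ℝ) ≤
        L * ((1 / 2 : ℝ) ^ (j / 2 - 1) + 1 / 2 ^ lam) := by
      rw [div_eq_mul_inv]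
      refine mul_le_mul_of_nonneg_left ?_ (Nat.cast_nonneg _)
      push_cast
      rw [see]
      rcases min_choice (j / 2 - 1) lam with h7 | h7
      · rw [h7]
        have h8 : ((2 : ℝ) ^ (j / 2 - 1))⁻¹ = (1 / 2 : ℝ) ^ (j / 2 - 1) := by
          rw [one_div, inv_pow]
        rw [h8]
        have h9 : (0 : ℝ) < 1 / 2 ^ lam := by positivity
        linarith
      · rw [h7]
        have h9 : (0 : ℝ) < (1 / 2 : ℝ) ^ (j / 2 - 1) := by positivity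
        rw [one_div (2 ^ lam : ℝ)]
        linarith
    linarith
  have h2 : ((∑ j ∈ Finset.range T, (L + 2 ^ see lam j - 1) / 2 ^ see lam j : ℕ) : ℝ) ≤
      ((7 * L + T : ℕ) : ℝ) := by
    push_cast
    have h3 := Finset.sum_le_sum h1
    have h4 : ∑ j ∈ Finset.range T, ((L : ℝ) * ((1 / 2 : ℝ) ^ (j / 2 - 1) + 1 / 2 ^ lam) + 1) =
        L * (∑ j ∈ Finset.range T, (1 / 2 : ℝ) ^ (j / 2 - 1)) + L * (T * (1 / 2 ^ lam)) + T := by
      rw [Finset.sum_add_distrib, ← Finset.mul_sum, Finset.sum_add_distrib, Finset.sum_const,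
        Finset.sum_const, Finset.card_range, nsmul_eq_mul, nsmul_eq_mul]
      ring
    have h5 : ∑ j ∈ Finset.range T, (1 / 2 : ℝ) ^ (j / 2 - 1) ≤ 6 := by
      have g1 : ∑ j ∈ Finset.range T, (1 / 2 : ℝ) ^ (j / 2 - 1) ≤
          ∑ j ∈ Finset.range (2 * T), (1 / 2 : ℝ) ^ (j / 2 - 1) :=
        Finset.sum_le_sum_of_subset_of_nonneg
          (Finset.range_subset_range.2 (by omega : T ≤ 2 * T)) (fun _ _ _ => by positivity)
      have g2 := sch_geom T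
      have g3 : (0 : ℝ) < 4 * (1 / 2 : ℝ) ^ (T - 1) := by positivity
      linarith
    have h6 : (T : ℝ) * (1 / 2 ^ lam) ≤ 1 := by
      have h7 : (T : ℝ) ≤ 2 ^ lam := by exact_mod_cast hT
      rw [mul_one_div, div_le_one (by positivity)]
      exact h7
    have hL0 : (0 : ℝ) ≤ L := Nat.cast_nonneg _
    have h8 := mul_le_mul_of_nonneg_left h5 hL0
    have h9 := mul_le_mul_of_nonneg_left h6 hL0
    rw [h4] at h3
    linarith
  exact_mod_cast h2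

theorem prod_sD_succ {L lam T : ℕ} (hT : T ≤ 2 ^ lam) :
    ∏ j ∈ Finset.range T, (sD L lam j + 1) ≤ 2 ^ (7 * L + 2 * T) := by
  have h1 : ∏ j ∈ Finset.range T, (sD L lam j + 1) ≤ ∏ j ∈ Finset.range T, 2 * sD L lam j := by
    refine Finset.prod_le_prod' fun j _ => ?_
    have h2 : 1 ≤ sD L lam j := by
      rw [sD]
      exact Nat.one_le_two_pow
    omega
  refine h1.trans ?_
  rw [Finset.prod_mul_distrib, Finset.prod_const, Finset.card_range]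
  refine (Nat.mul_le_mul_left _ (prod_sD hT)).trans ?_
  rw [← pow_add]
  exact Nat.pow_le_pow_right (by norm_num) (by omega)

end AOR
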