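import Pool.Agent.Helper31.AO.Assemble
import Pool.Agent.Helper31.AO.Sched
import Pool.Agent.Helper31.AO.Param
import Pool.Agent.Helper31.AO.HSet

/-!
# AO-16: the hitting set: size, entries, hitting
-/

namespace AOR

open MvPolynomial

/-- The hitting set for polynomials in `n` variables of total degree at most `D` with rank at most `r` for
every partition of the variables. -/
def hittingSet (n D r : ℕ) : Finset (Fin n → ℤ) :=
  hset n (qq n r) (dd n r) (TT n r) (2 ^ Nat.clog 2 (TT n r)) (2 ^ TT n r)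
    (D * 2 ^ (7 * (Nat.log 2 r + 1) + TT n r))
    (D * ((2 * qq n r) ^ dd n r * 2 ^ (7 * (Nat.log 2 r + 1) + TT n r)))
    (sD (Nat.log 2 r + 1) (Nat.clog 2 (TT n r)))
    (fun j => sb (Nat.clog 2 (TT n r)) j - sp (Nat.clog 2 (TT n r)) j)
    (sp (Nat.clog 2 (TT n r)))

theorem hits {n D r : ℕ} {f : MvPolynomial (Fin n) ℂ} (hf : AO r f) (h0 : f ≠ 0)
    (hdeg : f.totalDegree ≤ D) :
    ∃ x ∈ hittingSet n D r, eval (fun i => (x i : ℂ)) f ≠ 0 := by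
  have hprime : Fact (qq n r).Prime := ⟨qq_prime n r⟩
  have hL : 1 ≤ Nat.log 2 r + 1 := Nat.le_add_left 1 _
  have hr : r < 2 ^ (Nat.log 2 r + 1) := Nat.lt_pow_succ_log_self (by norm_num) r
  have hlam := le_two_pow_clog (TT n r)
  obtain ⟨a, c, c', v, w, hc, hc', hv, hw, hne⟩ := exists_point (H := 2 ^ TT n r) hf h0 hdeg
    (D := sD (Nat.log 2 r + 1) (Nat.clog 2 (TT n r))) (p := sp (Nat.clog 2 (TT n r)))
    (β := sb (Nat.clog 2 (TT n r))) (two_le_sD hL _) (sD_pow hr _) rfl (fun _ => rfl) (sp_le _)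
    (Nat.two_pow_pos _) (fun j hj => (sb_upper _ j).trans (Nat.pow_le_pow_right (by norm_num) hj.le))
    (qq_cond n r) (n_le n r) (by
      have h1 := TT_ge n r
      have h2 := sb_lower (Nat.clog 2 (TT n r)) (TT n r)
      omega)
  have hprod := prod_sD (L := Nat.log 2 r + 1) hlam
  refine ⟨_, mem_hset (P := 2 ^ Nat.clog 2 (TT n r)) (H := 2 ^ TT n r) (sp_bound _) a hc hc'
    (hv.trans (Nat.mul_le_mul le_rfl hprod))
    (hw.trans (Nat.mul_le_mul le_rfl (Nat.mul_le_mul le_rfl hprod))), hne⟩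

private theorem two_pow_L (r : ℕ) : 2 ^ (Nat.log 2 r + 1) ≤ 2 * (r + 1) := by
  rw [pow_succ, mul_comm]
  refine Nat.mul_le_mul le_rfl ?_
  rcases Nat.eq_zero_or_pos r with h | h
  · rw [h]; simp
  · exact (Nat.pow_log_le_self 2 h.ne').trans (Nat.le_succ r)

theorem card_hittingSet (n D r : ℕ) :
    (hittingSet n D r).card ≤
      2 ^ 14 * (n + 1) ^ 3 * (D + 1) ^ 2 * (r + 1) ^ 14 * 2 ^ (6 * TT n r ^ 3) := by
  refine (card_hset _ _ _ _ _ _ _ _ _ _ _).trans ?_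
  have hT1 := TT_pos n r
  have h1 : ((2 ^ TT n r) ^ 2 ^ Nat.clog 2 (TT n r)) ^ TT n r ≤ 2 ^ (2 * TT n r ^ 3) := by
    rw [← pow_mul, ← pow_mul]
    refine Nat.pow_le_pow_right (by norm_num) ?_
    have h2 := two_pow_clog_le hT1
    calc TT n r * (2 ^ Nat.clog 2 (TT n r) * TT n r) ≤ TT n r * ((2 * TT n r) * TT n r) :=
          Nat.mul_le_mul le_rfl (Nat.mul_le_mul h2 le_rfl)
      _ = 2 * TT n r ^ 3 := by ring
  have h3 := qd_le n r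
  have h4 := q2d_le n r
  set M : ℕ := 2 ^ (7 * (Nat.log 2 r + 1) + TT n r) with hM
  have hM1 : 1 ≤ M := Nat.one_le_two_pow
  have h5 : D * M + 1 ≤ (D + 1) * M := by nlinarith
  have h6 : D * ((2 * qq n r) ^ dd n r * M) + 1 ≤ (D + 1) * ((n + 1) ^ 2 * M) := by
    have h7 : (2 * qq n r) ^ dd n r * M ≤ (n + 1) ^ 2 * M := Nat.mul_le_mul h4 le_rfl
    have h8 : 1 ≤ (n + 1) ^ 2 * M := Nat.one_le_iff_ne_zero.2 (by positivity)
    nlinarith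
  have h9 : M * M ≤ 2 ^ 14 * (r + 1) ^ 14 * 2 ^ (2 * TT n r ^ 3) := by
    have h10 : M * M = (2 ^ (Nat.log 2 r + 1)) ^ 14 * 2 ^ (2 * TT n r) := by
      rw [hM, ← pow_mul, ← pow_add, ← pow_add]
      congr 1
      ring
    rw [h10, ← mul_pow]
    refine Nat.mul_le_mul (Nat.pow_le_pow_left (two_pow_L r) 14) ?_
    refine Nat.pow_le_pow_right (by norm_num) ?_
    nlinarith [Nat.pow_le_pow_right hT1 (show 1 ≤ 3 by norm_num)]
  calc qq n r ^ dd n r * (((2 ^ TT n r) ^ 2 ^ Nat.clog 2 (TT n r)) ^ TT n r *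
        (((2 ^ TT n r) ^ 2 ^ Nat.clog 2 (TT n r)) ^ TT n r *
          ((D * M + 1) * (D * ((2 * qq n r) ^ dd n r * M) + 1))))
      ≤ (n + 1) * (2 ^ (2 * TT n r ^ 3) * (2 ^ (2 * TT n r ^ 3) *
          (((D + 1) * M) * ((D + 1) * ((n + 1) ^ 2 * M))))) :=
        Nat.mul_le_mul h3 (Nat.mul_le_mul h1 (Nat.mul_le_mul h1 (Nat.mul_le_mul h5 h6)))
    _ = (n + 1) ^ 3 * (D + 1) ^ 2 * 2 ^ (4 * TT n r ^ 3) * (M * M) := by
        rw [show 4 * TT n r ^ 3 = 2 * TT n r ^ 3 + 2 * TT n r ^ 3 by ring, pow_add]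
        ring
    _ ≤ (n + 1) ^ 3 * (D + 1) ^ 2 * 2 ^ (4 * TT n r ^ 3) *
          (2 ^ 14 * (r + 1) ^ 14 * 2 ^ (2 * TT n r ^ 3)) := Nat.mul_le_mul le_rfl h9
    _ = 2 ^ 14 * (n + 1) ^ 3 * (D + 1) ^ 2 * (r + 1) ^ 14 * 2 ^ (6 * TT n r ^ 3) := by
        rw [show 6 * TT n r ^ 3 = 4 * TT n r ^ 3 + 2 * TT n r ^ 3 by ring, pow_add]
        ring

private theorem poly_aux {D N K n r X : ℕ} (hn : n + 1 ≤ N) (hr : r + 1 ≤ N) (h2 : 2 ≤ N)
    (hX : X ≤ N ^ K) : 2 ^ 14 * (n + 1) ^ 3 * (D + 1) ^ 2 * (r + 1) ^ 14 * X ≤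
      (D + 1) ^ 2 * N ^ (31 + K) := by
  calc 2 ^ 14 * (n + 1) ^ 3 * (D + 1) ^ 2 * (r + 1) ^ 14 * X
      ≤ N ^ 14 * N ^ 3 * (D + 1) ^ 2 * N ^ 14 * N ^ K := by gcongr
    _ = (D + 1) ^ 2 * N ^ (31 + K) := by
      rw [pow_add]
      ring

theorem card_hittingSet_poly (n D r : ℕ) :
    (hittingSet n D r).card ≤ (D + 1) ^ 2 * (n + r + 2) ^ 162031 :=
  (card_hittingSet n D r).trans
    (poly_aux (K := 162000) (by omega) (by omega) (by omega) (two_pow_cube n r))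

/-- The logarithm to the base `D + 2` of the entries. -/
private theorem abs_aux {D Z Y M M2 A P V W : ℕ} (hZ : Z ≤ Y) (hM : 1 ≤ M) (hA : Y * M ≤ A)
    (hY : 1 ≤ Y) (hV : V ≤ D * M) (hW : W ≤ D * (Z * M)) (hP : P ≤ M2) :
    V ≤ (D + 2) ^ (1 + A) ∧ W ≤ (D + 2) ^ (1 + A) ∧ 2 ≤ (D + 2) ^ (1 + A) ∧
      ((((D + 2) ^ (1 + A)) ^ P) + Z) ^ (Z + 2) ≤ (D + 2) ^ (((1 + A) * M2 + Y) * (Y + 2)) := by
  have h1 : ∀ a : ℕ, a ≤ (D + 2) ^ a := fun a =>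
    (Nat.lt_two_pow_self (n := a)).le.trans (Nat.pow_le_pow_left (by omega) a)
  have h2 : D * A ≤ (D + 2) ^ (1 + A) := by
    rw [pow_add, pow_one]
    exact Nat.mul_le_mul (by omega) (h1 A)
  have h3 : M ≤ A := by nlinarith
  have h4 : Z * M ≤ A := (Nat.mul_le_mul hZ le_rfl).trans hA
  refine ⟨(hV.trans (Nat.mul_le_mul le_rfl h3)).trans h2,
    (hW.trans (Nat.mul_le_mul le_rfl h4)).trans h2, ?_, ?_⟩
  · calc 2 ≤ (D + 2) ^ 1 := by rw [pow_one]; omega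
      _ ≤ (D + 2) ^ (1 + A) := Nat.pow_le_pow_right (by omega) (by omega)
  · have h5 : (((D + 2) ^ (1 + A)) ^ P) + Z ≤ (D + 2) ^ ((1 + A) * M2 + Y) := by
      rw [← pow_mul, pow_add]
      have h6 : (D + 2) ^ ((1 + A) * P) ≤ (D + 2) ^ ((1 + A) * M2) :=
        Nat.pow_le_pow_right (by omega) (Nat.mul_le_mul le_rfl hP)
      have h7 : 1 ≤ (D + 2) ^ ((1 + A) * M2) := Nat.one_le_pow _ _ (by omega)
      have h8 : Y + 1 ≤ (D + 2) ^ Y :=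
        (Nat.lt_two_pow_self (n := Y)).trans_le (Nat.pow_le_pow_left (by omega) Y)
      calc (D + 2) ^ ((1 + A) * P) + Z ≤ (D + 2) ^ ((1 + A) * M2) + (D + 2) ^ ((1 + A) * M2) * Y := by
            refine Nat.add_le_add h6 (hZ.trans ?_)
            nlinarith
        _ = (D + 2) ^ ((1 + A) * M2) * (Y + 1) := by ring
        _ ≤ (D + 2) ^ ((1 + A) * M2) * (D + 2) ^ Y := Nat.mul_le_mul le_rfl h8
    calc ((((D + 2) ^ (1 + A)) ^ P) + Z) ^ (Z + 2) ≤ ((D + 2) ^ ((1 + A) * M2 + Y)) ^ (Z + 2) :=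
          Nat.pow_le_pow_left h5 _
      _ = (D + 2) ^ (((1 + A) * M2 + Y) * (Z + 2)) := by rw [← pow_mul]
      _ ≤ (D + 2) ^ (((1 + A) * M2 + Y) * (Y + 2)) :=
          Nat.pow_le_pow_right (by omega) (Nat.mul_le_mul le_rfl (by omega))

private theorem exp_aux {N K Y M2 A : ℕ} (hN : 2 ≤ N) (hY : Y ≤ N ^ 2) (hM : M2 ≤ N ^ (K + 14))
    (hA : A ≤ N ^ (K + 16)) : ((1 + A) * M2 + Y) * (Y + 2) ≤ N ^ (2 * K + 35) := by
  have h1 : 1 + A ≤ N ^ (K + 17) := by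
    calc 1 + A ≤ N ^ (K + 16) + N ^ (K + 16) :=
          Nat.add_le_add (Nat.one_le_pow _ _ (by omega)) hA
      _ = N ^ (K + 16) * 2 := by ring
      _ ≤ N ^ (K + 16) * N := Nat.mul_le_mul le_rfl hN
      _ = N ^ (K + 17) := by rw [← pow_succ]
  have h2 : (1 + A) * M2 + Y ≤ N ^ (2 * K + 32) := by
    calc (1 + A) * M2 + Y ≤ N ^ (K + 17) * N ^ (K + 14) + N ^ (2 * K + 31) := by
          refine Nat.add_le_add (Nat.mul_le_mul h1 hM) (hY.trans ?_)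
          exact Nat.pow_le_pow_right (by omega) (by omega)
      _ = N ^ (2 * K + 31) * 2 := by
          rw [← pow_add, show K + 17 + (K + 14) = 2 * K + 31 by ring]
          ring
      _ ≤ N ^ (2 * K + 31) * N := Nat.mul_le_mul le_rfl hN
      _ = N ^ (2 * K + 32) := by rw [← pow_succ]
  have h3 : Y + 2 ≤ N ^ 3 := by
    have : N ^ 3 = N ^ 2 * N := pow_succ N 2
    nlinarith
  calc ((1 + A) * M2 + Y) * (Y + 2) ≤ N ^ (2 * K + 32) * N ^ 3 := Nat.mul_le_mul h2 h3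
    _ = N ^ (2 * K + 35) := by rw [← pow_add]

private theorem pow_aux {N K r L T : ℕ} (hr : r + 1 ≤ N) (hN : 2 ≤ N) (hL : 2 ^ L ≤ 2 * (r + 1))
    (hT : 1 ≤ T) (hK : 2 ^ (6 * T ^ 3) ≤ N ^ K) : 2 ^ (7 * L + 2 * T) ≤ N ^ (K + 14) := by
  have h1 : 2 ^ (7 * L) ≤ N ^ 14 := by
    calc 2 ^ (7 * L) = (2 ^ L) ^ 7 := by rw [mul_comm, pow_mul]
      _ ≤ (N * N) ^ 7 := Nat.pow_le_pow_left (hL.trans (Nat.mul_le_mul hN hr)) 7
      _ = N ^ 14 := by ring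
  have h2 : 2 ^ (2 * T) ≤ N ^ K := by
    refine (Nat.pow_le_pow_right (by norm_num) ?_).trans hK
    have h3 : T ≤ T ^ 3 := Nat.le_self_pow (by norm_num) T
    omega
  calc 2 ^ (7 * L + 2 * T) = 2 ^ (2 * T) * 2 ^ (7 * L) := by rw [← pow_add, add_comm]
    _ ≤ N ^ K * N ^ 14 := Nat.mul_le_mul h2 h1
    _ = N ^ (K + 14) := by rw [← pow_add]

private theorem sq_aux {N K n X : ℕ} (hn : n + 1 ≤ N) (hX : X ≤ N ^ (K + 14)) :
    (n + 1) ^ 2 * X ≤ N ^ (K + 16) := by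
  calc (n + 1) ^ 2 * X ≤ N ^ 2 * N ^ (K + 14) := Nat.mul_le_mul (Nat.pow_le_pow_left hn 2) hX
    _ = N ^ (K + 16) := by rw [← pow_add, show 2 + (K + 14) = K + 16 by ring]

theorem abs_hittingSet {n D r : ℕ} {x : Fin n → ℤ} (hx : x ∈ hittingSet n D r) (i : Fin n) :
    |x i| ≤ ((D + 2) ^ (n + r + 2) ^ 324035 : ℕ) := by
  have hL : 1 ≤ Nat.log 2 r + 1 := Nat.le_add_left 1 _
  have hlam := le_two_pow_clog (TT n r)
  set M : ℕ := 2 ^ (7 * (Nat.log 2 r + 1) + TT n r) with hM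
  set M2 : ℕ := 2 ^ (7 * (Nat.log 2 r + 1) + 2 * TT n r) with hM2
  have hMM : M ≤ M2 := Nat.pow_le_pow_right (by norm_num) (by omega)
  obtain ⟨h1, h2, h3, h4⟩ := abs_aux (D := D) (Z := (2 * qq n r) ^ dd n r) (Y := (n + 1) ^ 2)
    (M := M) (M2 := M2) (A := (n + 1) ^ 2 * M2)
    (P := ∏ j ∈ Finset.range (TT n r), (sD (Nat.log 2 r + 1) (Nat.clog 2 (TT n r)) j + 1))
    (q2d_le n r) Nat.one_le_two_pow (Nat.mul_le_mul le_rfl hMM) (Nat.one_le_pow _ _ (by omega))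
    le_rfl le_rfl (prod_sD_succ hlam)
  have h5 := abs_hset (hD := fun j => (two_le_sD hL _ j).trans' (by norm_num)) h3 h1 h2 hx i
  refine h5.trans ?_
  have h6 : M2 ≤ (n + r + 2) ^ (162000 + 14) :=
    pow_aux (N := n + r + 2) (by omega) (by omega) (two_pow_L r) (TT_pos n r) (two_pow_cube n r)
  have h9 : (n + 1) ^ 2 * M2 ≤ (n + r + 2) ^ (162000 + 16) := sq_aux (by omega) h6
  have h10 := exp_aux (K := 162000) (Y := (n + 1) ^ 2) (by omega)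
    (Nat.pow_le_pow_left (show n + 1 ≤ n + r + 2 by omega) 2) h6 h9
  exact_mod_cast h4.trans (Nat.pow_le_pow_right (by omega) h10)

end AOR
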