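import Pool.Agent.Helper31.AO.Defs
import Pool.Agent.Helper7.PD.Taylor
import Pool.Agent.Helper7.PD.Closure

/-!
# AO-20: few partial derivatives

Proof. `ao_of_rankLe`: `S.piecewise x y = x 1_S + y 1_(S^c)` (restrictions by zero), so `f (S.piecewise x y) = ∑ k, A k (x 1_S) * B k (y 1_(S^c))` and `x ↦ A k (x 1_S)` is `eval` of
`bind₁ (fun i => if i ∈ S then X i else 0) (A k)` (`eval` of a `bind₁`: `MvPolynomial.aeval`/`eval₂Hom_bind₁` or induction). The other two are `rankLe_of_finrank` (`PD.Taylor`) and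
`RankLe.few_affine` (`PD.Closure`).
-/

namespace AOR

open MvPolynomial Pool.Agent.Helper7.PD

theorem ao_of_rankLe {n r : ℕ} {f : MvPolynomial (Fin n) ℂ} (h : RankLe r f) : AO r f := by
  classical
  intro S
  obtain ⟨A, B, hAB⟩ := h
  refine ⟨fun k => bind₁ (fun i => if i ∈ S then X i else 0) (A k),
    fun k => bind₁ (fun i => if i ∈ S then 0 else X i) (B k), fun x y => ?_⟩
  have h1 : S.piecewise x y = (fun i => if i ∈ S then x i else 0) +
      fun i => if i ∈ S then 0 else y i := by
    funext i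
    by_cases hi : i ∈ S
    · simp [hi]
    · simp [hi]
  have h2 : ∀ (g : MvPolynomial (Fin n) ℂ) (z : Fin n → ℂ),
      eval z (bind₁ (fun i => if i ∈ S then X i else 0) g) =
        eval (fun i => if i ∈ S then z i else 0) g := by
    intro g z
    have h := eval₂Hom_bind₁ (RingHom.id ℂ) z
      (fun i => if i ∈ S then (X i : MvPolynomial (Fin n) ℂ) else 0) g
    refine h.trans ?_
    have h4 : (fun i => (eval₂Hom (RingHom.id ℂ) z)
        (if i ∈ S then (X i : MvPolynomial (Fin n) ℂ) else 0)) =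
        fun i => if i ∈ S then z i else 0 := by
      funext i
      by_cases hi : i ∈ S <;> simp [hi]
    rw [h4]
    rfl
  have h3 : ∀ (g : MvPolynomial (Fin n) ℂ) (z : Fin n → ℂ),
      eval z (bind₁ (fun i => if i ∈ S then 0 else X i) g) =
        eval (fun i => if i ∈ S then 0 else z i) g := by
    intro g z
    have h := eval₂Hom_bind₁ (RingHom.id ℂ) z
      (fun i => if i ∈ S then 0 else (X i : MvPolynomial (Fin n) ℂ)) g
    refine h.trans ?_
    have h4 : (fun i => (eval₂Hom (RingHom.id ℂ) z)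
        (if i ∈ S then 0 else (X i : MvPolynomial (Fin n) ℂ))) =
        fun i => if i ∈ S then 0 else z i := by
      funext i
      by_cases hi : i ∈ S <;> simp [hi]
    rw [h4]
    rfl
  rw [h1, hAB]
  exact Finset.sum_congr rfl fun k _ => by rw [h2, h3]

theorem ao_of_partials {n r : ℕ} {f : MvPolynomial (Fin n) ℂ}
    (h : Module.finrank ℂ (partials f) ≤ r) : AO r f :=
  ao_of_rankLe (rankLe_of_finrank h)

theorem ao_of_few_affine {n κ d : ℕ} (l : Fin κ → MvPolynomial (Fin n) ℂ)
    (hl : ∀ j, (l j).totalDegree ≤ 1) (F : MvPolynomial (Fin κ) ℂ) (hF : F.totalDegree ≤ d) :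
    AO ((d + 1) ^ κ) (aeval l F) :=
  ao_of_rankLe (RankLe.few_affine l hl F hF)

end AOR
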