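import Pool.Agent.Helper31.AO.Defs

/-!
# AO-1: the rank lemma for plain ties

`K` is a type of colours, `D : Fin n → K` a colouring of the variables; `a l`, `a' l` (`l < p`) are `2 p` different colours. If
`f (y ∘ D)` is not identically zero, but vanishes whenever `y (a l) = y (a' l)` for one `l`, then `2 ^ p ≤ r`.

Proof. For `κ : Fin p → Bool` let `w κ : K → K` be the permutation which exchanges `a l` and `a' l` for the `l` with `κ l = true`
(an involution). Let `g = rename D f : MvPolynomial K ℂ`, so `eval y g = eval (fun i => y (D i)) f` (`eval_rename`). `g ≠ 0`, and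
`rename (w κ) g ≠ 0` for every `κ` (`rename_injective`). So `∏ κ, rename (w κ) g ≠ 0` and there is one `y : K → ℂ` where all factors are
different from zero (`MvPolynomial.funext`, contraposition): `f (y ∘ w κ ∘ D) ≠ 0` for all `κ`.
Let `S = {i | ∃ l, D i = a l}` (Finset, classical), and `A, B` from `hf S`. For `κ` put `x κ i = y (w κ (D i))`. Then
`M κ λ := eval (S.piecewise (x κ) (x λ)) f = ∑ k, eval (x κ) (A k) * eval (x λ) (B k)`.
`M κ κ ≠ 0`. For `κ ≠ λ` let `κ l ≠ λ l`: `S.piecewise (x κ) (x λ) = y' ∘ D`, where `y' : K → ℂ` is `y (w κ t)` for `t` of the form `a m` and `y (w λ t)`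
otherwise; and `y' (a l) = y' (a' l)` (if `κ l = true`, `λ l = false`: both are `y (a' l)`; if `κ l = false`, `λ l = true`: both are `y (a l)`).
So `M κ λ = 0` for `κ ≠ λ`. Hence the `2 ^ p` vectors `fun k => eval (x κ) (A k)` of `Fin r → ℂ` are linearly independent (multiply a
relation `∑ κ, c κ • u κ = 0` by `eval (x λ) (B k)` and sum over `k`: `c λ * M λ λ = 0`), so `2 ^ p = card ≤ finrank (Fin r → ℂ) = r`
(`LinearIndependent.fintype_card_le_finrank`).
-/

namespace AOR

open MvPolynomial

/-- exchange of the two halves -/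
private def aoSw {p : ℕ} (κ : Fin p → Bool) : Fin p ⊕ Fin p → Fin p ⊕ Fin p
  | Sum.inl l => if κ l then Sum.inr l else Sum.inl l
  | Sum.inr l => if κ l then Sum.inl l else Sum.inr l

private theorem aoSw_aoSw {p : ℕ} (κ : Fin p → Bool) (u : Fin p ⊕ Fin p) :
    aoSw κ (aoSw κ u) = u := by
  rcases u with l | l <;> cases h : κ l <;> simp [aoSw, h]

/-- the involution of the colours -/
private noncomputable def aoW {K : Type} {p : ℕ} (a a' : Fin p → K) (κ : Fin p → Bool) : K → K :=
  Function.extend (Sum.elim a a') (Sum.elim a a' ∘ aoSw κ) id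

private theorem aoW_apply {K : Type} {p : ℕ} {a a' : Fin p → K}
    (hinj : Function.Injective (Sum.elim a a')) (κ : Fin p → Bool) (u : Fin p ⊕ Fin p) :
    aoW a a' κ (Sum.elim a a' u) = Sum.elim a a' (aoSw κ u) :=
  hinj.extend_apply _ _ u

private theorem aoW_aoW {K : Type} {p : ℕ} {a a' : Fin p → K}
    (hinj : Function.Injective (Sum.elim a a')) (κ : Fin p → Bool) (t : K) :
    aoW a a' κ (aoW a a' κ t) = t := by
  by_cases h : ∃ u, Sum.elim a a' u = t
  · obtain ⟨u, rfl⟩ := h
    rw [aoW_apply hinj, aoW_apply hinj, aoSw_aoSw]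
  · have h1 : aoW a a' κ t = t := Function.extend_apply' _ _ _ h
    rw [h1, h1]

theorem rank_plain {n r p : ℕ} {f : MvPolynomial (Fin n) ℂ} (hf : AO r f) {K : Type} (D : Fin n → K)
    (a a' : Fin p → K) (hinj : Function.Injective (Sum.elim a a'))
    (hne : ∃ y : K → ℂ, eval (fun i => y (D i)) f ≠ 0)
    (hkill : ∀ (l : Fin p) (y : K → ℂ), y (a l) = y (a' l) → eval (fun i => y (D i)) f = 0) :
    2 ^ p ≤ r := by
  classical
  have hwi : ∀ κ : Fin p → Bool, Function.Injective (aoW a a' κ) := fun κ t t' h => by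
    rw [← aoW_aoW hinj κ t, h, aoW_aoW hinj κ t']
  obtain ⟨y₀, hy₀⟩ := hne
  have hg : rename D f ≠ 0 := by
    intro h
    apply hy₀
    have h1 : eval y₀ (rename D f) = eval (fun i => y₀ (D i)) f := eval_rename D y₀ f
    rw [← h1, h, map_zero]
  have hprod : ∏ κ : Fin p → Bool, rename (aoW a a' κ) (rename D f) ≠ 0 :=
    Finset.prod_ne_zero_iff.2 fun κ _ h =>
      hg ((rename_injective _ (hwi κ)) (by rw [h, map_zero]))
  obtain ⟨y, hy⟩ : ∃ y : K → ℂ,
      eval y (∏ κ : Fin p → Bool, rename (aoW a a' κ) (rename D f)) ≠ 0 := by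
    by_contra hcon
    push Not at hcon
    exact hprod (MvPolynomial.funext fun y => by rw [hcon y, map_zero])
  let x : (Fin p → Bool) → Fin n → ℂ := fun κ i => y (aoW a a' κ (D i))
  have hx : ∀ κ, eval (x κ) f ≠ 0 := by
    intro κ h
    apply hy
    rw [map_prod]
    refine Finset.prod_eq_zero (Finset.mem_univ κ) ?_
    have h1 : eval y (rename (aoW a a' κ) (rename D f)) = eval (x κ) f := by
      rw [eval_rename, eval_rename]
      rfl
    rw [h1, h]
  let S : Finset (Fin n) := Finset.univ.filter fun i => ∃ l, D i = a l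
  obtain ⟨A, B, hAB⟩ := hf S
  have hdiag : ∀ κ, ∑ k, eval (x κ) (A k) * eval (x κ) (B k) ≠ 0 := by
    intro κ
    rw [← hAB, Finset.piecewise_same]
    exact hx κ
  have hoff : ∀ κ μ, κ ≠ μ → ∑ k, eval (x κ) (A k) * eval (x μ) (B k) = 0 := by
    intro κ μ hκμ
    rw [← hAB]
    obtain ⟨l, hl⟩ := Function.ne_iff.1 hκμ
    let y' : K → ℂ := fun t => if ∃ m, t = a m then y (aoW a a' κ t) else y (aoW a a' μ t)
    have h1 : S.piecewise (x κ) (x μ) = fun i => y' (D i) := by
      funext i
      by_cases hi : ∃ m, D i = a m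
      · have h2 : i ∈ S := Finset.mem_filter.2 ⟨Finset.mem_univ _, hi⟩
        rw [Finset.piecewise_eq_of_mem _ _ _ h2]
        exact (if_pos hi).symm
      · have h2 : i ∉ S := fun h3 => hi (Finset.mem_filter.1 h3).2
        rw [Finset.piecewise_eq_of_notMem _ _ _ h2]
        exact (if_neg hi).symm
    have h2 : ∃ m, a l = a m := ⟨l, rfl⟩
    have h3 : ¬ ∃ m, a' l = a m := by
      rintro ⟨m, hm⟩
      have h4 := @hinj (Sum.inr l) (Sum.inl m) hm
      exact absurd h4 (by simp)
    have ha : y' (a l) = y (aoW a a' κ (a l)) := if_pos h2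
    have hb : y' (a' l) = y (aoW a a' μ (a' l)) := if_neg h3
    rw [h1]
    refine hkill l y' ?_
    rw [ha, hb]
    have h5 := aoW_apply hinj κ (Sum.inl l)
    have h6 := aoW_apply hinj μ (Sum.inr l)
    rw [Sum.elim_inl] at h5
    rw [Sum.elim_inr] at h6
    rw [h5, h6]
    cases hk : κ l <;> cases hm : μ l <;> simp [aoSw, hk, hm] at hl ⊢
  have hli : LinearIndependent ℂ fun κ : Fin p → Bool => fun k : Fin r => eval (x κ) (A k) := by
    rw [Fintype.linearIndependent_iff]
    intro c hc μ
    have h1 : ∑ κ, c κ * ∑ k, eval (x κ) (A k) * eval (x μ) (B k) = 0 := by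
      calc ∑ κ, c κ * ∑ k, eval (x κ) (A k) * eval (x μ) (B k)
          = ∑ κ, ∑ k, c κ * eval (x κ) (A k) * eval (x μ) (B k) := by
            refine Finset.sum_congr rfl fun κ _ => ?_
            rw [Finset.mul_sum]
            exact Finset.sum_congr rfl fun k _ => (mul_assoc _ _ _).symm
        _ = ∑ k, (∑ κ, c κ * eval (x κ) (A k)) * eval (x μ) (B k) := by
            rw [Finset.sum_comm]
            exact Finset.sum_congr rfl fun k _ => (Finset.sum_mul _ _ _).symm
        _ = 0 := by
            refine Finset.sum_eq_zero fun k _ => ?_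
            have h2 := congrFun hc k
            rw [Finset.sum_apply] at h2
            have h3 : ∑ κ, c κ * eval (x κ) (A k) = 0 := h2
            rw [h3, zero_mul]
    rw [Finset.sum_eq_single μ] at h1
    · exact (mul_eq_zero.1 h1).resolve_right (hdiag μ)
    · intro κ _ hκ
      rw [hoff κ μ hκ, mul_zero]
    · intro h
      exact absurd (Finset.mem_univ μ) h
  have hcard := hli.fintype_card_le_finrank
  rw [Module.finrank_fin_fun] at hcard
  simpa using hcard

end AOR
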