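import Pool.Agent.Helper31.AO.Defs

/-!
# AO-18: read-once oblivious branching programs in every order

`Roabp w σ f`: `f (x) = u^T M_0 (x_(σ 0)) M_1 (x_(σ 1)) ⋯ M_(n-1) (x_(σ (n-1))) v` with `w × w` matrices of univariate polynomials.

Proof of `ao_of_roabp`. Given `S`, choose `σ` and `m` (the number of elements of `S`) with `σ i ∈ S ↔ i < m` (`Equiv.subtypeCongr` / `Fintype.equivOfCardEq` between `{i // (i : ℕ) < m}` and
`{i // i ∈ S}` and between the complements). Split `List.finRange n = l₁ ++ l₂`, `l₁ = (List.finRange n).take m`, `l₂ = drop m`; members of `l₁` have value `< m`, members of `l₂` have value `≥ m`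
(`List.ofFn f = (List.finRange n).map f`). For a list `l` of indices let `Q l : Matrix (Fin w) (Fin w) (MvPolynomial (Fin n) ℂ)` be the product of the matrices
`(M i).map (Polynomial.aeval (X (σ i)))`; then `(Q l).map (eval x)` is the product of the `(M i).map (Polynomial.eval (x (σ i)))` (`RingHom.mapMatrix`, `map_list_prod`), and if `x`, `x'` agree at `σ i`
for all `i ∈ l` the values agree. So with `z = S.piecewise x y`: `f (z) = u ⬝ᵥ (Q l₁ (x) * Q l₂ (y)) *ᵥ v = ∑ k, (u ᵥ* Q l₁ (x)) k * (Q l₂ (y) *ᵥ v) k`, and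
`A k = ∑ a, C (u a) * Q l₁ a k`, `B k = ∑ b, Q l₂ k b * C (v b)`.
-/

namespace AOR

open MvPolynomial

/-- `f` is computed by a read-once oblivious branching program of width `w` which reads the variables in the
order `σ 0, σ 1, …`: `f (x) = u^T M_0 (x_(σ 0)) ⋯ M_(n-1) (x_(σ (n-1))) v` with `w × w` matrices `M_i` of
univariate polynomials. -/
def Roabp {n : ℕ} (w : ℕ) (σ : Equiv.Perm (Fin n)) (f : MvPolynomial (Fin n) ℂ) : Prop :=
  ∃ (M : Fin n → Matrix (Fin w) (Fin w) (Polynomial ℂ)) (u v : Fin w → ℂ), ∀ x : Fin n → ℂ,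
    eval x f = u ⬝ᵥ ((List.ofFn fun i => (M i).map (Polynomial.eval (x (σ i)))).prod.mulVec v)

private theorem exists_order {n : ℕ} (S : Finset (Fin n)) :
    ∃ (σ : Equiv.Perm (Fin n)) (m : ℕ), ∀ i : Fin n, σ i ∈ S ↔ (i : ℕ) < m := by
  classical
  have hm : S.card ≤ n := by
    simpa using Finset.card_le_univ S
  have hcard : Fintype.card {i : Fin n // (i : ℕ) < S.card} = Fintype.card {i : Fin n // i ∈ S} := by
    rw [Fintype.card_coe]
    have e : {i : Fin n // (i : ℕ) < S.card} ≃ Fin S.card :=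
      { toFun := fun i => ⟨i.1.1, i.2⟩
        invFun := fun j => ⟨⟨j.1, lt_of_lt_of_le j.2 hm⟩, j.2⟩
        left_inv := fun i => rfl
        right_inv := fun j => rfl }
    rw [Fintype.card_congr e, Fintype.card_fin]
  let e := Fintype.equivOfCardEq hcard
  refine ⟨e.extendSubtype, S.card, fun i => ⟨fun h => ?_, fun h => ?_⟩⟩
  · by_contra hi
    exact Equiv.extendSubtype_not_mem e i hi h
  · exact Equiv.extendSubtype_mem e i h

private theorem eval_aeval_X {n : ℕ} (x : Fin n → ℂ) (j : Fin n) (p : Polynomial ℂ) :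
    eval x (Polynomial.aeval (X j : MvPolynomial (Fin n) ℂ) p) = Polynomial.eval (x j) p := by
  have h1 := Polynomial.aeval_algHom_apply (MvPolynomial.aeval x : MvPolynomial (Fin n) ℂ →ₐ[ℂ] ℂ)
    (X j) p
  rw [MvPolynomial.aeval_X] at h1
  rw [Polynomial.coe_aeval_eq_eval] at h1
  rw [h1]
  rfl

theorem ao_of_roabp {n w : ℕ} {f : MvPolynomial (Fin n) ℂ} (h : ∀ σ, Roabp w σ f) : AO w f := by
  classical
  intro S
  obtain ⟨σ, m, hσ⟩ := exists_order S
  obtain ⟨M, u, v, hf⟩ := h σ
  set Mx : Fin n → Matrix (Fin w) (Fin w) (MvPolynomial (Fin n) ℂ) := fun i =>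
    (M i).map (fun p => Polynomial.aeval (X (σ i) : MvPolynomial (Fin n) ℂ) p) with hMx
  set g : (Fin n → ℂ) → Fin n → Matrix (Fin w) (Fin w) ℂ := fun x i =>
    (M i).map (Polynomial.eval (x (σ i))) with hg
  have hMg : ∀ x i, (eval x).mapMatrix (Mx i) = g x i := by
    intro x i
    ext a b
    simp only [hMx, hg, RingHom.mapMatrix_apply, Matrix.map_apply]
    exact eval_aeval_X x (σ i) _
  set Q1 := ((List.ofFn Mx).take m).prod with hQ1
  set Q2 := ((List.ofFn Mx).drop m).prod with hQ2
  have h1 : ∀ x, (eval x).mapMatrix Q1 = ((List.ofFn (g x)).take m).prod := by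
    intro x
    rw [hQ1, map_list_prod, List.map_take, List.map_ofFn]
    congr 3
    funext i
    exact hMg x i
  have h2 : ∀ x, (eval x).mapMatrix Q2 = ((List.ofFn (g x)).drop m).prod := by
    intro x
    rw [hQ2, map_list_prod, List.map_drop, List.map_ofFn]
    congr 3
    funext i
    exact hMg x i
  refine ⟨fun k => ∑ a, C (u a) * Q1 a k, fun k => ∑ b, Q2 k b * C (v b), fun x y => ?_⟩
  have h3 : (List.ofFn (g (S.piecewise x y))).take m = (List.ofFn (g x)).take m := by
    apply List.ext_getElem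
    · simp
    · intro i hi hi'
      simp only [List.getElem_take, List.getElem_ofFn]
      have him : i < m := by
        simp only [List.length_take, List.length_ofFn] at hi
        omega
      simp only [hg]
      rw [Finset.piecewise_eq_of_mem _ _ _ ((hσ _).2 him)]
  have h4 : (List.ofFn (g (S.piecewise x y))).drop m = (List.ofFn (g y)).drop m := by
    apply List.ext_getElem
    · simp
    · intro i hi hi'
      simp only [List.getElem_drop, List.getElem_ofFn]
      simp only [hg]
      rw [Finset.piecewise_eq_of_notMem]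
      rw [hσ]
      simp
  have h5 : (List.ofFn (g (S.piecewise x y))).prod = (eval x).mapMatrix Q1 * (eval y).mapMatrix Q2 := by
    rw [h1, h2, ← h3, ← h4, List.prod_take_mul_prod_drop]
  have h6 : eval (S.piecewise x y) f = u ⬝ᵥ ((List.ofFn (g (S.piecewise x y))).prod.mulVec v) :=
    hf _
  rw [h6, h5, ← Matrix.mulVec_mulVec, Matrix.dotProduct_mulVec]
  unfold dotProduct
  refine Finset.sum_congr rfl fun k _ => ?_
  congr 1
  · rw [Matrix.vecMul, dotProduct, map_sum]
    refine Finset.sum_congr rfl fun a _ => ?_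
    rw [map_mul, eval_C]
    rfl
  · rw [Matrix.mulVec, dotProduct, map_sum]
    refine Finset.sum_congr rfl fun a _ => ?_
    rw [map_mul, eval_C]
    rfl

end AOR
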