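import Pool.Agent.Helper31.AO.Roabp

/-!
# AO-22: polynomials of rank at most `r` across all partitions have programs of width `r` in every order (Nisan)

Proof. Fix `σ`. For `j ≤ n` let `S_j = {σ i | i < j}`. `hf S_j` gives `A_k, B_k`. Let `V_j` be the span (in the space of functions `(Fin n → ℂ) → ℂ`, or of polynomials) of the functions
`F_y : x ↦ f (S_j.piecewise x y)`, over all `y`; `V_j` is contained in the span of the `r` functions `A_k`, so it has dimension `≤ r` and there are `P^j_0, …, P^j_(r-1)` in `V_j` spanning `V_j`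
(for instance a basis padded by zeros). For `j = 0` the functions are constants, for `j = n` it is `f` itself.
Step: `P^(j+1)_k ∈ V_(j+1)` is a finite combination of functions `x ↦ f (S_(j+1).piecewise x y)`; fix the value `t` of `x (σ j)`: as a function of the other variables of `x` it is `F_(y')` in `V_j` with
`y' = update y (σ j) t`. Hence for every `t`, `P^(j+1)_k (update x (σ j) t) = ∑ l, P^j_l (x) m_(l, k) (t)` (all functions in `V_j` only depend on `x` on `S_j`). To have POLYNOMIAL `m_(l, k)` in `t`:
`f (S_(j+1).piecewise (update x (σ j) t) y) = ∑ e ≤ D, t ^ e * g_e (x)`, where `g_e` is (Lagrange interpolation in `t` at `D + 1` values, `D` the total degree of `f`) a linear combination of the values at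
`t = 0, …, D`, so `g_e ∈ V_j`, `g_e = ∑ l, a_(e, l) P^j_l`, and `m_(l, k) = ∑ e, a_(e, l) X ^ e`. (Alternative: take a basis `P^j_l` of `V_j` and dual points `x_l` with `P^j_l (x_l') = δ`, or a basis of
the dual of `V_j` made of evaluations; then `m_(l, k) (t) = P^(j+1)_k (update x_l (σ j) t)` is clearly a polynomial in `t`.)
So with row vectors `P^j (x)` : `P^(j+1) (x) = P^j (x) ᵥ* M_j (x (σ j))`, `P^n (x) ⬝ᵥ v = f (x)`, `P^0` a constant vector `u`. (`r = 0`: then `f = 0`.) The program is `u, M_0, …, M_(n-1), v`
(`List.ofFn` product: induction over `j`, or `Matrix.vecMul` and `List.prod_append`, `List.ofFn_succ'`).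
-/

namespace AOR

open MvPolynomial

private theorem dual_points {X : Type*} [Nonempty X] : ∀ (r : ℕ) (V : Submodule ℂ (X → ℂ)),
    FiniteDimensional ℂ V → Module.finrank ℂ V ≤ r →
    ∃ (P : Fin r → X → ℂ) (x : Fin r → X), (∀ l, P l ∈ V) ∧
      ∀ g ∈ V, ∀ z, g z = ∑ l, g (x l) * P l z := by
  intro r
  induction r with
  | zero =>
    intro V hV h
    have h0 : V = ⊥ := Submodule.finrank_eq_zero.1 (Nat.le_zero.1 h)
    refine ⟨fun l => l.elim0, fun l => l.elim0, fun l => l.elim0, fun g hg z => ?_⟩
    rw [h0, Submodule.mem_bot] at hg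
    simp [hg]
  | succ r ih =>
    intro V hV h
    by_cases h0 : V = ⊥
    · refine ⟨fun _ => 0, fun _ => Classical.arbitrary X, fun l => V.zero_mem, fun g hg z => ?_⟩
      rw [h0, Submodule.mem_bot] at hg
      simp [hg]
    · obtain ⟨g1, hg1, hne⟩ := Submodule.exists_mem_ne_zero_of_ne_bot h0
      obtain ⟨x0, hx0⟩ := Function.ne_iff.1 hne
      simp only [Pi.zero_apply] at hx0
      set g0 : X → ℂ := (g1 x0)⁻¹ • g1 with hg0def
      have hg0 : g0 ∈ V := V.smul_mem _ hg1
      have hg00 : g0 x0 = 1 := by simp [hg0def, hx0]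
      set V' : Submodule ℂ (X → ℂ) :=
        V ⊓ LinearMap.ker (LinearMap.proj x0 : (X → ℂ) →ₗ[ℂ] ℂ) with hV'
      have hle : V' ≤ V := inf_le_left
      have hlt : V' < V := by
        refine lt_of_le_of_ne hle fun he => ?_
        have h2 : g0 ∈ V' := he ▸ hg0
        have h1 : g0 x0 = 0 := h2.2
        rw [hg00] at h1
        exact one_ne_zero h1
      have hfr := Submodule.finrank_lt_finrank_of_lt hlt
      obtain ⟨P', x', hP', hx'⟩ := ih V' (Submodule.finiteDimensional_of_le hle) (by omega)
      refine ⟨Fin.cons (g0 - ∑ l, g0 (x' l) • P' l) P', Fin.cons x0 x', ?_, ?_⟩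
      · intro l
        refine Fin.cases ?_ (fun l => ?_) l
        · rw [Fin.cons_zero]
          exact V.sub_mem hg0 (V.sum_mem fun l _ => V.smul_mem _ (hle (hP' l)))
        · rw [Fin.cons_succ]
          exact hle (hP' l)
      · intro g hg z
        have h3 : (g - g x0 • g0) ∈ V' := by
          refine ⟨V.sub_mem hg (V.smul_mem _ hg0), ?_⟩
          simp [hg00]
        have h2 := hx' (g - g x0 • g0) h3 z
        rw [Fin.sum_univ_succ]
        simp only [Fin.cons_zero, Fin.cons_succ, Pi.sub_apply, Pi.smul_apply, smul_eq_mul,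
          Finset.sum_apply] at h2 ⊢
        simp only [sub_mul, Finset.sum_sub_distrib] at h2
        have h4 : ∑ l, g x0 * g0 (x' l) * P' l z = g x0 * ∑ l, g0 (x' l) * P' l z := by
          rw [Finset.mul_sum]
          exact Finset.sum_congr rfl fun l _ => mul_assoc _ _ _
        rw [h4] at h2
        linear_combination h2

/-- The functions obtained by fixing the variables outside `S`. -/
private noncomputable def VS {n : ℕ} (f : MvPolynomial (Fin n) ℂ) (S : Finset (Fin n)) :
    Submodule ℂ ((Fin n → ℂ) → ℂ) :=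
  Submodule.span ℂ (Set.range fun y : Fin n → ℂ => fun x : Fin n → ℂ => eval (S.piecewise x y) f)

private theorem VS_le {n r : ℕ} {f : MvPolynomial (Fin n) ℂ} (hf : AO r f) (S : Finset (Fin n)) :
    FiniteDimensional ℂ (VS f S) ∧ Module.finrank ℂ (VS f S) ≤ r := by
  obtain ⟨A, B, hAB⟩ := hf S
  set U : Submodule ℂ ((Fin n → ℂ) → ℂ) :=
    Submodule.span ℂ (Set.range fun k : Fin r => fun x : Fin n → ℂ => eval x (A k)) with hU
  have hle : VS f S ≤ U := by
    refine Submodule.span_le.2 ?_
    rintro _ ⟨y, rfl⟩
    have h1 : (fun x : Fin n → ℂ => eval (S.piecewise x y) f) =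
        ∑ k : Fin r, eval y (B k) • fun x : Fin n → ℂ => eval x (A k) := by
      funext x
      rw [hAB x y, Finset.sum_apply]
      exact Finset.sum_congr rfl fun k _ => by rw [Pi.smul_apply, smul_eq_mul, mul_comm]
    show (fun x : Fin n → ℂ => eval (S.piecewise x y) f) ∈ U
    rw [h1]
    exact U.sum_mem fun k _ => U.smul_mem _ (Submodule.subset_span ⟨k, rfl⟩)
  have hfd : FiniteDimensional ℂ U := FiniteDimensional.span_of_finite ℂ (Set.finite_range _)
  refine ⟨Submodule.finiteDimensional_of_le hle, (Submodule.finrank_mono hle).trans ?_⟩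
  have h2 := finrank_range_le_card (R := ℂ) fun k : Fin r => fun x : Fin n → ℂ => eval x (A k)
  rw [Fintype.card_fin] at h2
  exact h2

private theorem VS_poly {n : ℕ} {f : MvPolynomial (Fin n) ℂ} {S : Finset (Fin n)}
    {g : (Fin n → ℂ) → ℂ} (hg : g ∈ VS f S) : ∃ p : MvPolynomial (Fin n) ℂ, ∀ x, g x = eval x p := by
  refine Submodule.span_induction (p := fun g _ => ∃ p : MvPolynomial (Fin n) ℂ, ∀ x, g x = eval x p)
    ?_ ?_ ?_ ?_ hg
  · rintro _ ⟨y, rfl⟩
    refine ⟨bind₁ (fun i => if i ∈ S then X i else C (y i)) f, fun x => ?_⟩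
    show eval (S.piecewise x y) f = _
    show eval₂Hom (RingHom.id ℂ) (S.piecewise x y) f = eval₂Hom (RingHom.id ℂ) x (bind₁ _ f)
    rw [eval₂Hom_bind₁]
    congr 2
    funext i
    by_cases hi : i ∈ S
    · simp [hi]
    · simp [hi]
  · exact ⟨0, fun x => by simp⟩
  · rintro g g' _ _ ⟨p, hp⟩ ⟨p', hp'⟩
    exact ⟨p + p', fun x => by simp [hp, hp']⟩
  · rintro c g _ ⟨p, hp⟩
    exact ⟨C c * p, fun x => by simp [hp]⟩

private theorem update_poly {n : ℕ} (p : MvPolynomial (Fin n) ℂ) (x : Fin n → ℂ) (i : Fin n) :
    ∃ q : Polynomial ℂ, ∀ t, eval (Function.update x i t) p = Polynomial.eval t q := by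
  refine ⟨aeval (fun j => if j = i then Polynomial.X else Polynomial.C (x j)) p, fun t => ?_⟩
  have h1 : (Polynomial.evalRingHom t) (aeval (fun j => if j = i then Polynomial.X else
      Polynomial.C (x j)) p) = eval (Function.update x i t) p := by
    rw [MvPolynomial.aeval_def, MvPolynomial.hom_eval₂]
    show _ = eval₂ (RingHom.id ℂ) (Function.update x i t) p
    congr 1
    · ext c
      simp
    · funext j
      by_cases hj : j = i
      · subst hj
        simp
      · simp [hj]
  exact h1.symm

theorem roabp_of_ao {n r : ℕ} {f : MvPolynomial (Fin n) ℂ} (hf : AO r f) (σ : Equiv.Perm (Fin n)) :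
    Roabp r σ f := by
  classical
  set S : ℕ → Finset (Fin n) := fun j => Finset.univ.filter fun i => ((σ.symm i : Fin n) : ℕ) < j
    with hS
  have hex : ∀ j, ∃ (P : Fin r → (Fin n → ℂ) → ℂ) (x : Fin r → Fin n → ℂ),
      (∀ l, P l ∈ VS f (S j)) ∧ ∀ g ∈ VS f (S j), ∀ z, g z = ∑ l, g (x l) * P l z := fun j =>
    dual_points r _ (VS_le hf (S j)).1 (VS_le hf (S j)).2
  choose P z hP hz using hex
  -- restriction
  have hres : ∀ (j : Fin n) (t : ℂ), ∀ g ∈ VS f (S ((j : ℕ) + 1)),
      (fun x => g (Function.update x (σ j) t)) ∈ VS f (S j) := by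
    intro j t g hg
    refine Submodule.span_induction
      (p := fun g _ => (fun x => g (Function.update x (σ j) t)) ∈ VS f (S j)) ?_ ?_ ?_ ?_ hg
    · rintro _ ⟨y, rfl⟩
      refine Submodule.subset_span ⟨Function.update y (σ j) t, ?_⟩
      funext x
      show eval ((S j).piecewise x (Function.update y (σ j) t)) f =
        eval ((S ((j : ℕ) + 1)).piecewise (Function.update x (σ j) t) y) f
      congr 2
      funext i
      by_cases h1 : ((σ.symm i : Fin n) : ℕ) < j
      · have h2 : i ∈ S j := by
          simp only [hS, Finset.mem_filter, Finset.mem_univ, true_and]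
          exact h1
        have h3 : i ∈ S ((j : ℕ) + 1) := by
          simp only [hS, Finset.mem_filter, Finset.mem_univ, true_and]
          omega
        have h4 : i ≠ σ j := by
          rintro rfl
          simp at h1
        rw [Finset.piecewise_eq_of_mem _ _ _ h2, Finset.piecewise_eq_of_mem _ _ _ h3,
          Function.update_of_ne h4]
      · have h2 : i ∉ S j := by simpa [hS] using h1
        rw [Finset.piecewise_eq_of_notMem _ _ _ h2]
        by_cases h4 : i = σ j
        · subst h4
          have h3 : σ j ∈ S ((j : ℕ) + 1) := by simp [hS]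
          rw [Finset.piecewise_eq_of_mem _ _ _ h3, Function.update_self, Function.update_self]
        · have h5 : ((σ.symm i : Fin n) : ℕ) ≠ j := by
            intro h
            apply h4
            rw [← Fin.ext h, Equiv.apply_symm_apply]
          have h3 : i ∉ S ((j : ℕ) + 1) := by
            simp only [hS, Finset.mem_filter, Finset.mem_univ, true_and]
            omega
          rw [Finset.piecewise_eq_of_notMem _ _ _ h3, Function.update_of_ne h4]
    · exact (VS f (S j)).zero_mem
    · intro g g' _ _ h h'
      exact (VS f (S j)).add_mem h h'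
    · intro c g _ h
      exact (VS f (S j)).smul_mem c h
  -- the matrices
  have hM : ∀ (j : Fin n) (l k : Fin r), ∃ q : Polynomial ℂ, ∀ t,
      P ((j : ℕ) + 1) k (Function.update (z j l) (σ j) t) = Polynomial.eval t q := by
    intro j l k
    obtain ⟨p, hp⟩ := VS_poly (hP ((j : ℕ) + 1) k)
    obtain ⟨q, hq⟩ := update_poly p (z j l) (σ j)
    exact ⟨q, fun t => by rw [hp, hq]⟩
  choose M hM using hM
  refine ⟨fun j => Matrix.of fun l k => M j l k, fun l => P 0 l 0, fun l => eval (z n l) f,
    fun x => ?_⟩
  set Nx : Fin n → Matrix (Fin r) (Fin r) ℂ := fun j =>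
    (Matrix.of fun l k => M j l k).map (Polynomial.eval (x (σ j))) with hNx
  have hstep : ∀ j : Fin n, (fun k => P ((j : ℕ) + 1) k x) =
      Matrix.vecMul (fun l => P j l x) (Nx j) := by
    intro j
    funext k
    have h1 := hz j _ (hres j (x (σ j)) _ (hP ((j : ℕ) + 1) k)) x
    simp only [Function.update_eq_self] at h1
    rw [h1, Matrix.vecMul, dotProduct]
    refine Finset.sum_congr rfl fun l _ => ?_
    rw [hM j l k, mul_comm]
    rfl
  have hind : ∀ j ≤ n, (fun l => P j l x) =
      Matrix.vecMul (fun l => P 0 l 0) ((List.ofFn Nx).take j).prod := by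
    intro j
    induction j with
    | zero =>
      intro _
      rw [List.take_zero, List.prod_nil, Matrix.vecMul_one]
      funext l
      have h1 : ∀ g ∈ VS f (S 0), g x = g 0 := by
        intro g hg
        refine Submodule.span_induction (p := fun g _ => g x = g 0) ?_ ?_ ?_ ?_ hg
        · rintro _ ⟨y, rfl⟩
          show eval ((S 0).piecewise x y) f = eval ((S 0).piecewise 0 y) f
          have h0 : S 0 = ∅ := by simp [hS]
          rw [h0, Finset.piecewise_empty, Finset.piecewise_empty]
        · rfl
        · intro g g' _ _ h h'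
          simp [h, h']
        · intro c g _ h
          simp [h]
      exact h1 _ (hP 0 l)
    | succ j ih =>
      intro hj
      have h1 := ih (by omega)
      have h2 := hstep ⟨j, hj⟩
      rw [h2]
      show Matrix.vecMul (fun l => P j l x) (Nx ⟨j, hj⟩) = _
      rw [h1, Matrix.vecMul_vecMul]
      congr 1
      rw [List.take_succ_eq_append_getElem (by simpa using hj), List.prod_append, List.prod_singleton,
        List.getElem_ofFn]
  have hn := hind n le_rfl
  rw [List.take_of_length_le (by simp)] at hn
  have hfin : (fun x => eval x f) ∈ VS f (S n) := by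
    refine Submodule.subset_span ⟨0, ?_⟩
    funext x
    have h0 : S n = Finset.univ := by simp [hS]
    show eval ((S n).piecewise x 0) f = _
    rw [h0, Finset.piecewise_univ]
  have h5 := hz n _ hfin x
  rw [Matrix.dotProduct_mulVec, ← hn, h5]
  unfold dotProduct
  exact Finset.sum_congr rfl fun l _ => mul_comm _ _

end AOR
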