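import Pool.Agent.Helper31.AO.TDefs

/-!
# AO-7: a parameter which separates the tainted nodes

Proof. For a pair `ν ≠ ν'` in `Z` there is at most one `α` with `par j α ν = par j α ν'`: the entry `j + 1` gives
`ν (j+1) - α ν j = ν' (j+1) - α ν' j` (`ent ν j`; index `⟨j + 1, _⟩`); if `ν j ≠ ν' j` then `α = (ν (j+1) - ν' (j+1)) / (ν j - ν' j)`; if `ν j = ν' j` then `ν = ν'` by `eq_of_par`.
So the set of bad parameters is contained in the image of `Z ×ˢ Z` under `(ν, ν') ↦ (ν (j+1) - ν' (j+1)) / (ν j - ν' j)`, which has at most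
`Z.card ^ 2 < card F` elements.
-/

namespace AOR

theorem sep {F : Type} [Field F] [Fintype F] {d j : ℕ} (hj : j < d) (Z : Finset (Fin (d + 1) → F))
    (hZ : Z.card ^ 2 < Fintype.card F) (hN : ∀ ν ∈ Z, IsNode j ν) :
    ∃ α : F, ∀ ν ∈ Z, ∀ ν' ∈ Z, par j α ν = par j α ν' → ν = ν' := by
  classical
  obtain ⟨I, hI⟩ : ∃ I : Finset F, I = (Z ×ˢ Z).image fun x =>
      (ent x.1 (j + 1) - ent x.2 (j + 1)) / (ent x.1 j - ent x.2 j) := ⟨_, rfl⟩
  have h1 : I.card < Fintype.card F := by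
    rw [hI]
    refine lt_of_le_of_lt Finset.card_image_le ?_
    rw [Finset.card_product, ← sq]
    exact hZ
  obtain ⟨α, hα⟩ : ∃ α, α ∉ I := by
    by_contra hcon
    push Not at hcon
    rw [Finset.eq_univ_iff_forall.2 hcon, Finset.card_univ] at h1
    exact lt_irrefl _ h1
  refine ⟨α, fun ν hν ν' hν' hp => ?_⟩
  by_cases he : ent ν j = ent ν' j
  · exact eq_of_par hj (hN ν hν) (hN ν' hν') hp he
  · exfalso
    rw [hI] at hα
    refine hα (Finset.mem_image.2 ⟨(ν, ν'), Finset.mem_product.2 ⟨hν, hν'⟩, ?_⟩)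
    have h3 := congrFun hp ⟨j + 1, by omega⟩
    rw [par, par] at h3
    have hle : ¬ (j + 1 ≤ j) := by omega
    simp only [if_neg hle, if_true] at h3
    show (ent ν (j + 1) - ent ν' (j + 1)) / (ent ν j - ent ν' j) = α
    rw [div_eq_iff (sub_ne_zero.2 he)]
    have h4 : ent ν (j + 1) = ν ⟨j + 1, by omega⟩ := by rw [ent, dif_pos]
    have h5 : ent ν' (j + 1) = ν' ⟨j + 1, by omega⟩ := by rw [ent, dif_pos]
    rw [h4, h5]
    linear_combination h3

end AOR
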