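import Pool.Agent.Helper31.AO.Final
import Pool.Agent.Helper31.AO.Eps

/-!
# AO-23: sharper bounds
-/

namespace AOR

open MvPolynomial

/-- `2 ^ T` is polylogarithmic. -/
theorem two_pow_TT (n r : ℕ) : 2 ^ TT n r ≤ (2 * Nat.log 2 (n + r + 2)) ^ 15 := by
  have hm : Nat.log 2 (n + r + 2) ≠ 0 := (Nat.log_pos (by norm_num) (by omega)).ne'
  calc 2 ^ TT n r ≤ 2 ^ (15 * (Nat.log 2 (Nat.log 2 (n + r + 2)) + 1)) :=
        Nat.pow_le_pow_right (by norm_num) (TT_le n r)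
    _ = (2 * 2 ^ Nat.log 2 (Nat.log 2 (n + r + 2))) ^ 15 := by
        rw [mul_comm 15, pow_mul, pow_succ 2 (Nat.log 2 _), mul_comm (2 ^ _) 2]
    _ ≤ (2 * Nat.log 2 (n + r + 2)) ^ 15 :=
        Nat.pow_le_pow_left (Nat.mul_le_mul le_rfl (Nat.pow_log_le_self 2 hm)) 15

private theorem two_pow_L' (r : ℕ) : 2 ^ (Nat.log 2 r + 1) ≤ 2 * (r + 1) := by
  rw [pow_succ, mul_comm]
  refine Nat.mul_le_mul le_rfl ?_
  rcases Nat.eq_zero_or_pos r with h | h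
  · rw [h]; simp
  · exact (Nat.pow_log_le_self 2 h.ne').trans (Nat.le_succ r)

private theorem sharp_aux {Y Z X B P M2 E : ℕ} (hB : B ≤ X ^ 8) (hX : 1 ≤ X) (h2 : 2 ≤ B)
    (hZ : Z ≤ Y) (hYB : Y ≤ B) (hP : P ≤ M2) (hM : 1 ≤ M2) (hE : 8 * ((M2 + 1) * (Y + 2)) ≤ E) :
    (B ^ P + Z) ^ (Z + 2) ≤ X ^ E := by
  have h1 : B ^ P + Z ≤ B ^ (M2 + 1) := by
    calc B ^ P + Z ≤ B ^ M2 + B ^ M2 := by
          refine Nat.add_le_add (Nat.pow_le_pow_right (by omega) hP) ((hZ.trans hYB).trans ?_)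
          exact Nat.le_self_pow (by omega) B
      _ = B ^ M2 * 2 := by ring
      _ ≤ B ^ M2 * B := Nat.mul_le_mul le_rfl h2
      _ = B ^ (M2 + 1) := by rw [← pow_succ]
  calc (B ^ P + Z) ^ (Z + 2) ≤ (B ^ (M2 + 1)) ^ (Z + 2) := Nat.pow_le_pow_left h1 _
    _ = B ^ ((M2 + 1) * (Z + 2)) := by rw [← pow_mul]
    _ ≤ B ^ ((M2 + 1) * (Y + 2)) :=
        Nat.pow_le_pow_right (by omega) (Nat.mul_le_mul le_rfl (by omega))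
    _ ≤ (X ^ 8) ^ ((M2 + 1) * (Y + 2)) := Nat.pow_le_pow_left hB _
    _ = X ^ (8 * ((M2 + 1) * (Y + 2))) := by rw [← pow_mul]
    _ ≤ X ^ E := Nat.pow_le_pow_right hX hE

private theorem base_aux {a b c t M : ℕ} (ha : 2 ≤ a) (hb : 1 ≤ b) (hc : 1 ≤ c) (ht : 1 ≤ t)
    (hM : M ≤ 2 ^ 7 * c ^ 7 * t) : a * (b ^ 2 * M) ≤ (a * b * c * t) ^ 8 := by
  have e2 : 2 ^ 7 ≤ a ^ 7 := Nat.pow_le_pow_left ha 7
  have e3 : b ^ 2 ≤ b ^ 8 := Nat.pow_le_pow_right hb (by norm_num)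
  have e4 : c ^ 7 ≤ c ^ 8 := Nat.pow_le_pow_right hc (by norm_num)
  have e5 : t ≤ t ^ 8 := Nat.le_self_pow (by norm_num) _
  calc a * (b ^ 2 * M) ≤ a * (b ^ 2 * (2 ^ 7 * c ^ 7 * t)) :=
        Nat.mul_le_mul le_rfl (Nat.mul_le_mul le_rfl hM)
    _ ≤ a * (b ^ 8 * (a ^ 7 * c ^ 8 * t ^ 8)) :=
        Nat.mul_le_mul le_rfl (Nat.mul_le_mul e3 (Nat.mul_le_mul (Nat.mul_le_mul e2 e4) e5))
    _ = (a * b * c * t) ^ 8 := by ring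

private theorem expo_aux {b c t M2 : ℕ} (hb : 1 ≤ b) (hM : 1 ≤ M2) (h : M2 ≤ 2 ^ 7 * c ^ 7 * t) :
    8 * ((M2 + 1) * (b ^ 2 + 2)) ≤ 2 ^ 13 * b ^ 2 * c ^ 7 * t := by
  have hb2 : 1 ≤ b ^ 2 := Nat.one_le_pow _ _ hb
  calc 8 * ((M2 + 1) * (b ^ 2 + 2)) ≤ 8 * ((M2 + M2) * (b ^ 2 + 3 * b ^ 2)) := by
        refine Nat.mul_le_mul le_rfl (Nat.mul_le_mul (by omega) (by omega))
    _ = 2 ^ 6 * b ^ 2 * M2 := by ring
    _ ≤ 2 ^ 6 * b ^ 2 * (2 ^ 7 * c ^ 7 * t) := Nat.mul_le_mul le_rfl h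
    _ = 2 ^ 13 * b ^ 2 * c ^ 7 * t := by ring

private theorem pow_aux1 (r T : ℕ) :
    2 ^ (7 * (Nat.log 2 r + 1) + T) ≤ 2 ^ 7 * (r + 1) ^ 7 * 2 ^ T := by
  rw [pow_add, mul_comm 7, pow_mul, ← mul_pow]
  exact Nat.mul_le_mul (Nat.pow_le_pow_left (two_pow_L' r) 7) le_rfl

theorem abs_hittingSet_sharp {n D r : ℕ} {x : Fin n → ℤ} (hx : x ∈ hittingSet n D r) (i : Fin n) :
    |x i| ≤ ((((D + 2) * (n + 1) * (r + 1) * 2 ^ TT n r) ^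
      (2 ^ 13 * (n + 1) ^ 2 * (r + 1) ^ 7 * 2 ^ (2 * TT n r)) : ℕ) : ℤ) := by
  have hL : 1 ≤ Nat.log 2 r + 1 := Nat.le_add_left 1 _
  have hlam := le_two_pow_clog (TT n r)
  have hM := pow_aux1 r (TT n r)
  have hM2 := pow_aux1 r (2 * TT n r)
  have hP := prod_sD_succ (L := Nat.log 2 r + 1) hlam
  have hM1 : 1 ≤ 2 ^ (7 * (Nat.log 2 r + 1) + TT n r) := Nat.one_le_two_pow
  have hM21 : 1 ≤ 2 ^ (7 * (Nat.log 2 r + 1) + 2 * TT n r) := Nat.one_le_two_pow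
  have h5 := fun (B : ℕ) hB h1 h2 => abs_hset (B := B)
    (hD := fun j => (two_le_sD hL _ j).trans' (by norm_num)) hB h1 h2 hx i
  generalize 2 ^ (7 * (Nat.log 2 r + 1) + TT n r) = M at hM hM1 h5
  generalize 2 ^ (7 * (Nat.log 2 r + 1) + 2 * TT n r) = M2 at hM2 hP hM21
  have hq := q2d_le n r
  generalize (2 * qq n r) ^ dd n r = Z at hq h5
  generalize ∏ j ∈ Finset.range (TT n r), (sD (Nat.log 2 r + 1) (Nat.clog 2 (TT n r)) j + 1) = P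
    at hP h5
  have hn1 : 1 ≤ (n + 1) ^ 2 := Nat.one_le_pow _ _ (by omega)
  have hT1 : 1 ≤ 2 ^ TT n r := Nat.one_le_two_pow
  generalize 2 ^ TT n r = t at hM hT1
  generalize 2 ^ (2 * TT n r) = t2 at hM2
  have hMn : 1 ≤ (n + 1) ^ 2 * M := Nat.mul_pos hn1 hM1
  have h3 : 2 ≤ (D + 2) * ((n + 1) ^ 2 * M) :=
    calc 2 = 2 * 1 := (mul_one 2).symm
      _ ≤ (D + 2) * ((n + 1) ^ 2 * M) := Nat.mul_le_mul (Nat.le_add_left 2 D) hMn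
  have h1 : D * M ≤ (D + 2) * ((n + 1) ^ 2 * M) :=
    Nat.mul_le_mul (Nat.le_add_right D 2) (Nat.le_mul_of_pos_left M hn1)
  have h2 : D * (Z * M) ≤ (D + 2) * ((n + 1) ^ 2 * M) :=
    Nat.mul_le_mul (Nat.le_add_right D 2) (Nat.mul_le_mul hq le_rfl)
  have hYB : (n + 1) ^ 2 ≤ (D + 2) * ((n + 1) ^ 2 * M) :=
    calc (n + 1) ^ 2 = 1 * ((n + 1) ^ 2 * 1) := by rw [one_mul, mul_one]
      _ ≤ (D + 2) * ((n + 1) ^ 2 * M) :=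
        Nat.mul_le_mul (Nat.le_add_left 1 _) (Nat.mul_le_mul le_rfl hM1)
  have hBX := base_aux (a := D + 2) (b := n + 1) (c := r + 1) (Nat.le_add_left 2 D)
    (Nat.le_add_left 1 n) (Nat.le_add_left 1 r) hT1 hM
  have hE := expo_aux (b := n + 1) (c := r + 1) (Nat.le_add_left 1 n) hM21 hM2
  have hX : 1 ≤ (D + 2) * (n + 1) * (r + 1) * t :=
    Nat.mul_pos (Nat.mul_pos (Nat.mul_pos (Nat.succ_pos _) (Nat.succ_pos _)) (Nat.succ_pos _)) hT1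
  have h6 := sharp_aux hBX hX h3 hq hYB hP hM21 hE
  refine (h5 _ h3 h1 h2).trans ?_
  exact_mod_cast h6

/-- The size is almost `n ^ 3 d ^ 2 r ^ 14`. -/
theorem card_eps {ε : ℝ} (hε : 0 < ε) {C : ℝ}
    (hC : ∀ n r : ℕ, (2 : ℝ) ^ (6 * TT n r ^ 3) ≤ C * ((n + r + 2 : ℕ) : ℝ) ^ ε) (n d r : ℕ) :
    ((hittingSet n d r).card : ℝ) ≤ 2 ^ 14 * C * 2 ^ ε *
      (((n : ℝ) + 1) ^ (3 + ε) * ((d : ℝ) + 1) ^ 2 * ((r : ℝ) + 1) ^ (14 + ε)) := by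
  have h1 : ((hittingSet n d r).card : ℝ) ≤ 2 ^ 14 * ((n : ℝ) + 1) ^ 3 * ((d : ℝ) + 1) ^ 2 *
      ((r : ℝ) + 1) ^ 14 * 2 ^ (6 * TT n r ^ 3) := by
    exact_mod_cast card_hittingSet n d r
  have hC0 : 0 ≤ C := by
    have h := hC 0 0
    have h2 : (0 : ℝ) < ((0 + 0 + 2 : ℕ) : ℝ) ^ ε := by positivity
    have h3 : (0 : ℝ) ≤ C * ((0 + 0 + 2 : ℕ) : ℝ) ^ ε := le_trans (by positivity) h
    exact nonneg_of_mul_nonneg_left h3 h2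
  have h2 : ((n + r + 2 : ℕ) : ℝ) ^ ε ≤ 2 ^ ε * (((n : ℝ) + 1) ^ ε * ((r : ℝ) + 1) ^ ε) := by
    rw [← Real.mul_rpow (by positivity) (by positivity),
      ← Real.mul_rpow (by positivity) (by positivity)]
    refine Real.rpow_le_rpow (by positivity) ?_ hε.le
    push_cast
    nlinarith [mul_nonneg (Nat.cast_nonneg (α := ℝ) n) (Nat.cast_nonneg (α := ℝ) r)]
  have e1 : ((n : ℝ) + 1) ^ (3 + ε) = ((n : ℝ) + 1) ^ 3 * ((n : ℝ) + 1) ^ ε := by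
    rw [Real.rpow_add (by positivity)]
    norm_num
  have e2 : ((r : ℝ) + 1) ^ (14 + ε) = ((r : ℝ) + 1) ^ 14 * ((r : ℝ) + 1) ^ ε := by
    rw [Real.rpow_add (by positivity)]
    norm_num
  calc ((hittingSet n d r).card : ℝ) ≤ 2 ^ 14 * ((n : ℝ) + 1) ^ 3 * ((d : ℝ) + 1) ^ 2 *
        ((r : ℝ) + 1) ^ 14 * 2 ^ (6 * TT n r ^ 3) := h1
    _ ≤ 2 ^ 14 * ((n : ℝ) + 1) ^ 3 * ((d : ℝ) + 1) ^ 2 * ((r : ℝ) + 1) ^ 14 *
        (C * (2 ^ ε * (((n : ℝ) + 1) ^ ε * ((r : ℝ) + 1) ^ ε))) := by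
        refine mul_le_mul_of_nonneg_left ?_ (by positivity)
        exact (hC n r).trans (mul_le_mul_of_nonneg_left h2 hC0)
    _ = 2 ^ 14 * C * 2 ^ ε *
      (((n : ℝ) + 1) ^ (3 + ε) * ((d : ℝ) + 1) ^ 2 * ((r : ℝ) + 1) ^ (14 + ε)) := by
        rw [e1, e2]
        ring

private theorem simple_card {n D r C X : ℕ} (hX : X ≤ C * (n + r + 2)) :
    2 ^ 14 * (n + 1) ^ 3 * (D + 1) ^ 2 * (r + 1) ^ 14 * X ≤
      2 ^ 15 * C * (n + 1) ^ 4 * (D + 1) ^ 2 * (r + 1) ^ 15 := by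
  have h1 : n + r + 2 ≤ 2 * ((n + 1) * (r + 1)) := by nlinarith [Nat.zero_le (n * r)]
  calc 2 ^ 14 * (n + 1) ^ 3 * (D + 1) ^ 2 * (r + 1) ^ 14 * X
      ≤ 2 ^ 14 * (n + 1) ^ 3 * (D + 1) ^ 2 * (r + 1) ^ 14 * (C * (2 * ((n + 1) * (r + 1)))) :=
        Nat.mul_le_mul le_rfl (hX.trans (Nat.mul_le_mul le_rfl h1))
    _ = 2 ^ 15 * C * (n + 1) ^ 4 * (D + 1) ^ 2 * (r + 1) ^ 15 := by ring

private theorem exists_nat_C : ∃ C : ℕ, ∀ n r : ℕ, 2 ^ (6 * TT n r ^ 3) ≤ C * (n + r + 2) := by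
  obtain ⟨C, hC⟩ := two_pow_cube_eps (ε := 1) one_pos
  refine ⟨⌈C⌉₊, fun n r => ?_⟩
  have h1 := hC n r
  rw [Real.rpow_one] at h1
  have h2 : (2 : ℝ) ^ (6 * TT n r ^ 3) ≤ ((⌈C⌉₊ * (n + r + 2) : ℕ) : ℝ) := by
    rw [Nat.cast_mul]
    exact h1.trans (mul_le_mul_of_nonneg_right (Nat.le_ceil C) (Nat.cast_nonneg _))
  exact_mod_cast h2

/-- The size, simple form. -/
theorem card_simple : ∃ C : ℕ, ∀ n D r : ℕ,
    (hittingSet n D r).card ≤ C * (n + 1) ^ 4 * (D + 1) ^ 2 * (r + 1) ^ 15 := by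
  obtain ⟨C, hC⟩ := exists_nat_C
  exact ⟨2 ^ 15 * C, fun n D r => (card_hittingSet n D r).trans (simple_card (hC n r))⟩

private theorem simple_abs {n D r C t : ℕ} (ht : t ^ 3 ≤ C * (n + r + 2)) :
    ((D + 2) * (n + 1) * (r + 1) * t) ^ (2 ^ 13 * (n + 1) ^ 2 * (r + 1) ^ 7 * t ^ 2) ≤
      (D + 2) ^ (2 ^ 15 * C * (n + 1) ^ 4 * (r + 1) ^ 9) := by
  rcases Nat.eq_zero_or_pos t with h0 | h0
  · subst h0
    simp only [mul_zero, ne_eq, OfNat.ofNat_ne_zero, not_false_eq_true, zero_pow, pow_zero]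
    exact Nat.one_le_pow _ _ (Nat.succ_pos _)
  have h1 : n + r + 2 ≤ 2 * ((n + 1) * (r + 1)) := by nlinarith [Nat.zero_le (n * r)]
  have hY : 1 ≤ (n + 1) * (r + 1) * t := Nat.mul_pos (Nat.mul_pos (Nat.succ_pos _) (Nat.succ_pos _)) h0
  have h2 : (D + 2) * (n + 1) * (r + 1) * t ≤ (D + 2) ^ (2 * ((n + 1) * (r + 1) * t)) := by
    calc (D + 2) * (n + 1) * (r + 1) * t = (D + 2) * ((n + 1) * (r + 1) * t) := by ring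
      _ ≤ (D + 2) ^ ((n + 1) * (r + 1) * t) * (D + 2) ^ ((n + 1) * (r + 1) * t) := by
          refine Nat.mul_le_mul ?_ ?_
          · exact Nat.le_self_pow (by omega) _
          · exact (Nat.lt_two_pow_self).le.trans (Nat.pow_le_pow_left (Nat.le_add_left 2 D) _)
      _ = (D + 2) ^ (2 * ((n + 1) * (r + 1) * t)) := by rw [← pow_add, two_mul]
  have h3 : 2 * ((n + 1) * (r + 1) * t) * (2 ^ 13 * (n + 1) ^ 2 * (r + 1) ^ 7 * t ^ 2) ≤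
      2 ^ 15 * C * (n + 1) ^ 4 * (r + 1) ^ 9 := by
    calc 2 * ((n + 1) * (r + 1) * t) * (2 ^ 13 * (n + 1) ^ 2 * (r + 1) ^ 7 * t ^ 2)
        = 2 ^ 14 * (n + 1) ^ 3 * (r + 1) ^ 8 * t ^ 3 := by ring
      _ ≤ 2 ^ 14 * (n + 1) ^ 3 * (r + 1) ^ 8 * (C * (2 * ((n + 1) * (r + 1)))) :=
          Nat.mul_le_mul le_rfl (ht.trans (Nat.mul_le_mul le_rfl h1))
      _ = 2 ^ 15 * C * (n + 1) ^ 4 * (r + 1) ^ 9 := by ring
  calc ((D + 2) * (n + 1) * (r + 1) * t) ^ (2 ^ 13 * (n + 1) ^ 2 * (r + 1) ^ 7 * t ^ 2)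
      ≤ ((D + 2) ^ (2 * ((n + 1) * (r + 1) * t))) ^ (2 ^ 13 * (n + 1) ^ 2 * (r + 1) ^ 7 * t ^ 2) :=
        Nat.pow_le_pow_left h2 _
    _ = (D + 2) ^ (2 * ((n + 1) * (r + 1) * t) * (2 ^ 13 * (n + 1) ^ 2 * (r + 1) ^ 7 * t ^ 2)) := by
        rw [← pow_mul]
    _ ≤ (D + 2) ^ (2 ^ 15 * C * (n + 1) ^ 4 * (r + 1) ^ 9) :=
        Nat.pow_le_pow_right (Nat.succ_pos _) h3

/-- The coordinates, simple form. -/
theorem abs_simple : ∃ C : ℕ, ∀ n D r : ℕ, ∀ x ∈ hittingSet n D r, ∀ i : Fin n,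
    |x i| ≤ (((D + 2) ^ (C * (n + 1) ^ 4 * (r + 1) ^ 9) : ℕ) : ℤ) := by
  obtain ⟨C, hC⟩ := exists_nat_C
  refine ⟨2 ^ 15 * C, fun n D r x hx i => ?_⟩
  have h1 := abs_hittingSet_sharp hx i
  have h2 : (2 ^ TT n r) ^ 3 ≤ C * (n + r + 2) := by
    refine le_trans ?_ (hC n r)
    rw [← pow_mul]
    refine Nat.pow_le_pow_right (by norm_num) ?_
    have h3 : TT n r ≤ TT n r ^ 3 := Nat.le_self_pow (by norm_num) _
    omega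
  have h4 := simple_abs (D := D) h2
  rw [← pow_mul, mul_comm (TT n r) 2] at h4
  exact h1.trans (by exact_mod_cast h4)

end AOR
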