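import Pool.Agent.Helper31.AO.Curve

/-!
# AO-5: one level of ties with curves

Proof. Facts on `slot` (`List.find?` on `List.range`): `slot p e k = some l → l < p ∧ e l = k`; `slot p e k = none ↔ ∀ l < p, e l ≠ k`.
For a finite set `E ⊆ range h` (the exceptional pairs) consider the substitution, for `w : ℕ → ℂ` (`w (2 k), w (2 k + 1)` belong to the pair `k`):
`U E w j = if j / 2 ∈ E then w j else if j % 2 = 0 then w (2 (j / 2)) ^ D else w (2 (j / 2)) ^ D + w (2 (j / 2))`.
For `E = range h` we have `U E w j = w j` for all `j < 2 h`, so the value is not identically zero (`hne`, `hρ`). Choose `E ⊆ range h` with `E.card` minimal such that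
`∃ w, eval (fun i => (g i).eval (U E w (ρ i))) f ≠ 0`.
(1) `E.card ≤ p`: `rank_curve` for `g' i = (g i).comp u` with `u = X`, `X ^ D`, `X ^ D + X` according to the definition of `U` and
`ρ' i = ρ i` if `ρ i / 2 ∈ E`, `2 (ρ i / 2)` otherwise (so that `(g' i).eval (w (ρ' i)) = (g i).eval (U E w (ρ i))`), `a l = 2 k_l`, `a' l = 2 k_l + 1` for an
enumeration `k_l` of `E`: if `w (2 k) = x ^ D`, `w (2 k + 1) = x ^ D + x` for one `k ∈ E`, then `U E w = U (E.erase k) w'` with `w' = update w (2 k) x`, so the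
value is zero by minimality. Hence `(D + 1) ^ E.card ≤ r < (D + 1) ^ (p + 1)` and `E.card ≤ p`.
(2) Choose `e : ℕ → ℕ` with `E = e '' {l | l < p}` if `E` is not empty (then `p ≥ 1`; enumerate `E`, repeat the last element), `e l < h`; if `E` is empty
and `p > 0`, replace `E` by `{0}` first (allowed if `h > 0`: exceptional pairs can be added, as `U E w = U (insert k E) w''` with `w''` = the two values; this
shows that the value for `insert k E` is not identically zero). (`h = 0` is impossible if `n > 0` by `hρ`; if `n = 0` the value does not depend on anything, `e = 0`.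
In all cases the value is not identically zero for the set `{e l | l < p} ∩ range h` or `{e l | l < p}`, because it contains `E`.)
(3) For `v` := `v k = w (2 k)` for `k < h`, `v (h + l) = w (2 (e l) + 1)` for `l < p`: `lev D h p e v j = U E' w j` for all `j < 2 h`, where `E' = {e l | l < p}`: by the cases of
`slot p e (j / 2)`. (`v` is well defined: `v m = if m < h then w (2 m) else w (2 (e (m - h)) + 1)`.)
-/

namespace AOR

open MvPolynomial

theorem slot_eq_some {p : ℕ} {e : ℕ → ℕ} {k l : ℕ} (h : slot p e k = some l) : l < p ∧ e l = k := by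
  rw [slot] at h
  have h1 := List.mem_of_find?_eq_some h
  have h2 := List.find?_some h
  exact ⟨List.mem_range.1 h1, by simpa using h2⟩

theorem slot_eq_none {p : ℕ} {e : ℕ → ℕ} {k : ℕ} (h : slot p e k = none) : ∀ l < p, e l ≠ k := by
  intro l hl
  rw [slot, List.find?_eq_none] at h
  have h1 := h l (List.mem_range.2 hl)
  simpa using h1

private noncomputable def scU (D : ℕ) (E : Finset ℕ) (w : ℕ → ℂ) (j : ℕ) : ℂ :=
  if j / 2 ∈ E then w j else if j % 2 = 0 then w (2 * (j / 2)) ^ D
    else w (2 * (j / 2)) ^ D + w (2 * (j / 2))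

private theorem scU_mono (D : ℕ) {E E' : Finset ℕ} (hE : E ⊆ E') (w : ℕ → ℂ) :
    ∃ w' : ℕ → ℂ, scU D E' w' = scU D E w := by
  obtain ⟨w', hw'⟩ : ∃ w' : ℕ → ℂ, ∀ j, w' j = if j / 2 ∈ E' then scU D E w j else w j :=
    ⟨_, fun _ => rfl⟩
  refine ⟨w', ?_⟩
  funext j
  by_cases h : j / 2 ∈ E'
  · rw [scU, if_pos h, hw', if_pos h]
  · have h1 : j / 2 ∉ E := fun h2 => h (hE h2)
    have h2 : 2 * (j / 2) / 2 = j / 2 := by omega
    have h3 : w' (2 * (j / 2)) = w (2 * (j / 2)) := by rw [hw', h2, if_neg h]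
    rw [scU, if_neg h, h3, scU, if_neg h1]

private theorem scU_erase (D : ℕ) {E : Finset ℕ} {k : ℕ} (hk : k ∈ E) (v : ℕ → ℂ) (w : ℂ)
    (h0 : v (2 * k) = w ^ D) (h1 : v (2 * k + 1) = w ^ D + w) :
    scU D (E.erase k) (Function.update v (2 * k) w) = scU D E v := by
  funext j
  by_cases hj : j / 2 = k
  · have h2 : j / 2 ∉ E.erase k := by
      rw [hj]
      exact Finset.notMem_erase k E
    have h3 : j / 2 ∈ E := by rw [hj]; exact hk
    rw [scU, if_neg h2, scU, if_pos h3, hj, Function.update_self]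
    by_cases h4 : j % 2 = 0
    · have h5 : j = 2 * k := by omega
      rw [if_pos h4, h5, h0]
    · have h5 : j = 2 * k + 1 := by omega
      rw [if_neg h4, h5, h1]
  · have h5 : j ≠ 2 * k := by omega
    have h6 : 2 * (j / 2) ≠ 2 * k := by omega
    by_cases h3 : j / 2 ∈ E
    · have h2 : j / 2 ∈ E.erase k := Finset.mem_erase.2 ⟨hj, h3⟩
      rw [scU, if_pos h2, scU, if_pos h3, Function.update_of_ne h5]
    · have h2 : j / 2 ∉ E.erase k := fun h => h3 (Finset.mem_of_mem_erase h)
      rw [scU, if_neg h2, scU, if_neg h3, Function.update_of_ne h6]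

theorem stage_curve {n r D h p H : ℕ} {f : MvPolynomial (Fin n) ℂ} (hf : AO r f) (hD : 2 ≤ D)
    (hp : r < (D + 1) ^ (p + 1)) (hH : h ≤ H) (hH0 : 0 < H) (g : Fin n → Polynomial ℂ) (ρ : Fin n → ℕ)
    (hρ : ∀ i, ρ i < 2 * h)
    (hne : ∃ v : ℕ → ℂ, eval (fun i => (g i).eval (v (ρ i))) f ≠ 0) :
    ∃ e : ℕ → ℕ, (∀ l, e l < H) ∧
      ∃ v : ℕ → ℂ, eval (fun i => (g i).eval (lev D h p e v (ρ i))) f ≠ 0 := by
  classical
  obtain ⟨Q, hQ⟩ : ∃ Q : Finset ℕ → Prop, ∀ E, Q E ↔
      ∃ w : ℕ → ℂ, eval (fun i => (g i).eval (scU D E w (ρ i))) f ≠ 0 := ⟨_, fun _ => Iff.rfl⟩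
  have hQtop : Q (Finset.range h) := by
    rw [hQ]
    obtain ⟨v, hv⟩ := hne
    refine ⟨v, ?_⟩
    have h1 : ∀ i, scU D (Finset.range h) v (ρ i) = v (ρ i) := by
      intro i
      rw [scU, if_pos]
      rw [Finset.mem_range]
      have := hρ i
      omega
    simp only [h1]
    exact hv
  have hQmono : ∀ E E' : Finset ℕ, E ⊆ E' → Q E → Q E' := by
    intro E E' hEE' h1
    rw [hQ] at h1 ⊢
    obtain ⟨w, hw⟩ := h1
    obtain ⟨w', hw'⟩ := scU_mono D hEE' w
    refine ⟨w', ?_⟩
    rw [hw']
    exact hw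
  obtain ⟨E, hE, hmin⟩ := Finset.exists_min_image ((Finset.range h).powerset.filter Q) Finset.card
    ⟨Finset.range h, Finset.mem_filter.2 ⟨Finset.mem_powerset_self _, hQtop⟩⟩
  rw [Finset.mem_filter, Finset.mem_powerset] at hE
  obtain ⟨hEh, hQE⟩ := hE
  -- at most `p` exceptional pairs
  have hcard : E.card ≤ p := by
    have hr : (D + 1) ^ E.card ≤ r := by
      let k : Fin E.card → ℕ := fun l => E.orderEmbOfFin rfl l
      have hkE : ∀ l, k l ∈ E := fun l => E.orderEmbOfFin_mem rfl l
      have hkinj : Function.Injective k := (E.orderEmbOfFin rfl).injective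
      obtain ⟨g', hg'⟩ : ∃ g' : Fin n → Polynomial ℂ, g' = fun i => (g i).comp
          (if ρ i / 2 ∈ E then Polynomial.X else if ρ i % 2 = 0 then Polynomial.X ^ D
            else Polynomial.X ^ D + Polynomial.X) := ⟨_, rfl⟩
      obtain ⟨ρ', hρ'⟩ : ∃ ρ' : Fin n → ℕ, ρ' = fun i =>
          if ρ i / 2 ∈ E then ρ i else 2 * (ρ i / 2) := ⟨_, rfl⟩
      have hev : ∀ v : ℕ → ℂ, (fun i => (g' i).eval (v (ρ' i))) =
          fun i => (g i).eval (scU D E v (ρ i)) := by
        intro v
        funext i
        rw [hg', hρ', scU]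
        simp only [Polynomial.eval_comp]
        congr 1
        split_ifs <;> simp
      refine rank_curve hf hD g' ρ' (fun l => 2 * k l) (fun l => 2 * k l + 1) ?_ ?_ ?_
      · intro x y hxy
        rcases x with x | x <;> rcases y with y | y <;>
          simp only [Sum.elim_inl, Sum.elim_inr] at hxy
        · rw [hkinj (show k x = k y by omega)]
        · omega
        · omega
        · rw [hkinj (show k x = k y by omega)]
      · rw [hQ] at hQE
        obtain ⟨w, hw⟩ := hQE
        exact ⟨w, by rw [hev]; exact hw⟩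
      · intro l v w h1 h2
        rw [hev]
        by_contra hcon
        rw [← scU_erase D (hkE l) v w h1 h2] at hcon
        have h3 : Q (E.erase (k l)) := by
          rw [hQ]
          exact ⟨_, hcon⟩
        have h4 := hmin (E.erase (k l)) (Finset.mem_filter.2
          ⟨Finset.mem_powerset.2 ((Finset.erase_subset _ _).trans hEh), h3⟩)
        have h5 := Finset.card_erase_lt_of_mem (hkE l)
        omega
    have h1 : (D + 1) ^ E.card < (D + 1) ^ (p + 1) := lt_of_le_of_lt hr hp
    have h2 := (Nat.pow_lt_pow_iff_right (show 1 < D + 1 by omega)).1 h1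
    omega
  obtain ⟨e, heH, hEe⟩ : ∃ e : ℕ → ℕ, (∀ l, e l < H) ∧ E ⊆ (Finset.range p).image e := by
    refine ⟨fun l => if hl : l < E.card then E.orderEmbOfFin rfl ⟨l, hl⟩ else 0, ?_, ?_⟩
    · intro l
      show (if hl : l < E.card then E.orderEmbOfFin rfl ⟨l, hl⟩ else 0) < H
      split_ifs with hl
      · have h1 := Finset.mem_range.1 (hEh (E.orderEmbOfFin_mem rfl ⟨l, hl⟩))
        omega
      · exact hH0
    · intro x hx
      have h1 : x ∈ Set.range (E.orderEmbOfFin rfl) := by
        rw [Finset.range_orderEmbOfFin]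
        exact hx
      obtain ⟨l, hl⟩ := h1
      rw [Finset.mem_image]
      refine ⟨l, Finset.mem_range.2 (lt_of_lt_of_le l.2 hcard), ?_⟩
      rw [dif_pos l.2]
      exact hl
  have hQe := hQmono _ _ hEe hQE
  rw [hQ] at hQe
  obtain ⟨w, hw⟩ := hQe
  refine ⟨e, heH, fun m => if m < h then w (2 * m) else w (2 * e (m - h) + 1), ?_⟩
  have hlev : ∀ i, lev D h p e (fun m => if m < h then w (2 * m) else w (2 * e (m - h) + 1)) (ρ i) =
      scU D ((Finset.range p).image e) w (ρ i) := by
    intro i
    have hi := hρ i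
    have hi2 : ρ i / 2 < h := by omega
    rw [lev, scU]
    cases hs : slot p e (ρ i / 2) with
    | none =>
      have h1 := slot_eq_none hs
      have h2 : ρ i / 2 ∉ (Finset.range p).image e := by
        rw [Finset.mem_image]
        rintro ⟨l, hl, hl2⟩
        exact h1 l (Finset.mem_range.1 hl) hl2
      rw [if_neg h2]
      simp only [if_pos hi2]
    | some l =>
      obtain ⟨h1, h2⟩ := slot_eq_some hs
      have h3 : ρ i / 2 ∈ (Finset.range p).image e :=
        Finset.mem_image.2 ⟨l, Finset.mem_range.2 h1, h2⟩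
      rw [if_pos h3]
      have h4 : ¬ (h + l < h) := by omega
      have h5 : h + l - h = l := by omega
      simp only [if_pos hi2, if_neg h4, h5, h2]
      split_ifs with h6
      · congr 1
        omega
      · congr 1
        omega
  simp only [hlev]
  exact hw

end AOR
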