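import Pool.Agent.Helper31.AO.Plain

/-!
# AO-4: all but few groups of colours can be tied at once

`C` is a colouring of the variables, `M i = some b` if the colour of `i` belongs to the group `b`. Tying the groups outside `E`: all
colours of the group `b ∉ E` are replaced by one colour `Sum.inr b`.

Proof. Write `T E i` for the colour in the conclusion (a colouring with colours in `K ⊕ B`), `NZ D` for `∃ y, eval (fun i => y (D i)) f ≠ 0`.
(0) `NZ` is monotone: if `D i = D i' → D' i = D' i'` for all `i, i'` (`D'` is coarser) and `NZ D'` then `NZ D` (`y' ∘ D' = y ∘ D` with `y (D i) = y' (D' i)`,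
`Function.factorsThrough` / `Function.extend`).
(1) `NZ (T univ)` as `T univ` is finer... (`T univ i = inl (C i)`). Choose `E` with `NZ (T E)` and `E.card` minimal (`Finset.exists_min_image` or
`Nat.find` / `exists_minimal`). So for `b ∈ E`: `¬ NZ (T (E.erase b))`.
(2) Consider all colourings `D : Fin n → K ⊕ B` such that (a) `T E i = T E i' → D i = D i'`, (b) `D i = D i' → T E i = T E i' ∨ ∃ b ∈ E, M i = some b ∧ M i' = some b`,
(c) `NZ D`. `T E` is one. Choose one with `(Finset.univ.image D).card` minimal (classical).
(3) For `b ∈ E` there are `i, i'` with `M i = M i' = some b`, `D i ≠ D i'`: otherwise `D` is coarser than `T (E.erase b)` [if `T (E.erase b) i = T (E.erase b) i'` then `T E i = T E i'`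
(use (a)), or `M i = M i' = some b` (use the assumption)], so `NZ (T (E.erase b))` by (0).
(4) Choose such `i_b, i'_b` for `b ∈ E`; colours `D i_b`, `D i'_b`. They are all different (hypothesis `hinj` of `rank_plain`): for `b ≠ b'` use (b) and `hCM`
(`T E i = T E i'` and `M i = some b`, `b ∈ E` gives `C i = C i'`, so `M i' = some b`).
(5) If `y (D i_b) = y (D i'_b)` then `f (y ∘ D) = 0`: let `D' = D` with the colour `D i'_b` replaced by `D i_b`; `y ∘ D = y ∘ D'`; `D'` satisfies (a), (b)
[(b): if `D' i = D' i'` and `D i ≠ D i'` then both colours are in `{D i_b, D i'_b}`, so by (b) for `D` both `i, i'` are in the group `b`], and has fewer colours, so `¬ NZ D'`.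
`rank_plain` with `p = E.card` (enumerate `E` with `E.equivFin`).
-/

namespace AOR

open MvPolynomial

/-- `f` does not vanish on the points which are constant on the classes of the colouring `D` -/
private def NZ {n : ℕ} (f : MvPolynomial (Fin n) ℂ) {κ : Type} (D : Fin n → κ) : Prop :=
  ∃ y : κ → ℂ, eval (fun i => y (D i)) f ≠ 0

private lemma NZ.mono {n : ℕ} {f : MvPolynomial (Fin n) ℂ} {κ κ' : Type} {D : Fin n → κ}
    {D' : Fin n → κ'} (h : ∀ i i', D i = D i' → D' i = D' i') (hD' : NZ f D') : NZ f D := by
  classical
  obtain ⟨y', hy'⟩ := hD'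
  refine ⟨fun k => if hk : ∃ i, D i = k then y' (D' hk.choose) else 0, ?_⟩
  have h1 : (fun i => (fun k => if hk : ∃ i, D i = k then y' (D' hk.choose) else 0) (D i)) =
      fun i => y' (D' i) := by
    funext i
    have hk : ∃ i', D i' = D i := ⟨i, rfl⟩
    simp only
    rw [dif_pos hk, h _ _ hk.choose_spec]
  rw [h1]
  exact hy'

/-- the colouring in the conclusion -/
private def TT {n : ℕ} {K B : Type} [DecidableEq B] (C : Fin n → K) (M : Fin n → Option B)
    (E : Finset B) (i : Fin n) : K ⊕ B :=
  match M i with
  | none => Sum.inl (C i)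
  | some b => if b ∈ E then Sum.inl (C i) else Sum.inr b

section

variable {n : ℕ} {K B : Type} [DecidableEq B] {C : Fin n → K} {M : Fin n → Option B}
  {E : Finset B} {i : Fin n} {b : B}

private lemma TT_none (h : M i = none) : TT C M E i = Sum.inl (C i) := by
  unfold TT
  rw [h]

private lemma TT_mem (h : M i = some b) (hb : b ∈ E) : TT C M E i = Sum.inl (C i) := by
  unfold TT
  rw [h]
  simp only
  rw [if_pos hb]

private lemma TT_notMem (h : M i = some b) (hb : b ∉ E) : TT C M E i = Sum.inr b := by
  unfold TT
  rw [h]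
  simp only
  rw [if_neg hb]

private lemma TT_inl {c : K} (h : TT C M E i = Sum.inl c) : C i = c := by
  rcases hM : M i with _ | b
  · rw [TT_none hM] at h
    exact Sum.inl_injective h
  · by_cases hb : b ∈ E
    · rw [TT_mem hM hb] at h
      exact Sum.inl_injective h
    · rw [TT_notMem hM hb] at h
      exact absurd h Sum.inr_ne_inl

private lemma TT_inr (h : TT C M E i = Sum.inr b) : M i = some b := by
  rcases hM : M i with _ | b'
  · rw [TT_none hM] at h
    exact absurd h Sum.inl_ne_inr
  · by_cases hb : b' ∈ E
    · rw [TT_mem hM hb] at h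
      exact absurd h Sum.inl_ne_inr
    · rw [TT_notMem hM hb] at h
      rw [Sum.inr_injective h]

/-- for the colours outside the group `b` nothing changes -/
private lemma TT_erase (h : M i ≠ some b) : TT C M (E.erase b) i = TT C M E i := by
  rcases hM : M i with _ | b'
  · rw [TT_none hM, TT_none hM]
  · have hne : b' ≠ b := fun hh => h (by rw [hM, hh])
    by_cases hb : b' ∈ E
    · rw [TT_mem hM hb, TT_mem hM (Finset.mem_erase.2 ⟨hne, hb⟩)]
    · rw [TT_notMem hM hb, TT_notMem hM fun hh => hb (Finset.mem_erase.1 hh).2]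

end

theorem stage_plain {n r : ℕ} {f : MvPolynomial (Fin n) ℂ} (hf : AO r f) {K B : Type} [Fintype B]
    [DecidableEq B] (C : Fin n → K) (M : Fin n → Option B) (hCM : ∀ i i', C i = C i' → M i = M i')
    (hne : ∃ y : K → ℂ, eval (fun i => y (C i)) f ≠ 0) :
    ∃ E : Finset B, 2 ^ E.card ≤ r ∧ ∃ y : K ⊕ B → ℂ, eval (fun i => y (match M i with
      | none => Sum.inl (C i)
      | some b => if b ∈ E then Sum.inl (C i) else Sum.inr b)) f ≠ 0 := by
  classical
  -- the minimal set of groups
  have huniv : NZ f (TT C M (Finset.univ : Finset B)) := by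
    refine NZ.mono (D' := C) ?_ hne
    intro i i' h
    have h1 : ∀ j, TT C M (Finset.univ : Finset B) j = Sum.inl (C j) := by
      intro j
      rcases hM : M j with _ | b
      · exact TT_none hM
      · exact TT_mem hM (Finset.mem_univ _)
    rw [h1, h1] at h
    exact Sum.inl_injective h
  obtain ⟨E, hE, hEmin⟩ := Finset.exists_min_image
    (Finset.univ.filter fun E : Finset B => NZ f (TT C M E)) Finset.card
    ⟨Finset.univ, by rw [Finset.mem_filter]; exact ⟨Finset.mem_univ _, huniv⟩⟩
  rw [Finset.mem_filter] at hE
  replace hE := hE.2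
  -- the minimal colouring
  have hexD : ∃ k, ∃ D : Fin n → K ⊕ B, ((∀ i i', TT C M E i = TT C M E i' → D i = D i') ∧
      (∀ i i', D i = D i' → TT C M E i = TT C M E i' ∨
        ∃ b ∈ E, M i = some b ∧ M i' = some b) ∧ NZ f D) ∧ (Finset.univ.image D).card = k :=
    ⟨_, TT C M E, ⟨fun _ _ h => h, fun _ _ h => Or.inl h, hE⟩, rfl⟩
  obtain ⟨D, ⟨ha, hb, hc⟩, hcard⟩ := Nat.find_spec hexD
  have hDmin : ∀ D' : Fin n → K ⊕ B, (∀ i i', TT C M E i = TT C M E i' → D' i = D' i') →
      (∀ i i', D' i = D' i' → TT C M E i = TT C M E i' ∨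
        ∃ b ∈ E, M i = some b ∧ M i' = some b) → NZ f D' →
      (Finset.univ.image D).card ≤ (Finset.univ.image D').card := by
    intro D' h1 h2 h3
    rw [hcard]
    exact Nat.find_min' hexD ⟨D', ⟨h1, h2, h3⟩, rfl⟩
  -- the group is determined by the colour
  have hgrp : ∀ x x' b, b ∈ E → M x' = some b → D x = D x' → M x = some b := by
    intro x x' b hbE hx' hxx'
    rcases hb x x' hxx' with h | ⟨b', _, h1, h2⟩
    · rw [TT_mem hx' hbE] at h
      rw [hCM x x' (TT_inl h)]
      exact hx'
    · rw [h1]
      rw [hx'] at h2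
      exact h2.symm
  have hpair : ∀ b ∈ E, ∃ i i', M i = some b ∧ M i' = some b ∧ D i ≠ D i' := by
    intro b hbE
    by_contra hcon
    push Not at hcon
    have h1 : NZ f (TT C M (E.erase b)) := by
      refine NZ.mono (D' := D) ?_ hc
      intro i i' h
      by_cases hi : M i = some b
      · have h2 : TT C M (E.erase b) i = Sum.inr b :=
          TT_notMem hi (Finset.notMem_erase b E)
        rw [h2] at h
        exact hcon i i' hi (TT_inr h.symm)
      · have hi' : M i' ≠ some b := by
          intro hi'
          have h2 : TT C M (E.erase b) i' = Sum.inr b :=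
            TT_notMem hi' (Finset.notMem_erase b E)
          rw [h2] at h
          exact hi (TT_inr h)
        rw [TT_erase hi, TT_erase hi'] at h
        exact ha i i' h
    have h2 := hEmin (E.erase b) (by rw [Finset.mem_filter]; exact ⟨Finset.mem_univ _, h1⟩)
    exact absurd (Finset.card_erase_lt_of_mem hbE) (not_lt.2 h2)
  choose u v hu hv huv using fun b : E => hpair b.1 b.2
  have huvE : ∀ x x' b b', b ∈ E → b' ∈ E → M x = some b → M x' = some b' → D x = D x' →
      b = b' := by
    intro x x' b b' hbE hbE' hx hx' hxx'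
    have h1 := hgrp x x' b' hbE' hx' hxx'
    rw [hx] at h1
    exact Option.some_injective _ h1
  refine ⟨E, ?_, hE⟩
  refine rank_plain hf D (fun l => D (u (E.equivFin.symm l)))
    (fun l => D (v (E.equivFin.symm l))) ?_ hc ?_
  · have hEq : ∀ l l' : Fin E.card, ((E.equivFin.symm l).1 : B) = (E.equivFin.symm l').1 →
        l = l' := by
      intro l l' h
      exact E.equivFin.symm.injective (Subtype.ext h)
    have hmem : ∀ l : Fin E.card, ((E.equivFin.symm l).1 : B) ∈ E := fun l =>
      (E.equivFin.symm l).2
    rintro (l | l) (l' | l') h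
    · simp only [Sum.elim_inl] at h
      rw [hEq l l' (huvE _ _ _ _ (hmem l) (hmem l') (hu _) (hu _) h)]
    · simp only [Sum.elim_inl, Sum.elim_inr] at h
      have h1 := hEq l l' (huvE _ _ _ _ (hmem l) (hmem l') (hu _) (hv _) h)
      subst h1
      exact absurd h (huv _)
    · simp only [Sum.elim_inl, Sum.elim_inr] at h
      have h1 := hEq l l' (huvE _ _ _ _ (hmem l) (hmem l') (hv _) (hu _) h)
      subst h1
      exact absurd h.symm (huv _)
    · simp only [Sum.elim_inr] at h
      rw [hEq l l' (huvE _ _ _ _ (hmem l) (hmem l') (hv _) (hv _) h)]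
  · intro l y hy
    generalize E.equivFin.symm l = b at hy
    by_contra hcon
    have hD' : ∀ i, y (if D i = D (v b) then D (u b) else D i) = y (D i) := by
      intro i
      split_ifs with h
      · rw [h, hy]
      · rfl
    have h1 := hDmin (fun i => if D i = D (v b) then D (u b) else D i) ?_ ?_ ?_
    · have h2 : Finset.univ.image (fun i => if D i = D (v b) then D (u b) else D i) ⊆
          (Finset.univ.image D).erase (D (v b)) := by
        intro c hc'
        rw [Finset.mem_image] at hc'
        obtain ⟨i, _, rfl⟩ := hc'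
        rw [Finset.mem_erase]
        split_ifs with h
        · exact ⟨huv b, Finset.mem_image_of_mem _ (Finset.mem_univ _)⟩
        · exact ⟨h, Finset.mem_image_of_mem _ (Finset.mem_univ _)⟩
      have h3 : D (v b) ∈ Finset.univ.image D :=
        Finset.mem_image_of_mem _ (Finset.mem_univ _)
      have h4 := Finset.card_le_card h2
      have h5 := Finset.card_erase_lt_of_mem h3
      omega
    · intro i i' h
      rw [ha i i' h]
    · intro i i' h
      by_cases hii : D i = D i'
      · exact hb i i' hii
      right
      refine ⟨b, b.2, ?_⟩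
      split_ifs at h with c1 c2 c2
      · exact absurd (c1.trans c2.symm) hii
      · exact ⟨hgrp i (v b) b b.2 (hv b) c1, hgrp i' (u b) b b.2 (hu b) h.symm⟩
      · exact ⟨hgrp i (u b) b b.2 (hu b) h, hgrp i' (v b) b b.2 (hv b) c2⟩
      · exact absurd h hii
    · refine ⟨y, ?_⟩
      have h2 : (fun i => y ((fun i => if D i = D (v b) then D (u b) else D i) i)) =
          fun i => y (D i) := funext hD'
      rw [h2]
      exact hcon

end AOR
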