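import Pool.Agent.Helper31.AO.Defs

/-!
# AO-17: closure properties: sums, products, sums of products of univariates, powers of sums of univariates

Proofs.
* `AO.mono`: extend `A, B` by `0` (`Fin.castLE`; sum over `Fin s` of a function which is zero off the image; or use `AO.of_fintype`).
* `of_fintype`: `Fintype.equivFin`, `Equiv.sum_comp`, pad by zeros.
* `AO.sum`: index type `Σ k, Fin (r k)`, card `∑ r k`.
* `AO.mul`: index type `Fin r × Fin s`.
* `ao_prod`: `A (x) = ∏ i ∈ S, (g i) (x i)`, `B (y) = ∏ i ∈ Sᶜ, (g i) (y i)` (as polynomials: `Polynomial.aeval (X i) (g i)`, `eval` of it is `(g i).eval (x i)`); `Finset.prod_mul_prod_compl`.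
* `ao_pow`: `∑ i, g i (z i) = u (x) + v (y)` with `u = ∑ i ∈ S`, `v = ∑ i ∈ Sᶜ`, and the binomial theorem `add_pow`: index type `Fin (e + 1)` / `Finset.range (e + 1)`.
-/

namespace AOR

open MvPolynomial

private theorem eval_aeval_X {n : ℕ} (x : Fin n → ℂ) (i : Fin n) (g : Polynomial ℂ) :
    eval x (Polynomial.aeval (X i : MvPolynomial (Fin n) ℂ) g) = g.eval (x i) := by
  have h := Polynomial.aeval_algHom_apply (MvPolynomial.aeval x : MvPolynomial (Fin n) ℂ →ₐ[ℂ] ℂ)
    (X i : MvPolynomial (Fin n) ℂ) g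
  rw [MvPolynomial.aeval_X] at h
  rw [← Polynomial.coe_aeval_eq_eval, h]
  rfl

theorem of_fintype {n r : ℕ} {f : MvPolynomial (Fin n) ℂ} {ι : Type*} [Fintype ι]
    (hι : Fintype.card ι ≤ r)
    (h : ∀ S : Finset (Fin n), ∃ A B : ι → MvPolynomial (Fin n) ℂ, ∀ x y : Fin n → ℂ,
      eval (S.piecewise x y) f = ∑ k, eval x (A k) * eval y (B k)) : AO r f := by
  classical
  intro S
  obtain ⟨A, B, hAB⟩ := h S
  obtain ⟨e⟩ : Nonempty (ι ↪ Fin r) :=
    Function.Embedding.nonempty_of_card_le (by rwa [Fintype.card_fin])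
  refine ⟨Function.extend e A 0, Function.extend e B 0, ?_⟩
  intro x y
  rw [hAB]
  have h1 : ∑ k, eval x (A k) * eval y (B k) = ∑ k ∈ (Finset.univ : Finset ι).map e,
      eval x (Function.extend e A 0 k) * eval y (Function.extend e B 0 k) := by
    rw [Finset.sum_map]
    refine Finset.sum_congr rfl fun k _ => ?_
    rw [e.injective.extend_apply, e.injective.extend_apply]
  rw [h1]
  refine Finset.sum_subset (Finset.subset_univ _) ?_
  intro k _ hk
  have h2 : ¬ ∃ a, e a = k := by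
    rintro ⟨a, ha⟩
    exact hk (Finset.mem_map.2 ⟨a, Finset.mem_univ a, ha⟩)
  rw [Function.extend_apply' _ _ _ h2, Pi.zero_apply, map_zero, zero_mul]

theorem AO.mono {n r s : ℕ} {f : MvPolynomial (Fin n) ℂ} (h : AO r f) (hrs : r ≤ s) : AO s f :=
  of_fintype (ι := Fin r) (by rwa [Fintype.card_fin]) h

theorem AO.sum {n s : ℕ} (f : Fin s → MvPolynomial (Fin n) ℂ) (r : Fin s → ℕ)
    (h : ∀ k, AO (r k) (f k)) : AO (∑ k, r k) (∑ k, f k) := by
  refine of_fintype (ι := Σ k, Fin (r k)) ?_ ?_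
  · rw [Fintype.card_sigma]
    refine le_of_eq (Finset.sum_congr rfl fun k _ => ?_)
    rw [Fintype.card_fin]
  · intro S
    choose A B hAB using fun k => h k S
    refine ⟨fun p => A p.1 p.2, fun p => B p.1 p.2, ?_⟩
    intro x y
    rw [map_sum, Fintype.sum_sigma]
    exact Finset.sum_congr rfl fun k _ => hAB k x y

theorem AO.mul {n r s : ℕ} {f g : MvPolynomial (Fin n) ℂ} (hf : AO r f) (hg : AO s g) :
    AO (r * s) (f * g) := by
  refine of_fintype (ι := Fin r × Fin s) ?_ ?_
  · rw [Fintype.card_prod, Fintype.card_fin, Fintype.card_fin]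
  · intro S
    obtain ⟨A, B, hAB⟩ := hf S
    obtain ⟨A', B', hAB'⟩ := hg S
    refine ⟨fun p => A p.1 * A' p.2, fun p => B p.1 * B' p.2, ?_⟩
    intro x y
    rw [map_mul, hAB, hAB', Finset.sum_mul_sum, Fintype.sum_prod_type]
    refine Finset.sum_congr rfl fun k _ => Finset.sum_congr rfl fun l _ => ?_
    change _ = eval x (A k * A' l) * eval y (B k * B' l)
    rw [map_mul, map_mul]
    ring

theorem ao_prod {n : ℕ} (g : Fin n → Polynomial ℂ) {f : MvPolynomial (Fin n) ℂ}
    (hf : ∀ x, eval x f = ∏ i, (g i).eval (x i)) : AO 1 f := by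
  classical
  intro S
  refine ⟨fun _ => ∏ i ∈ S, Polynomial.aeval (X i) (g i),
    fun _ => ∏ i ∈ Sᶜ, Polynomial.aeval (X i) (g i), ?_⟩
  intro x y
  rw [Finset.univ_unique, Finset.sum_singleton, hf, map_prod, map_prod,
    ← Finset.prod_mul_prod_compl S]
  congr 1
  · refine Finset.prod_congr rfl fun i hi => ?_
    rw [eval_aeval_X]
    congr 1
    simp [Finset.piecewise, hi]
  · refine Finset.prod_congr rfl fun i hi => ?_
    rw [eval_aeval_X]
    have hi' : i ∉ S := Finset.mem_compl.1 hi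
    congr 1
    simp [Finset.piecewise, hi']

theorem ao_pow {n e : ℕ} (g : Fin n → Polynomial ℂ) {f : MvPolynomial (Fin n) ℂ}
    (hf : ∀ x, eval x f = (∑ i, (g i).eval (x i)) ^ e) : AO (e + 1) f := by
  classical
  intro S
  refine ⟨fun k => (∑ i ∈ S, Polynomial.aeval (X i) (g i)) ^ (k : ℕ),
    fun k => (∑ i ∈ Sᶜ, Polynomial.aeval (X i) (g i)) ^ (e - (k : ℕ)) * C ((e.choose k : ℕ) : ℂ), ?_⟩
  intro x y
  have h1 : ∑ i, (g i).eval (S.piecewise x y i)
      = (∑ i ∈ S, (g i).eval (x i)) + ∑ i ∈ Sᶜ, (g i).eval (y i) := by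
    rw [← Finset.sum_add_sum_compl S]
    congr 1
    · refine Finset.sum_congr rfl fun i hi => ?_
      congr 1
      simp [Finset.piecewise, hi]
    · refine Finset.sum_congr rfl fun i hi => ?_
      have hi' : i ∉ S := Finset.mem_compl.1 hi
      congr 1
      simp [Finset.piecewise, hi']
  rw [hf, h1, add_pow, Finset.sum_range]
  refine Finset.sum_congr rfl fun k _ => ?_
  rw [map_pow, map_mul, map_pow, map_sum, map_sum, eval_C, mul_assoc]
  congr 1
  · congr 1
    refine Finset.sum_congr rfl fun i _ => ?_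
    rw [eval_aeval_X]
  · congr 1
    congr 1
    refine Finset.sum_congr rfl fun i _ => ?_
    rw [eval_aeval_X]

end AOR
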