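import Pool.Agent.Helper31.AO.Defs

/-!
# AO: nodes of the tree

A node of level `j` is a vector `ν : Fin (d + 1) → F` with `ν l = 0` for `l < j`.
-/

namespace AOR

open MvPolynomial

variable {F : Type} [Field F]

/-- The node of level `j` above the point with coordinates `ξ`. -/
def node (d : ℕ) (ξ a : ℕ → F) (j : ℕ) : Fin (d + 1) → F := fun l =>
  if (l : ℕ) < j then 0 else if (l : ℕ) = j then head ξ a j else ξ l

/-- The entry number `j` of a vector, zero if there is none. -/
def ent {d : ℕ} (ν : Fin (d + 1) → F) (j : ℕ) : F := if h : j < d + 1 then ν ⟨j, h⟩ else 0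

/-- The parent (a node of level `j + 1`) of a node of level `j`, for the parameter `α`. -/
def par {d : ℕ} (j : ℕ) (α : F) (ν : Fin (d + 1) → F) : Fin (d + 1) → F := fun l =>
  if (l : ℕ) ≤ j then 0 else if (l : ℕ) = j + 1 then ν l - α * ent ν j else ν l

/-- Being a node of level `j`. -/
def IsNode {d : ℕ} (j : ℕ) (ν : Fin (d + 1) → F) : Prop := ∀ l : Fin (d + 1), (l : ℕ) < j → ν l = 0

theorem ent_node {d : ℕ} {ξ a : ℕ → F} {j : ℕ} (hj : j < d + 1) : ent (node d ξ a j) j = head ξ a j := by
  rw [ent, dif_pos hj, node]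
  simp

theorem isNode_node {d : ℕ} {ξ a : ℕ → F} {j : ℕ} : IsNode j (node d ξ a j) := by
  intro l hl
  rw [node, if_pos hl]

theorem isNode_par {d j : ℕ} {α : F} {ν : Fin (d + 1) → F} : IsNode (j + 1) (par j α ν) := by
  intro l hl
  rw [par, if_pos (Nat.lt_succ_iff.1 hl)]

/-- The parent of the node of level `j` is the node of level `j + 1`. -/
theorem par_node {d : ℕ} {ξ a : ℕ → F} {j : ℕ} (hj : j < d) :
    par j (a j) (node d ξ a j) = node d ξ a (j + 1) := by
  funext l
  rw [par, ent_node (by omega)]
  rcases lt_trichotomy (l : ℕ) (j + 1) with h | h | h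
  · rw [if_pos (by omega), node, if_pos h]
  · rw [if_neg (by omega), if_pos h, node, node, if_neg (by omega), if_neg (by omega),
      if_neg (by omega), if_pos h, h, head]
  · rw [if_neg (by omega), if_neg (by omega), node, node, if_neg (by omega), if_neg (by omega),
      if_neg (by omega), if_neg (by omega)]

/-- Two nodes of level `j` with the same parent and the same entry number `j` are equal. -/
theorem eq_of_par {d j : ℕ} (hj : j < d) {α : F} {ν ν' : Fin (d + 1) → F} (h1 : IsNode j ν)
    (h2 : IsNode j ν') (hp : par j α ν = par j α ν') (he : ent ν j = ent ν' j) : ν = ν' := by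
  funext l
  have h3 := congrFun hp l
  rw [par, par] at h3
  rcases lt_trichotomy (l : ℕ) j with h | h | h
  · rw [h1 l h, h2 l h]
  · rw [ent, ent, dif_pos (by omega), dif_pos (by omega)] at he
    have h4 : l = ⟨j, by omega⟩ := Fin.ext h
    rw [h4]
    exact he
  · have hle : ¬ (l : ℕ) ≤ j := by omega
    simp only [if_neg hle] at h3
    by_cases h5 : (l : ℕ) = j + 1
    · simp only [if_pos h5, he] at h3
      exact sub_left_injective h3
    · simp only [if_neg h5] at h3
      exact h3

variable [Fintype F] [DecidableEq F]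

open Classical in
/-- The nodes of level `j` with a bad level. -/
noncomputable def taint {d : ℕ} (b : (Fin (d + 1) → F) → ℕ → Bool) (j : ℕ) : Finset (Fin (d + 1) → F) :=
  Finset.univ.filter fun ν => IsNode j ν ∧ ∃ l < j, b ν l = true

/-- The colouring of level `j` is good for `f`. -/
def Good {n : ℕ} (f : MvPolynomial (Fin n) ℂ) (d j : ℕ) (ξ : Fin n → ℕ → F) (a : ℕ → F)
    (κ : (Fin (d + 1) → F) → ℕ → F) (b : (Fin (d + 1) → F) → ℕ → Bool) : Prop :=
  ∃ y : (Fin (d + 1) → F) × Option (ℕ × F) → ℂ,
    eval (fun i => y (node d (ξ i) a j,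
      sig (head (ξ i) a) (κ (node d (ξ i) a j)) (b (node d (ξ i) a j)) j)) f ≠ 0

end AOR
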