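import Pool.Agent.Helper31.AO.Sep
import Pool.Agent.Helper31.AO.StageP

/-!
# AO-8: one level of the tree

Proof. Write `L = Nat.log 2 r`, `N i = node d (ξ i) a j`, `c i = head (ξ i) a`.
(1) `Z = taint b j` has `Z.card ^ 2 ≤ (j L) ^ 2 ≤ (d L) ^ 2 < card F`; `sep` gives `α`. Put `a' = Function.update a j α`. `head (ξ i) a' l = head (ξ i) a l` for `l ≤ j`
(`head_congr`), `node d (ξ i) a' j = N i`, and `N' i := node d (ξ i) a' (j + 1) = par j α (N i)` (`par_node`).
(2) For a vector `ν'` let `st ν'` (the PATH CHILD) be an element `ν ∈ Z` with `par j α ν = ν'` if there is one (then it is unique), and `st ν' = ν'` otherwise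
(classical `if h : ∃ ν ∈ Z, par j α ν = ν' then h.choose else ν'`). Facts, for `ν' = par j α ν`, `IsNode j ν`: `IsNode j (st ν')`, `par j α (st ν') = ν'` (if `st ν' = ν'`:
`ν' l = 0` for `l ≤ j`, so `ent ν' j = 0` and `par j α ν' = ν'`). If `ν ≠ st ν'` then `ν ∉ Z`, so `b ν l = false` for all `l < j`, so `sig _ _ (b ν) j = none` (induction on `j`).
(3) `stage_plain` with `K = (Fin (d+1) → F) × Option (ℕ × F)`, `B = Fin (d+1) → F`, `C i = (N i, s i)`, `s i = sig (c i) (κ (N i)) (b (N i)) j`, `M i = if s i = none then some (N' i) else none`: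
get `E` with `2 ^ E.card ≤ r`, so `E.card ≤ L` (`Nat.le_log_of_pow_le` or `Nat.pow_le_iff_le_log`), and `y` with a nonzero value for the tied colouring `T i`.
(4) `κ' ν' = Function.update (κ (st ν')) j (ent (st ν') j)`, `b' ν' = Function.update (b (st ν')) j (decide (ν' ∈ E))`. By definition of `sig` and `sig_congr`:
`s' i := sig (head (ξ i) a') (κ' (N' i)) (b' (N' i)) (j + 1) = if ent (N i) j = ent (st (N' i)) j then sig (c i) (κ (st (N' i))) (b (st (N' i))) j else if N' i ∈ E then some (j, c i j) else none`,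
and `ent (N i) j = ent (st (N' i)) j ↔ N i = st (N' i)` (`eq_of_par`). So: if `N i = st (N' i)`: `s' i = s i`; otherwise `s i = none` and `s' i = some (j, c i j)` or `none` as `N' i ∈ E` or not.
(5) CLAIM: `(N' i, s' i) = (N' i₁, s' i₁) → T i = T i₁`. Case `s' i = some (l, k)` with `l < j`: then both `i`, `i₁` are on the path (`N i = st (N' i) = N i₁`; off the path the level is `j`), `C i = C i₁`,
`s i ≠ none`, so `T i = inl (C i) = T i₁`. Case `some (j, k)`: both are off the path (`sig_lt`), `N' i ∈ E`, `c i j = k = c i₁ j`, so `N i = N i₁` (`eq_of_par`, `ent_node`), `s i = s i₁ = none`, `T` equal. Case `none`: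
`s i = s i₁ = none`; if `N' i ∉ E`: `T i = inr (N' i) = T i₁`; if `N' i ∈ E`: both on the path, `C i = C i₁`.
Hence there is `y'` with `y' (N' i, s' i) = y (T i)` for all `i` (`y' = ` extension, e.g. `Function.extend` or choice), which gives `Good f d (j+1) ξ a' κ' b'`.
(6) `taint b' (j+1) ⊆ E ∪ Z.image (par j α)`: if `b' ν' l = true`, `l < j + 1`: `l = j`: `ν' ∈ E`; `l < j`: `b (st ν') l = true`; if `st ν' ∈ Z` with `par j α (st ν') = ν'` fine; otherwise `st ν' = ν'`, which is a node
of level `j + 1`, so of level `j`, with `b ν' l = true`: so `ν' ∈ Z`, and `par j α ν' = ν'`, contradiction with the choice of `st` (so this case does not occur).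
So the cardinality is `≤ L + j L`.
-/

namespace AOR

open MvPolynomial

/-- the colouring in the conclusion of `stage_plain` -/
private def TT {n : ℕ} {K B : Type} [DecidableEq B] (C : Fin n → K) (M : Fin n → Option B)
    (E : Finset B) (i : Fin n) : K ⊕ B :=
  match M i with
  | none => Sum.inl (C i)
  | some b => if b ∈ E then Sum.inl (C i) else Sum.inr b

section

variable {n : ℕ} {K B : Type} [DecidableEq B] {C : Fin n → K} {M : Fin n → Option B}
  {E : Finset B} {i : Fin n} {b : B}

private lemma TT_none (h : M i = none) : TT C M E i = Sum.inl (C i) := by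
  unfold TT
  rw [h]

private lemma TT_mem (h : M i = some b) (hb : b ∈ E) : TT C M E i = Sum.inl (C i) := by
  unfold TT
  rw [h]
  simp only
  rw [if_pos hb]

private lemma TT_notMem (h : M i = some b) (hb : b ∉ E) : TT C M E i = Sum.inr b := by
  unfold TT
  rw [h]
  simp only
  rw [if_neg hb]

end

private lemma factor {n : ℕ} {κ κ' : Type} {D : Fin n → κ} {D' : Fin n → κ'}
    (h : ∀ i i', D i = D i' → D' i = D' i') (y' : κ' → ℂ) :
    ∃ y : κ → ℂ, ∀ i, y (D i) = y' (D' i) := by
  classical
  refine ⟨fun k => if hk : ∃ i, D i = k then y' (D' hk.choose) else 0, fun i => ?_⟩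
  have hk : ∃ i', D i' = D i := ⟨i, rfl⟩
  simp only
  rw [dif_pos hk, h _ _ hk.choose_spec]

private lemma sig_none {F : Type} [DecidableEq F] {c κ : ℕ → F} {b : ℕ → Bool} {j : ℕ}
    (h : ∀ l < j, b l = false) : sig c κ b j = none := by
  induction j with
  | zero => rfl
  | succ j ih =>
    rw [sig, ih (fun l hl => h l (Nat.lt_succ_of_lt hl)), h j (Nat.lt_succ_self j)]
    simp

section

variable {F : Type} [Field F]

open Classical in
/-- the path child of `ν'` -/
private noncomputable def st {d : ℕ} (Z : Finset (Fin (d + 1) → F)) (j : ℕ) (α : F)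
    (ν' : Fin (d + 1) → F) : Fin (d + 1) → F :=
  if h : ∃ ν ∈ Z, par j α ν = ν' then h.choose else ν'

private lemma st_pos {d : ℕ} {Z : Finset (Fin (d + 1) → F)} {j : ℕ} {α : F}
    {ν' : Fin (d + 1) → F} (h : ∃ ν ∈ Z, par j α ν = ν') :
    st Z j α ν' ∈ Z ∧ par j α (st Z j α ν') = ν' := by
  unfold st
  rw [dif_pos h]
  exact h.choose_spec

private lemma st_neg {d : ℕ} {Z : Finset (Fin (d + 1) → F)} {j : ℕ} {α : F}
    {ν' : Fin (d + 1) → F} (h : ¬ ∃ ν ∈ Z, par j α ν = ν') : st Z j α ν' = ν' := by
  unfold st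
  rw [dif_neg h]

private lemma mem_taint [Fintype F] {d j : ℕ} {b : (Fin (d + 1) → F) → ℕ → Bool}
    {ν : Fin (d + 1) → F} : ν ∈ taint b j ↔ IsNode j ν ∧ ∃ l < j, b ν l = true := by
  classical
  unfold taint
  simp only [Finset.mem_filter, Finset.mem_univ, true_and]

private lemma par_self {d j : ℕ} {α : F} {ν' : Fin (d + 1) → F} (h : IsNode (j + 1) ν') :
    par j α ν' = ν' := by
  have h0 : ent ν' j = 0 := by
    unfold ent
    split_ifs with hj
    · exact h ⟨j, hj⟩ (Nat.lt_succ_self j)
    · rfl
  funext l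
  rw [par]
  by_cases h1 : (l : ℕ) ≤ j
  · rw [if_pos h1, h l (Nat.lt_succ_of_le h1)]
  · rw [if_neg h1]
    by_cases h2 : (l : ℕ) = j + 1
    · rw [if_pos h2, h0, mul_zero, sub_zero]
    · rw [if_neg h2]

end

theorem tree_step {F : Type} [Field F] [Fintype F] [DecidableEq F] {n r d j : ℕ}
    {f : MvPolynomial (Fin n) ℂ} (hf : AO r f) (hj : j < d)
    (hq : (d * Nat.log 2 r) ^ 2 < Fintype.card F) {ξ : Fin n → ℕ → F} {a : ℕ → F}
    {κ : (Fin (d + 1) → F) → ℕ → F} {b : (Fin (d + 1) → F) → ℕ → Bool} (hg : Good f d j ξ a κ b)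
    (ht : (taint b j).card ≤ j * Nat.log 2 r) :
    ∃ (a' : ℕ → F) (κ' : (Fin (d + 1) → F) → ℕ → F) (b' : (Fin (d + 1) → F) → ℕ → Bool),
      Good f d (j + 1) ξ a' κ' b' ∧ (taint b' (j + 1)).card ≤ (j + 1) * Nat.log 2 r := by
  obtain ⟨y₀, hy₀⟩ := hg
  have hZn : ∀ ν ∈ taint b j, IsNode j ν := by
    intro ν hν
    exact (mem_taint.1 hν).1
  have hZmem : ∀ ν, IsNode j ν → (∃ l < j, b ν l = true) → ν ∈ taint b j := by
    intro ν h1 h2
    exact mem_taint.2 ⟨h1, h2⟩
  have hZcard : (taint b j).card ^ 2 < Fintype.card F := by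
    refine lt_of_le_of_lt (Nat.pow_le_pow_left (ht.trans ?_) 2) hq
    exact Nat.mul_le_mul_right _ hj.le
  obtain ⟨α, hα⟩ := sep hj (taint b j) hZcard hZn
  generalize taint b j = Z at hZn hZmem hα ht
  -- the new parameter
  set a' : ℕ → F := Function.update a j α with ha'
  have ha'j : a' j = α := by rw [ha', Function.update_self]
  have hhead : ∀ i, ∀ l ≤ j, head (ξ i) a' l = head (ξ i) a l := by
    intro i l hl
    refine head_congr l (fun _ _ => rfl) fun m hm => ?_
    rw [ha', Function.update_of_ne (by omega)]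
  set N : Fin n → Fin (d + 1) → F := fun i => node d (ξ i) a j with hN
  have hNn : ∀ i, IsNode j (N i) := fun i => isNode_node
  have hnode : ∀ i, node d (ξ i) a' j = N i := by
    intro i
    funext l
    simp only [hN, node]
    rw [hhead i j le_rfl]
  set N' : Fin n → Fin (d + 1) → F := fun i => node d (ξ i) a' (j + 1) with hN'
  have hpar : ∀ i, par j α (N i) = N' i := by
    intro i
    have h1 := par_node (d := d) (ξ := ξ i) (a := a') hj
    rw [ha'j, hnode i] at h1
    exact h1
  have hent : ∀ i, ent (N i) j = head (ξ i) a j := fun i => ent_node (by omega)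
  set s : Fin n → Option (ℕ × F) := fun i => sig (head (ξ i) a) (κ (N i)) (b (N i)) j with hs
  -- the stage
  set C : Fin n → (Fin (d + 1) → F) × Option (ℕ × F) := fun i => (N i, s i) with hC
  set M : Fin n → Option (Fin (d + 1) → F) := fun i => if s i = none then some (N' i) else none
    with hM
  have hMsome : ∀ i, s i = none → M i = some (N' i) := fun i h => if_pos h
  have hMnone : ∀ i, s i ≠ none → M i = none := fun i h => if_neg h
  obtain ⟨E, hE, y, hy⟩ := stage_plain hf C M (by
    intro i i' h
    have h1 : N i = N i' := congrArg Prod.fst h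
    have h2 : s i = s i' := congrArg Prod.snd h
    have h3 : N' i = N' i' := by rw [← hpar, ← hpar, h1]
    simp only [hM, h2, h3]) ⟨y₀, hy₀⟩
  replace hy : eval (fun i => y (TT C M E i)) f ≠ 0 := hy
  have hEcard : E.card ≤ Nat.log 2 r := Nat.le_log_of_pow_le (by norm_num) hE
  -- facts about the path child
  have hstn : ∀ i, IsNode j (st Z j α (N' i)) := by
    intro i
    by_cases h : ∃ ν ∈ Z, par j α ν = N' i
    · exact hZn _ (st_pos h).1
    · rw [st_neg h]
      intro l hl
      exact (isNode_node (d := d) (ξ := ξ i) (a := a') (j := j + 1)) l (Nat.lt_succ_of_lt hl)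
  have hstp : ∀ i, par j α (st Z j α (N' i)) = N' i := by
    intro i
    by_cases h : ∃ ν ∈ Z, par j α ν = N' i
    · exact (st_pos h).2
    · rw [st_neg h]
      exact par_self isNode_node
  have hoff : ∀ i, N i ≠ st Z j α (N' i) → s i = none := by
    intro i h
    refine sig_none fun l hl => ?_
    by_contra hb
    have hNZ : N i ∈ Z := hZmem _ (hNn i) ⟨l, hl, by
      rw [Bool.not_eq_false] at hb
      exact hb⟩
    have h1 : ∃ ν ∈ Z, par j α ν = N' i := ⟨N i, hNZ, hpar i⟩
    refine h (hα _ hNZ _ (st_pos h1).1 ?_)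
    rw [hpar, (st_pos h1).2]
  set κ' : (Fin (d + 1) → F) → ℕ → F := fun ν' =>
    Function.update (κ (st Z j α ν')) j (ent (st Z j α ν') j) with hκ'
  set b' : (Fin (d + 1) → F) → ℕ → Bool := fun ν' =>
    Function.update (b (st Z j α ν')) j (decide (ν' ∈ E)) with hb'
  set s' : Fin n → Option (ℕ × F) := fun i =>
    sig (head (ξ i) a') (κ' (N' i)) (b' (N' i)) (j + 1) with hs'
  have hs'eq : ∀ i, s' i = if head (ξ i) a j = ent (st Z j α (N' i)) j then
      sig (head (ξ i) a) (κ (st Z j α (N' i))) (b (st Z j α (N' i))) j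
      else if N' i ∈ E then some (j, head (ξ i) a j) else none := by
    intro i
    have h1 : sig (head (ξ i) a') (κ' (N' i)) (b' (N' i)) j =
        sig (head (ξ i) a) (κ (st Z j α (N' i))) (b (st Z j α (N' i))) j := by
      refine sig_congr j (fun l hl => hhead i l hl.le) (fun l hl => ?_) (fun l hl => ?_)
      · simp only [hκ']
        rw [Function.update_of_ne (by omega)]
      · simp only [hb']
        rw [Function.update_of_ne (by omega)]
    have h2 : κ' (N' i) j = ent (st Z j α (N' i)) j := by
      simp only [hκ']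
      rw [Function.update_self]
    have h3 : b' (N' i) j = decide (N' i ∈ E) := by
      simp only [hb']
      rw [Function.update_self]
    simp only [hs']
    rw [sig, h1, h2, h3, hhead i j le_rfl]
    simp only [decide_eq_true_eq]
  have hon' : ∀ i, N i = st Z j α (N' i) → s' i = s i := by
    intro i h
    have h1 : head (ξ i) a j = ent (st Z j α (N' i)) j := by rw [← hent, ← h]
    rw [hs'eq, if_pos h1, ← h]
  have hoff' : ∀ i, N i ≠ st Z j α (N' i) →
      s' i = if N' i ∈ E then some (j, head (ξ i) a j) else none := by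
    intro i h
    have h1 : head (ξ i) a j ≠ ent (st Z j α (N' i)) j := by
      intro h2
      refine h (eq_of_par (α := α) hj (hNn i) (hstn i) ?_ ?_)
      · rw [hpar, hstp]
      · rw [hent, h2]
    rw [hs'eq, if_neg h1]
  -- the new colouring is finer
  have hfine : ∀ i i₁, (N' i, s' i) = (N' i₁, s' i₁) → TT C M E i = TT C M E i₁ := by
    intro i i₁ h
    have hν : N' i = N' i₁ := congrArg Prod.fst h
    have hss : s' i = s' i₁ := congrArg Prod.snd h
    have hCT : N i = N i₁ → s i = s i₁ → TT C M E i = TT C M E i₁ := by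
      intro h1 h2
      have hCC : C i = C i₁ := Prod.ext h1 h2
      have hMM : M i = M i₁ := by simp only [hM, h2, hν]
      unfold TT
      rw [hMM, hCC]
    have hout : s i = none → s i₁ = none → N' i ∉ E → TT C M E i = TT C M E i₁ := by
      intro h1 h2 h3
      rw [TT_notMem (hMsome i h1) h3, TT_notMem (hMsome i₁ h2) (by rw [← hν]; exact h3), hν]
    by_cases c1 : N i = st Z j α (N' i)
    · by_cases c2 : N i₁ = st Z j α (N' i₁)
      · refine hCT ?_ ?_
        · rw [c1, c2, hν]
        · rw [← hon' i c1, ← hon' i₁ c2, hss]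
      · have h2 := hoff i₁ c2
        have h3 := hoff' i₁ c2
        rw [← hss, hon' i c1, ← hν] at h3
        by_cases hE' : N' i ∈ E
        · rw [if_pos hE'] at h3
          exact absurd (sig_lt h3) (lt_irrefl j)
        · rw [if_neg hE'] at h3
          exact hout h3 h2 hE'
    · by_cases c2 : N i₁ = st Z j α (N' i₁)
      · have h2 := hoff i c1
        have h3 := hoff' i c1
        rw [hss, hon' i₁ c2] at h3
        by_cases hE' : N' i ∈ E
        · rw [if_pos hE'] at h3
          exact absurd (sig_lt h3) (lt_irrefl j)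
        · rw [if_neg hE'] at h3
          exact hout h2 h3 hE'
      · have h2 := hoff i c1
        have h3 := hoff i₁ c2
        by_cases hE' : N' i ∈ E
        · have h4 := hoff' i c1
          have h5 := hoff' i₁ c2
          rw [if_pos hE'] at h4
          rw [← hν, if_pos hE', ← hss, h4] at h5
          have h6 : head (ξ i) a j = head (ξ i₁) a j := by
            have h7 := Option.some_injective _ h5
            exact congrArg Prod.snd h7
          refine hCT (eq_of_par (α := α) hj (hNn i) (hNn i₁) ?_ ?_) (h2.trans h3.symm)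
          · rw [hpar, hpar, hν]
          · rw [hent, hent, h6]
        · exact hout h2 h3 hE'
  obtain ⟨y', hy'⟩ := factor (D := fun i => (N' i, s' i)) (D' := TT C M E) hfine y
  refine ⟨a', κ', b', ⟨y', ?_⟩, ?_⟩
  · have h1 : (fun i => y' (node d (ξ i) a' (j + 1),
        sig (head (ξ i) a') (κ' (node d (ξ i) a' (j + 1))) (b' (node d (ξ i) a' (j + 1)))
          (j + 1))) = fun i => y (TT C M E i) := funext hy'
    rw [h1]
    exact hy
  · have hsub : taint b' (j + 1) ⊆ E ∪ Z.image (par j α) := by
      intro ν' hν'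
      obtain ⟨hn, l, hl, hbl⟩ := mem_taint.1 hν'
      rw [Finset.mem_union]
      by_cases hlj : l = j
      · subst hlj
        simp only [hb', Function.update_self, decide_eq_true_eq] at hbl
        exact Or.inl hbl
      · right
        simp only [hb'] at hbl
        rw [Function.update_of_ne hlj] at hbl
        rw [Finset.mem_image]
        by_contra hcon
        rw [st_neg hcon] at hbl
        refine hcon ⟨ν', hZmem ν' (fun m hm => hn m (Nat.lt_succ_of_lt hm))
          ⟨l, by omega, hbl⟩, par_self hn⟩
    have h1 := (Finset.card_le_card hsub).trans (Finset.card_union_le _ _)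
    have h2 : (Z.image (par j α)).card ≤ Z.card := Finset.card_image_le
    calc (taint b' (j + 1)).card ≤ E.card + (Z.image (par j α)).card := h1
      _ ≤ Nat.log 2 r + j * Nat.log 2 r := Nat.add_le_add hEcard (h2.trans ht)
      _ = (j + 1) * Nat.log 2 r := by ring

end AOR
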